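import Pool.Agent.HYB.St
import Pool.Agent.CT.Det

/-!
# Project HYB, module ALG: the simulation by a message passing algorithm (helper60)
-/

set_option autoImplicit false

namespace Pool.Agent.HYB

open Finset MeasureTheory
open Pool.Agent.CT (Alg rejectsAt tab)

variable {n B b : ℕ} {Q : Type}

theorem ALG_cone_self (H : Net n) (r : ℕ) (u : Fin n) : u ∈ cone H r u := by
  induction r with
  | zero => simp [cone]
  | succ r ih => exact mem_union_left _ ih

theorem ALG_cone_mono (H : Net n) {r t : ℕ} (h : r ≤ t) (u : Fin n) :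
    cone H r u ⊆ cone H t u := by
  induction t, h using Nat.le_induction with
  | base => exact Subset.refl _
  | succ t _ ih => exact ih.trans subset_union_left

/-- the simulated run depends only on the messages of the earlier passes -/
theorem ALG_solo_congr (M : Machine n B b Q) (H : Net n) (m : ℕ → Word b → WithBot (Word b))
    (u : Fin n) (N : Finset (Fin n)) (h h' : ℕ → Fin n → Msg B) :
    ∀ (r : ℕ) (x : Fin n), (∀ s < r, h s = h' s) →
      solo M H m u N h r x = solo M H m u N h' r x
  | 0, _, _ => rfl
  | r + 1, x, hh => by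
      have ih : ∀ y, solo M H m u N h r y = solo M H m u N h' r y := fun y =>
        ALG_solo_congr M H m u N h h' r y fun s hs => hh s (Nat.lt_succ_of_lt hs)
      rw [solo, solo]
      simp only [ih, hh r (Nat.lt_succ_self r)]

theorem ALG_vok_congr (M : Machine n B b Q) (τ : ℕ → Option (Fin n))
    (σ : ℕ → Word b → Option (Word b × Fin n)) (r : ℕ) (x : Fin n) (st st' : ℕ → Q)
    (h : ∀ s ≤ r, st s = st' s) : VOk M τ σ r x st ↔ VOk M τ σ r x st' := by
  have key : ∀ st st' : ℕ → Q, (∀ s ≤ r, st s = st' s) → VOk M τ σ r x st →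
      VOk M τ σ r x st' := by
    rintro st st' h ⟨h1, h2, h3⟩
    refine ⟨fun s hs => ?_, fun s hs a => ?_, ?_⟩
    · rw [← h s hs.le]
      exact h1 s hs
    · rw [← h s hs.le]
      exact h2 s hs a
    · rw [← h r le_rfl]
      exact h3
  exact ⟨key st st' h, key st' st fun s hs => (h s hs).symm⟩

theorem ALG_nbr (G : SimpleGraph (Fin n)) (u : Fin n) : Pool.Agent.CT.nbr G u = nbr G u := by
  classical
  ext v
  simp [Pool.Agent.CT.nbr, nbr]

theorem c_ALG (hL : S_LOC) : S_ALG := by
  classical
  intro n B b Q M H τ σ Λ t r G hrt hsep hadj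
  set m : ℕ → Word b → WithBot (Word b) := fun s a => val (σ s a) with hm
  set P : Alg n B := toAlg M H τ σ Λ t r with hP
  set h : ℕ → Fin n → Fin n → Msg B :=
    fun s w u => if G.Adj w u then M.send s (frun M H m G s w) u else fun _ => false with hh
  have h1 : ∀ s w u, G.Adj w u → h s w u = M.send s (frun M H m G s w) u := fun s w u hw => by
    simp only [hh, if_pos hw]
  have h2 : ∀ s w u, ¬ G.Adj w u → h s w u = fun _ => false := fun s w u hw => by
    simp only [hh, if_neg hw]
  have loc := hL n B b Q M H m G Λ h hadj h1 h2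
  -- a point of the cone of `u ∈ Λ` is in no other cone
  have hout : ∀ u ∈ Λ, ∀ x ∈ cone H t u, ∀ s ≤ t, ∀ u' ∈ Λ, u' ≠ u → x ∉ cone H s u' := by
    intro u hu x hx s hs u' hu' hne hx'
    exact (Finset.disjoint_left.1 (hsep u hu u' hu' hne.symm)) hx (ALG_cone_mono H hs u' hx')
  have hsend : ∀ s w N (g : ℕ → Fin n → Msg B) u,
      P.send s w N g u = M.send s (solo M H m w N g s w) u := fun s w N g u => rfl
  -- (A) the messages
  have hA : ∀ r' ≤ t, ∀ s < r', ∀ w u, tab P G r' s w u = h s w u := by
    intro r'
    induction r' with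
    | zero => intro _ s hs; exact absurd hs (Nat.not_lt_zero s)
    | succ r' ih =>
      intro hr' s hs w u
      have ih' := ih (Nat.le_of_succ_le hr')
      by_cases hw : G.Adj w u
      · rw [tab]
        beta_reduce
        by_cases hsr : s = r'
        · subst hsr
          rw [if_pos rfl, if_pos hw, hsend, h1 s w u hw, ALG_nbr]
          have hwΛ := hadj w u hw
          have e1 : solo M H m w (nbr G w) (fun s' w' => tab P G s s' w' w) s w =
              solo M H m w (nbr G w) (fun s' w' => h s' w' w) s w :=
            ALG_solo_congr M H m w (nbr G w) _ _ s w fun s' hs' =>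
              funext fun w' => ih' s' hs' w' w
          rw [e1, ← loc s w w (hout w hwΛ w (ALG_cone_self H t w) s (Nat.le_of_succ_le hr'))]
        · rw [if_neg hsr]
          exact ih' s (by omega) w u
      · rw [Pool.Agent.CT.det_tab_zero P G hw, h2 s w u hw]
  -- (B) the vertices of `Λ`
  have hB : ∀ u ∈ Λ, (¬ rejectsAt P G r u ↔
      ∀ x ∈ cone H t u, VOk M τ σ r x (fun s => frun M H m G s x)) := by
    intro u hu
    have e0 : rejectsAt P G r u ↔ ¬ ∀ x ∈ cone H t u, VOk M τ σ r x
        (fun s => solo M H m u (nbr G u) (fun s w => tab P G r s w u) s x) := by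
      rw [rejectsAt, ALG_nbr]
      show (if u ∈ Λ then
        if ∀ x ∈ cone H t u, VOk M τ σ r x
          (fun s => solo M H m u (nbr G u) (fun s w => tab P G r s w u) s x)
        then false else true
        else _) = true ↔ _
      rw [if_pos hu]
      split_ifs with hc
      · simpa using hc
      · simpa using hc
    rw [e0, not_not]
    have e1 : ∀ x ∈ cone H t u, (VOk M τ σ r x
        (fun s => solo M H m u (nbr G u) (fun s w => tab P G r s w u) s x) ↔
        VOk M τ σ r x (fun s => frun M H m G s x)) := by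
      intro x hx
      refine ALG_vok_congr M τ σ r x _ _ fun s hs => ?_
      show solo M H m u (nbr G u) (fun s w => tab P G r s w u) s x = frun M H m G s x
      rw [loc s u x (hout u hu x hx s (hs.trans hrt))]
      exact ALG_solo_congr M H m u (nbr G u) _ _ s x fun s' hs' =>
        funext fun w' => hA r hrt s' (lt_of_lt_of_le hs' hs) w' u
    exact forall₂_congr e1
  -- (C) the other vertices
  have hC : ∀ u ∉ Λ, (¬ rejectsAt P G r u ↔
      (∃ u' ∈ Λ, u ∈ cone H t u') ∨ VOk M τ σ r u (fun s => frun M H m G s u)) := by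
    intro u hu
    have e0 : rejectsAt P G r u ↔ ¬ ((∃ u' ∈ Λ, u ∈ cone H t u') ∨ VOk M τ σ r u
        (fun s => solo M H m u ∅ (fun _ _ _ => false) s u)) := by
      rw [rejectsAt, ALG_nbr]
      show (if u ∈ Λ then _ else
        if (∃ u' ∈ Λ, u ∈ cone H t u') ∨ VOk M τ σ r u
          (fun s => solo M H m u ∅ (fun _ _ _ => false) s u)
        then false else true) = true ↔ _
      rw [if_neg hu]
      by_cases hc : (∃ u' ∈ Λ, u ∈ cone H t u') ∨ VOk M τ σ r u
          (fun s => solo M H m u ∅ (fun _ _ _ => false) s u)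
      · rw [if_pos hc]
        exact ⟨fun h0 => absurd h0 Bool.false_ne_true, fun h0 => absurd hc h0⟩
      · rw [if_neg hc]
        exact ⟨fun _ => hc, fun _ => rfl⟩
    rw [e0, not_not]
    by_cases hex : ∃ u' ∈ Λ, u ∈ cone H t u'
    · exact ⟨fun _ => Or.inl hex, fun _ => Or.inl hex⟩
    · have hn : nbr G u = ∅ := by
        refine Finset.eq_empty_of_forall_notMem fun w hw => ?_
        simp only [nbr, Finset.mem_filter, Finset.mem_univ, true_and] at hw
        exact hu (hadj u w hw)
      have hz : (fun s w => h s w u) = fun _ _ _ => false := by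
        funext s w
        exact h2 s w u fun hw => hu (hadj u w hw.symm)
      have e1 : VOk M τ σ r u (fun s => solo M H m u ∅ (fun _ _ _ => false) s u) ↔
          VOk M τ σ r u (fun s => frun M H m G s u) := by
        refine ALG_vok_congr M τ σ r u _ _ fun s hs => ?_
        show solo M H m u ∅ (fun _ _ _ => false) s u = frun M H m G s u
        rw [loc s u u fun u' hu' _ hx => hex ⟨u', hu', ALG_cone_mono H (hs.trans hrt) u' hx⟩,
          hn, hz]
      rw [e1]
  -- (D)
  constructor
  · intro hall u
    by_cases hu : u ∈ Λ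
    · exact (hB u hu).2 fun x _ => hall x
    · exact (hC u hu).2 (Or.inr (hall u))
  · intro hrej x
    by_cases hex : ∃ u' ∈ Λ, x ∈ cone H t u'
    · obtain ⟨u', hu', hx⟩ := hex
      exact (hB u' hu').1 (hrej u') x hx
    · have hx : x ∉ Λ := fun hx => hex ⟨x, hx, ALG_cone_self H t x⟩
      exact ((hC x hx).1 (hrej x)).resolve_left hex

end Pool.Agent.HYB
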