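import Pool.Agent.HYB.St

/-!
# Module CNT (helper99): the number of guesses
-/

set_option autoImplicit false

namespace Pool.Agent.HYB

open Finset

/-- every finite set with at most `J` elements is the set of the values of a list of length `J` -/
theorem CNT_list {E : Type} (A : Finset E) (J : ℕ) (h : A.card ≤ J) :
    ∃ c : Fin J → Option E, ∀ x, x ∈ A ↔ ∃ i, c i = some x := by
  classical
  refine ⟨fun i => A.toList[i.1]?, fun x => ?_⟩
  rw [← Finset.mem_toList, List.mem_iff_getElem?]
  constructor
  · rintro ⟨i, hi⟩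
    have hlt : i < A.toList.length := by
      rw [List.getElem?_eq_some_iff] at hi
      exact hi.1
    rw [Finset.length_toList] at hlt
    exact ⟨⟨i, lt_of_lt_of_le hlt h⟩, hi⟩
  · rintro ⟨i, hi⟩
    exact ⟨i.1, hi⟩

open Classical in
/-- the graph of a function with few values different from `none` -/
noncomputable def CNT_graph {D V : Type} [Fintype D] [Fintype V] (g : D → Option V) :
    Finset (D × V) := univ.filter fun z => g z.1 = some z.2

open Classical in
theorem CNT_graph_card {D V : Type} [Fintype D] [Fintype V] (g : D → Option V) (J : ℕ)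
    (h : (univ.filter (fun d => g d ≠ none)).card ≤ J) : (CNT_graph g).card ≤ J := by
  refine le_trans ?_ h
  refine Finset.card_le_card_of_injOn (fun z => z.1) ?_ ?_
  · intro z hz
    have hz' : g z.1 = some z.2 := (mem_filter.1 hz).2
    simp [hz']
  · intro z hz z' hz' he
    have h1 : g z.1 = some z.2 := (mem_filter.1 hz).2
    have h2 : g z'.1 = some z'.2 := (mem_filter.1 hz').2
    simp only at he
    rw [he, h2] at h1
    exact Prod.ext he (Option.some.inj h1).symm

theorem CNT_graph_inj {D V : Type} [Fintype D] [Fintype V] (g g' : D → Option V)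
    (h : ∀ x, x ∈ CNT_graph g ↔ x ∈ CNT_graph g') : g = g' := by
  classical
  funext d
  have key : ∀ v, g d = some v ↔ g' d = some v := by
    intro v
    have := h (d, v)
    simpa [CNT_graph] using this
  cases hg : g d with
  | none =>
    cases hg' : g' d with
    | none => rfl
    | some v => exact absurd ((key v).2 hg') (by rw [hg]; simp)
  | some v => exact ((key v).1 hg).symm

/-- the target of the injection -/
abbrev CNT_T (n b t J : ℕ) : Type :=
  Σ r : Fin (t + 1), (Fin r → Fin n) × (Fin J → Option ((Fin r × Word b) × (Word b × Fin n)))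

open Classical in
theorem CNT_card_le {n b t J : ℕ} (θ : Guess n b t J) :
    (CNT_graph (fun z : Fin θ.1.1 × Word b => θ.1.2.2 z.1 z.2)).card ≤ J := by
  apply CNT_graph_card
  convert θ.2

/-- the injection -/
noncomputable def CNT_f {n b t J : ℕ} (θ : Guess n b t J) : CNT_T n b t J :=
  ⟨θ.1.1, θ.1.2.1, (CNT_list _ J (CNT_card_le θ)).choose⟩

theorem CNT_f_inj {n b t J : ℕ} : Function.Injective (CNT_f (n := n) (b := b) (t := t) (J := J)) := by
  classical
  rintro θ θ' he
  have s1 := (CNT_list _ J (CNT_card_le θ)).choose_spec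
  have s2 := (CNT_list _ J (CNT_card_le θ')).choose_spec
  unfold CNT_f at he
  obtain ⟨⟨r, a, g⟩, h⟩ := θ
  obtain ⟨⟨r', a', g'⟩, h'⟩ := θ'
  simp only [Sigma.mk.injEq] at he
  obtain ⟨hr, hrest⟩ := he
  subst hr
  have hrest' := eq_of_heq hrest
  rw [Prod.mk.injEq] at hrest'
  obtain ⟨ha, hc⟩ := hrest'
  subst ha
  have hg : (fun z : Fin r × Word b => g z.1 z.2) = fun z => g' z.1 z.2 := by
    apply CNT_graph_inj
    intro x
    rw [s1 x, s2 x]
    constructor
    · rintro ⟨i, hi⟩
      exact ⟨i, by rw [← hc]; exact hi⟩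
    · rintro ⟨i, hi⟩
      exact ⟨i, by rw [hc]; exact hi⟩
  have hg2 : g = g' := by
    funext i w
    exact congrFun hg (i, w)
  subst hg2
  rfl

theorem c_CNT : S_CNT := by
  classical
  intro n b t J hn
  have h1 : Fintype.card (Guess n b t J) ≤ Fintype.card (CNT_T n b t J) :=
    Fintype.card_le_of_injective _ CNT_f_inj
  refine h1.trans ?_
  rw [Fintype.card_sigma]
  have h2 : ∀ r ∈ (univ : Finset (Fin (t + 1))),
      Fintype.card ((Fin r → Fin n) × (Fin J → Option ((Fin r × Word b) × (Word b × Fin n)))) ≤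
        n ^ t * (t * 4 ^ b * n + 1) ^ J := by
    intro r _
    have hr : r.1 ≤ t := Nat.lt_succ_iff.1 r.2
    rw [Fintype.card_prod, Fintype.card_fun, Fintype.card_fun, Fintype.card_option,
      Fintype.card_prod, Fintype.card_prod, Fintype.card_prod]
    simp only [Fintype.card_fin]
    apply Nat.mul_le_mul
    · exact Nat.pow_le_pow_right hn hr
    · apply Nat.pow_le_pow_left
      apply Nat.add_le_add_right
      have h4 : (4 : ℕ) ^ b = 2 ^ b * 2 ^ b := by
        rw [← Nat.mul_pow]
      calc r.1 * 2 ^ b * (2 ^ b * n) = r.1 * (2 ^ b * 2 ^ b) * n := by ring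
        _ ≤ t * 4 ^ b * n := by
          rw [h4]
          exact Nat.mul_le_mul_right _ (Nat.mul_le_mul_right _ hr)
  refine (Finset.sum_le_card_nsmul _ _ _ h2).trans ?_
  rw [Finset.card_univ, Fintype.card_fin, smul_eq_mul, ← mul_assoc]

end Pool.Agent.HYB
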