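import Pool.Agent.HYB.St
import Pool.Agent.CT.Basic

/-!
# COR: the deterministic core
-/

set_option autoImplicit false

namespace Pool.Agent.HYB

open Finset MeasureTheory
open Pool.Agent.CT (Tr NodeFun Node Alg rejectsAt SatT SatTri SatY Sat Hang Br HP BP labH labB nodeOf
  RealT RealY pr Al)

theorem COR_pass_le {n b t J : ℕ} (θ : Guess n b t J) : θ.pass ≤ t :=
  Nat.lt_succ_iff.1 θ.1.1.2

theorem c_CORE (h1 : S_EVT) (h2 : S_FORM) (h3 : S_POOL) (h4 : S_PIN) (h5 : S_NEXY) : S_CORE := by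
  classical
  intro n B b Q M H t J k q N Λ ι hSep hΛ hι hN hk hq g0 g1 hg0 hg1
  have hq' : 3 * (k + 3) ^ (t + 2) ≤ q := by
    refine le_trans ?_ hq
    nlinarith [Nat.zero_le (3 * (k + 3) ^ (t + 2)),
      Nat.one_le_iff_ne_zero.2 (show 3 * (k + 3) ^ (t + 2) ≠ 0 by positivity)]
  obtain ⟨hX, hY⟩ := h5 q k t hq'
  obtain ⟨f1, f2⟩ := h2 (Guess n b t J) (XT q k t) (YT q k t) N
    (fun θ => Out (toAlg M H θ.und θ.cel Λ t θ.pass) ι)
    (fun θ m c => EvX (toAlg M H θ.und θ.cel Λ t θ.pass) (ι m) θ.pass c)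
    (fun θ i x => EvY (toAlg M H θ.und θ.cel Λ t θ.pass) (ι i) θ.pass x) hN
  have e0 := (congrArg pr (funext fun c => propext
    ((h1 n B b Q M H t J k q t N Λ ι (g0 c) hSep hΛ hι).1 c (hg0 c)).1)).trans
    (f1 fun c θ θ' => ((h1 n B b Q M H t J k q t N Λ ι (g0 c) hSep hΛ hι).1 c (hg0 c)).2 θ θ')
  have e1 := (congrArg pr (funext fun z => propext
    ((h1 n B b Q M H t J k q t N Λ ι (g1 z) hSep hΛ hι).2 z.1 z.2.1 z.2.2 (hg1 z)).1)).trans
    (f2 fun z θ θ' => ((h1 n B b Q M H t J k q t N Λ ι (g1 z) hSep hΛ hι).2 z.1 z.2.1 z.2.2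
      (hg1 z)).2 θ θ')
  have hle : pr (fun c => Good M H (g0 c) t J) ≤ 1 := Pool.Agent.CT.pr_le_one _
  rw [e0] at hle
  rw [e0, e1]
  refine h4 (Guess n b t J) N
    (fun θ => if Out (toAlg M H θ.und θ.cel Λ t θ.pass) ι then (1 : ℝ) else 0)
    (fun θ m => pr (fun c : XT q k t => EvX (toAlg M H θ.und θ.cel Λ t θ.pass) (ι m) θ.pass c))
    (fun θ i => pr (fun x : YT q k t => EvY (toAlg M H θ.und θ.cel Λ t θ.pass) (ι i) θ.pass x))
    (2 / 25) hN (by norm_num) (fun θ => ?_) (fun θ i => Pool.Agent.CT.pr_nonneg _)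
    (fun θ i => Pool.Agent.CT.pr_le_one _) (fun θ i => Pool.Agent.CT.pr_nonneg _)
    (fun θ i => ?_) hle
  · by_cases h : Out (toAlg M H θ.und θ.cel Λ t θ.pass) ι
    · exact Or.inr (if_pos h)
    · exact Or.inl (if_neg h)
  · exact h3 n B q k t θ.pass _ (ι i) (COR_pass_le θ) hk hq

end Pool.Agent.HYB
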