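import Pool.Agent.HYB.St
import Pool.Agent.CT.Count

/-! Contents with different names. -/

namespace Pool.Agent.HYB

open Pool.Agent.CT (Tr NodeFun Node Alg rejectsAt SatT SatTri SatY Sat Hang Br HP BP labH labB nodeOf
  RealT RealY pr Al)

/-- Conditional probability. -/
theorem CPR_sub {Ω : Type} [Fintype Ω] (I p : Ω → Prop) [Fintype {c : Ω // I c}]
    (hI : 0 < pr I) : pr (fun c : {c : Ω // I c} => p c.1) * pr I = pr (fun c => I c ∧ p c) := by
  classical
  have h1 : ((Finset.univ.filter fun c : {c : Ω // I c} => p c.1).card : ℝ) =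
      (Finset.univ.filter fun c => I c ∧ p c).card := by
    have h2 : (Finset.univ.filter fun c : {c : Ω // I c} => p c.1).card =
        (Finset.univ.filter fun c => I c ∧ p c).card := by
      refine Finset.card_bij (fun c _ => c.1) ?_ ?_ ?_
      · intro c hc
        rw [Finset.mem_filter] at hc ⊢
        exact ⟨Finset.mem_univ _, c.2, hc.2⟩
      · intro c _ d _ h
        exact Subtype.ext h
      · intro c hc
        rw [Finset.mem_filter] at hc
        exact ⟨⟨c, hc.2.1⟩, by rw [Finset.mem_filter]; exact ⟨Finset.mem_univ _, hc.2.2⟩, rfl⟩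
    rw [h2]
  have h3 : (Fintype.card {c : Ω // I c} : ℝ) = (Finset.univ.filter fun c => I c).card := by
    rw [Fintype.card_subtype]
  have h4 : (Finset.univ.filter fun c => I c).card ≠ 0 := by
    intro h
    rw [Pool.Agent.CT.pr_def] at hI
    have h5 : ((Finset.univ.filter I).card : ℝ) = 0 := by
      have h6 : (Finset.univ.filter I).card = (Finset.univ.filter fun c => I c).card := by
        congr!
      rw [h6, h, Nat.cast_zero]
    rw [h5, zero_div] at hI
    exact lt_irrefl _ hI
  have h4' : ((Finset.univ.filter fun c => I c).card : ℝ) ≠ 0 := Nat.cast_ne_zero.2 h4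
  have e1 : pr (fun c : {c : Ω // I c} => p c.1) =
      ((Finset.univ.filter fun c => I c ∧ p c).card : ℝ) /
        (Finset.univ.filter fun c => I c).card := by
    rw [← h1, ← h3]
    unfold Pool.Agent.CT.pr
    congr!
  have e2 : pr I = ((Finset.univ.filter fun c => I c).card : ℝ) / Fintype.card Ω := by
    unfold Pool.Agent.CT.pr
    congr!
  have e3 : pr (fun c => I c ∧ p c) = ((Finset.univ.filter fun c => I c ∧ p c).card : ℝ) /
      Fintype.card Ω := by
    unfold Pool.Agent.CT.pr
    congr!
  rw [e1, e2, e3]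
  field_simp

/-- The number of positions of a content. -/
theorem CPR_card (k h m : ℕ) (hm : m ≤ k + 2) :
    Fintype.card (HP k h m) ≤ (k + 3) ^ (h + 2) := by
  have h1 := Pool.Agent.CT.count_cardBP_le k h
  have h0 := Pool.Agent.CT.count_cardBP_pos k h
  have c0 : Fintype.card (HP k h m) = 1 + m * Fintype.card (BP k h) := by
    have h2 : Fintype.card (HP k h m) = Fintype.card (Unit ⊕ (Fin m × BP k h)) := rfl
    rw [h2, Fintype.card_sum, Fintype.card_prod, Fintype.card_fin, Fintype.card_unit]
  have h2 : (k + 3) ^ (h + 1) ≤ (k + 3) ^ (h + 2) :=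
    Nat.pow_le_pow_right (by omega) (by omega)
  rw [c0]
  refine le_trans ?_ h2
  rw [pow_succ]
  nlinarith

/-- The general inequality. -/
theorem CPR_gen {Ω Q : Type} [Fintype Ω] [Fintype Q] [DecidableEq Q] {q : ℕ} (hq : 0 < q)
    (lab : Ω → Q → Fin q) (hlab : Function.Bijective lab)
    (hc : 400 * (Fintype.card Q) ^ 2 ≤ q) [Fintype {c : Ω // Function.Injective (lab c)}]
    (p : Ω → Prop) :
    pr (fun c : {c : Ω // Function.Injective (lab c)} => p c.1) ≤ pr p + 1 / 400 ∧
    pr p ≤ pr (fun c : {c : Ω // Function.Injective (lab c)} => p c.1) + 1 / 400 ∧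
    ∀ w : Fin q, pr (fun c : {c : Ω // Function.Injective (lab c)} => ∃ x, lab c.1 x = w) ≤
      1 / 100 := by
  classical
  have hq' : (0 : ℝ) < q := by exact_mod_cast hq
  have hc' : 400 * (Fintype.card Q : ℝ) ^ 2 ≤ q := by exact_mod_cast hc
  have hm : ∀ w : Fin q, 1 - 1 / 400 ≤
      pr (fun c : Ω => Function.Injective (lab c) ∧ ∀ x, lab c x ≠ w) := by
    intro w
    have h1 := Pool.Agent.CT.count_main (Q := Q) hq w
    have h2 : pr (fun c : Ω => Function.Injective (lab c) ∧ ∀ x, lab c x ≠ w) =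
        pr (fun g : Q → Fin q => Function.Injective g ∧ ∀ x, g x ≠ w) :=
      Pool.Agent.CT.pr_equiv (Equiv.ofBijective _ hlab)
        (fun g : Q → Fin q => Function.Injective g ∧ ∀ x, g x ≠ w)
    rw [h2]
    refine le_trans ?_ h1
    have h3 : (Fintype.card Q : ℝ) ^ 2 / q ≤ 1 / 400 := by
      rw [div_le_div_iff₀ hq' (by norm_num)]
      linarith
    linarith
  have w0 : Fin q := ⟨0, hq⟩
  have hI : 1 - 1 / 400 ≤ pr (fun c : Ω => Function.Injective (lab c)) :=
    (hm w0).trans (Pool.Agent.CT.pr_mono fun c h => h.1)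
  have hI0 : 0 < pr (fun c : Ω => Function.Injective (lab c)) := lt_of_lt_of_le (by norm_num) hI
  have hne : Nonempty Ω := by
    by_contra hcon
    rw [not_nonempty_iff] at hcon
    have h1 : pr (fun c : Ω => Function.Injective (lab c)) = 0 := by
      rw [Pool.Agent.CT.pr_def]
      have h2 : Fintype.card Ω = 0 := Fintype.card_eq_zero
      rw [h2, Nat.cast_zero, div_zero]
    rw [h1] at hI0
    exact lt_irrefl _ hI0
  have hle : ∀ r : {c : Ω // Function.Injective (lab c)} → Prop, pr r ≤ 1 := fun r =>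
    Pool.Agent.CT.pr_le_one r
  have hnn : ∀ r : {c : Ω // Function.Injective (lab c)} → Prop, 0 ≤ pr r := fun r =>
    Pool.Agent.CT.pr_nonneg r
  refine ⟨?_, ?_, fun w => ?_⟩
  · have h1 := CPR_sub (fun c : Ω => Function.Injective (lab c)) p hI0
    have h2 : pr (fun c => Function.Injective (lab c) ∧ p c) ≤ pr p :=
      Pool.Agent.CT.pr_mono fun c h => h.2
    have h3 := hle fun c => p c.1
    have h4 := hnn fun c => p c.1
    nlinarith
  · have h1 := CPR_sub (fun c : Ω => Function.Injective (lab c)) p hI0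
    have h3 := hle fun c => p c.1
    have h4 := hnn fun c => p c.1
    have h5 : pr p ≤ pr (fun c => Function.Injective (lab c) ∧ p c) +
        pr (fun c => ¬ Function.Injective (lab c)) := by
      refine le_trans (Pool.Agent.CT.pr_mono fun c h => ?_) (Pool.Agent.CT.pr_or_le _ _)
      by_cases hi : Function.Injective (lab c)
      · exact Or.inl ⟨hi, h⟩
      · exact Or.inr hi
    rw [Pool.Agent.CT.pr_not] at h5
    have h6 := Pool.Agent.CT.pr_le_one (fun c : Ω => Function.Injective (lab c))
    nlinarith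
  · have h1 := CPR_sub (fun c : Ω => Function.Injective (lab c)) (fun c => ∃ x, lab c x = w) hI0
    have h3 := hnn fun c => ∃ x, lab c.1 x = w
    have h5 : pr (fun c => Function.Injective (lab c) ∧ ∃ x, lab c x = w) ≤
        pr (fun c => ¬ (Function.Injective (lab c) ∧ ∀ x, lab c x ≠ w)) := by
      refine Pool.Agent.CT.pr_mono fun c h h' => ?_
      obtain ⟨x, hx⟩ := h.2
      exact h'.2 x hx
    rw [Pool.Agent.CT.pr_not] at h5
    have h6 := hm w
    nlinarith

theorem c_CPR : S_CPR := by
  classical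
  intro q k h hq
  have hpos : 0 < 3 * (k + 3) ^ (h + 2) := by positivity
  have hq0 : 0 < q := lt_of_lt_of_le (by positivity) hq
  have c0 := CPR_card k h (k + 2) le_rfl
  have c1 := CPR_card k h k (by omega)
  have d0 : 400 * (Fintype.card (HP k h (k + 2))) ^ 2 ≤ q := by
    refine le_trans ?_ hq
    have : Fintype.card (HP k h (k + 2)) ≤ 3 * (k + 3) ^ (h + 2) := by omega
    exact Nat.mul_le_mul_left _ (Nat.pow_le_pow_left this 2)
  have d1 : 400 * (Fintype.card (Fin 3 × HP k h k)) ^ 2 ≤ q := by
    refine le_trans ?_ hq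
    have : Fintype.card (Fin 3 × HP k h k) ≤ 3 * (k + 3) ^ (h + 2) := by
      rw [Fintype.card_prod, Fintype.card_fin]
      omega
    exact Nat.mul_le_mul_left _ (Nat.pow_le_pow_left this 2)
  have b0 : Function.Bijective (fun c : Hang (Fin q) k h (k + 2) => (labH c : HP k h (k + 2) → Fin q)) :=
    Pool.Agent.CT.count_labH
  have b1 : Function.Bijective (fun (x : Fin 3 → Hang (Fin q) k h k) (z : Fin 3 × HP k h k) =>
      labH (x z.1) z.2) := Pool.Agent.CT.count_fam Pool.Agent.CT.count_labH
  refine ⟨fun p => ?_, fun p => ?_, fun w => ?_⟩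
  · exact (CPR_gen hq0 _ b0 d0 p).1
  · exact (CPR_gen hq0 _ b1 d1 p).2.1
  · exact (CPR_gen hq0 _ b0 d0 (fun _ => True)).2.2 w

end Pool.Agent.HYB
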