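import Pool.Agent.HYB.St

/-!
# The event `Good` for the graphs of the two families (helper55)
-/

set_option autoImplicit false

namespace Pool.Agent.HYB

open Finset MeasureTheory
open Pool.Agent.CT (Tr NodeFun Node Alg rejectsAt SatT SatTri SatY Sat Hang Br HP BP labH labB nodeOf
  RealT RealY pr Al)

theorem c_EVT (h1 : S_SIG) (h2 : S_ALG) (h3 : S_PRD) : S_EVT := by
  intro n B b Q M H t J k q h N Λ ι G hsep hΛ hinj
  have hp : ∀ θ : Guess n b t J, θ.pass ≤ t := fun θ => Nat.lt_succ_iff.1 θ.1.1.2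
  obtain ⟨hs1, hs2⟩ := h1 n B b t J Q M H G
  have key : (∀ u w, G.Adj u w → u ∈ Λ) → ∀ θ : Guess n b t J,
      (AllOk M H θ.und θ.cel G θ.pass ↔
        ∀ u, ¬ rejectsAt (toAlg M H θ.und θ.cel Λ t θ.pass) G θ.pass u) := fun ha θ =>
    h2 n B b Q M H θ.und θ.cel Λ t θ.pass G (hp θ) hsep ha
  constructor
  · intro c hc
    have ha : ∀ u w, G.Adj u w → u ∈ Λ := by
      intro u w huw
      by_contra hu
      exact hc.2.2.2 u (fun m x hx => hu (hx ▸ hΛ m _)) w huw
    have hk := fun θ : Guess n b t J => (key ha θ).trans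
      ((h3 n B q k h θ.pass N (toAlg M H θ.und θ.cel Λ t θ.pass) ι G hinj).1 c hc)
    refine ⟨?_, ?_⟩
    · rw [hs1]
      exact exists_congr hk
    · intro θ θ' e e'
      exact hs2 θ θ' ((hk θ).2 e) ((hk θ').2 e')
  · intro i c x hc
    have ha : ∀ u w, G.Adj u w → u ∈ Λ := by
      intro u w huw
      by_contra hu
      exact hc.2.2.2.2 u (fun m _ y hy => hu (hy ▸ hΛ m _)) (fun z hz => hu (hz ▸ hΛ i _)) w huw
    have hk := fun θ : Guess n b t J => (key ha θ).trans
      ((h3 n B q k h θ.pass N (toAlg M H θ.und θ.cel Λ t θ.pass) ι G hinj).2 i c x hc)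
    refine ⟨?_, ?_⟩
    · rw [hs1]
      exact exists_congr hk
    · intro θ θ' e e'
      exact hs2 θ θ' ((hk θ).2 e) ((hk θ').2 e')

end Pool.Agent.HYB
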