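import Pool.Agent.HYB.Defs

/-!
# Module statements

Project HYB (MP_ad5e8e_lc, HybridMachine). Every statement is a `Prop`; the doc string contains the
proof. The library `Pool/Agent/CT` (imported, all proved, assembled in `Pool/Agent/CT/Final41.lean`)
provides `pr` and its rules (`CT/Basic.lean`: `pr_mono`, `pr_pi`, `pr_prod`, `pr_exists_eq`,
`pr_equiv`, `pr_not`, ...), `S_CONTENT`, `S_LINKT`, `S_LINKTRI`, `S_NODE`, `S_G0`, `S_G1`, `S_EDGE0`,
`S_EDGE1` (`CT/Stmts.lean`), counting lemmas (`CT/Count.lean`) and `det_iso` (`CT/Det.lean`).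
-/

namespace Pool.Agent.HYB

open Finset MeasureTheory
open Pool.Agent.CT (Tr NodeFun Node Alg rejectsAt SatT SatTri SatY Sat Hang Br HP BP labH labB nodeOf
  RealT RealY pr Al)

/-! ### Guesses -/

/-- PROOF. Existence: if all `f v = ⊥` take `none`; otherwise the maximum `w` of the `f v` and the
least `v` with `f v = w`. Uniqueness: if `e = some (w, y)`, `e' = some (w', y')` then
`w = f y ≤ w'` and conversely, so `w = w'`; if `y < y'` then `f y < w' = w = f y`. If `e = none` and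
`e' = some (w', y')` then `f y' = w' ≠ ⊥`. Supremum: all values are `≤ w` and `f y = w`. -/
def S_MAX : Prop :=
  ∀ (n b : ℕ) (f : Fin n → WithBot (Word b)),
    (∃ e, ∀ v, MaxOk e v (f v)) ∧
    (∀ e e', (∀ v, MaxOk e v (f v)) → (∀ v, MaxOk e' v (f v)) → e = e') ∧
    (∀ e, (∀ v, MaxOk e v (f v)) → univ.sup f = val e) ∧
    (∀ e, (∀ v, MaxOk e v (f v)) → (e = none ↔ univ.sup f = ⊥))

/-- PROOF. As `S_MAX`. -/
def S_FIRST : Prop :=
  ∀ (n : ℕ) (p : Fin n → Prop),
    (∃ y, ∀ v, FirstOk y v (p v)) ∧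
    (∀ y y', (∀ v, FirstOk y v (p v)) → (∀ v, FirstOk y' v (p v)) → y = y') ∧
    (∀ y, (∀ v, FirstOk y v (p v)) → (y = none ↔ ∀ v, ¬ p v))

/-- PROOF. (1) Induction on `s` (unfold `frun`, `state`, `mem`). (2) Induction on `s ≤ r`: if the two
runs agree up to `s < r`, then the checks `MaxOk (σ s a) v (M.write s (state M H G s v) a)` hold for
all `v`, so `val (σ s a) = mem M H G s a` by `S_MAX`, and the runs agree up to `s + 1`. -/
def S_FRUN : Prop :=
  ∀ (n B b : ℕ) (Q : Type) (M : Machine n B b Q) (H : Net n) (G : SimpleGraph (Fin n)) (r : ℕ),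
    (∀ m : ℕ → Word b → WithBot (Word b), (∀ s < r, ∀ a, m s a = mem M H G s a) →
      ∀ s ≤ r, ∀ u, frun M H m G s u = state M H G s u) ∧
    (∀ τ σ, AllOk M H τ σ G r →
      (∀ s ≤ r, ∀ u, frun M H (fun s a => val (σ s a)) G s u = state M H G s u) ∧
      (∀ s < r, ∀ a, (∀ v, MaxOk (σ s a) v (M.write s (state M H G s v) a))))

/-- PROOF. (1) From right to left: by `S_FRUN` (2) the fixed run is the real run up to `θ.pass`; for
`s < θ.pass` the vertex `θ.und s = some y` is undecided; `θ.cel s a ≠ none` iff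
`mem M H G s a ≠ ⊥` by the last part of `S_MAX`, so the bound of the number of cells is the one in
`Guess`. From left to right: take the halting pass `r`, for `s < r` the first undecided vertex
(`S_FIRST`, not `none`), for `s < r` and `a` the `e` of `S_MAX` for
`f v = M.write s (state M H G s v) a`; by `S_FRUN` (1) the fixed run is the real run up to `r`.
(2) Both runs are the real run; if `θ.pass < θ'.pass` then all vertices have decided after
`θ.pass` passes but some vertex is undecided (`FirstOk (some y)` at `v = y`); so the passes agree;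
now use the uniqueness parts of `S_MAX`, `S_FIRST` for all `s < r`. -/
def S_SIG : Prop :=
  ∀ (n B b t J : ℕ) (Q : Type) (M : Machine n B b Q) (H : Net n) (G : SimpleGraph (Fin n)),
    (Good M H G t J ↔ ∃ θ : Guess n b t J, AllOk M H θ.und θ.cel G θ.pass) ∧
    (∀ θ θ' : Guess n b t J, AllOk M H θ.und θ.cel G θ.pass →
      AllOk M H θ'.und θ'.cel G θ'.pass → θ = θ')

/-- PROOF. A `Guess` is: `r : Fin (t + 1)`, a function `Fin r → Fin n` (at most `n ^ t` since
`r ≤ t`, `0 < n`) and a function `Fin r × Word b → Option (Word b × Fin n)` with at most `J` values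
`≠ none`. Such a function is determined by its graph, a set of at most `J` elements of the type
`Fin r × Word b × (Word b × Fin n)` which has `r * 2 ^ b * (2 ^ b * n) ≤ t * 4 ^ b * n =: A`
elements; every set of at most `J` elements of a type `E` is the image of a function
`Fin J → Option E` (drop `none`), so there are at most `(A + 1) ^ J` of them. Use
`Fintype.card_sigma` or an injection into `Σ r, ...`, `Finset.sum_le_card_nsmul`. -/
def S_CNT : Prop :=
  ∀ n b t J : ℕ, 0 < n →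
    Fintype.card (Guess n b t J) ≤ (t + 1) * n ^ t * (t * 4 ^ b * n + 1) ^ J

/-! ### Influence in the network -/

/-- PROOF. Induction on `r`. `r = 0`: if `x = u` both sides are `M.start u (nbr G u)`; if `x ≠ u`
then `x ∉ Λ` (otherwise take `u' = x ∈ cone H 0 x`), so `nbr G x = ∅`. Step: the hypothesis for
`r + 1` implies the hypothesis for `r` (`cone H r u' ⊆ cone H (r + 1) u'`), and for every
`w ∈ H r x` the hypothesis for `r` and `w` (if `w ∈ cone H r u'` then `x ∈ cone H (r + 1) u'`). The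
messages received by `x = u` are the prescribed ones; a vertex `x ≠ u` is not in `Λ`
(`x ∈ cone H (r + 1) x`), so it has no neighbours and both sides are `false`. -/
def S_LOC : Prop :=
  ∀ (n B b : ℕ) (Q : Type) (M : Machine n B b Q) (H : Net n) (m : ℕ → Word b → WithBot (Word b))
    (G : SimpleGraph (Fin n)) (Λ : Finset (Fin n)) (h : ℕ → Fin n → Fin n → Msg B),
    (∀ u w, G.Adj u w → u ∈ Λ) →
    (∀ s w u, G.Adj w u → h s w u = M.send s (frun M H m G s w) u) →
    (∀ s w u, ¬ G.Adj w u → h s w u = fun _ => false) →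
    ∀ r u x, (∀ u' ∈ Λ, u' ≠ u → x ∉ cone H r u') →
      frun M H m G r x = solo M H m u (nbr G u) (fun s w => h s w u) r x

/-- PROOF. First `solo M H m u N h s x` depends only on `h s'`, `s' < s` (induction on `s`), and
cones increase with `r` (`cone H r u ⊆ cone H t u` for `r ≤ t`), `u ∈ cone H r u`. Write
`P = toAlg M H τ σ Λ t r`, `m s a = val (σ s a)`, `h s w u` = the message `M.send s (frun .. s w) u`
if `G.Adj w u` and `false` otherwise.
(A) For `r' ≤ t` and `s < r'`: `CT.tab P G r' s w u = h s w u`. Induction on `r'`; if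
`¬ G.Adj w u` both are `false` (`CT.det_tab_zero`); if `G.Adj w u` then `w ∈ Λ` and for `s = r'` the
message is `M.send s (solo M H m w (nbr G w) (tab ...) s w) u`, the history may be replaced by `h`
(only passes `< s` matter, induction hypothesis), and `S_LOC` applies to `u := w`, `x := w`:
`w ∉ cone H s u'` for `u' ∈ Λ`, `u' ≠ w`, because `w ∈ cone H t w`, `cone H s u' ⊆ cone H t u'` and
`Sep`.
(B) `u ∈ Λ`: the history in `rejectsAt P G r u` may be replaced by `h`; for `x ∈ cone H t u` and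
`s ≤ r` the vertex `x` is in no `cone H s u'`, `u' ∈ Λ`, `u' ≠ u`, so `S_LOC` gives
`solo ... s x = frun ... s x`; hence `u` rejects iff some `x ∈ cone H t u` fails `VOk` in the fixed
run (`VOk M τ σ r x st` depends only on `st s`, `s ≤ r`).
(C) `u ∉ Λ` in no cone: `nbr G u = ∅`, no messages, `S_LOC` with `x = u`.
(D) every `x` is in a cone of `Λ` or not; conclude. (`Pool.Agent.CT.nbr G u` and `nbr G u` are the
same by `rfl` or `Finset.ext`.) -/
def S_ALG : Prop :=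
  ∀ (n B b : ℕ) (Q : Type) (M : Machine n B b Q) (H : Net n) (τ : ℕ → Option (Fin n))
    (σ : ℕ → Word b → Option (Word b × Fin n)) (Λ : Finset (Fin n)) (t r : ℕ)
    (G : SimpleGraph (Fin n)), r ≤ t → Sep H t Λ → (∀ u w, G.Adj u w → u ∈ Λ) →
    (AllOk M H τ σ G r ↔ ∀ u, ¬ rejectsAt (toAlg M H τ σ Λ t r) G r u)

/-- PROOF. `(cone H r u).card ≤ (d + 1) ^ r` (each vertex is seen by at most `d`). For every `x`
the set of `u` with `x ∈ cone H r u` has at most `(d + 1) ^ r` elements (induction: `x ∈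
cone H (r+1) u` iff `x ∈ cone H r u` or `y ∈ cone H r u` for some `y ∈ H r x`, at most `d`
choices). So the set of `u'` whose cone meets the cone of `u` has at most `(d + 1) ^ (2 t)`
elements. Take `Λ` of maximal cardinality with `Sep H t Λ`; every vertex `u'` has a cone meeting the
cone of some `u ∈ Λ` (itself if `u' ∈ Λ`, since `u' ∈ cone H t u'`; otherwise add it), so
`n ≤ Λ.card * (d + 1) ^ (2 t)`. -/
def S_LAM : Prop :=
  ∀ (n d t : ℕ) (H : Net n), DegLE H d →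
    ∃ Λ : Finset (Fin n), Sep H t Λ ∧ n ≤ Λ.card * (d + 1) ^ (2 * t)

/-! ### Contents -/

/-- PROOF. Induction on `h` for branches (`Sat (ncomap f N) h c s y ↔ Sat N h (mapBr f c) s y`,
`labB (mapBr f c) x = f (labB c x)`), then unfold. -/
def S_MAP : Prop :=
  ∀ (L L' A : Type) (k h s : ℕ) (f : L → L') (N : Node L' A k),
    (∀ m, ∀ c : Hang L k h m, ∀ y, labH (mapH f c) y = f (labH c y)) ∧
    (∀ c, SatT (ncomap f N) h s c ↔ SatT N h s (mapH f c)) ∧
    (∀ x : Fin 3 → Hang L k h k, SatTri (ncomap f N) h s x ↔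
      SatTri N h s (fun i => mapH f (x i)))

/-- PROOF. `Q₀ = card (HP k h (k + 2)) ≤ (k + 3) ^ (h + 2)` and
`Q₁ = card (Fin 3 × HP k h k) ≤ 3 (k + 3) ^ (h + 2)` (see `CT.count_cardBP_le` and the proof of
`CT.cardP`), so `Q₀ ^ 2 / q, Q₁ ^ 2 / q ≤ 1 / 400`. By `CT.count_main` and the bijections
`CT.count_labH`, `CT.count_fam` (as in the proof of `CT.count`): for uniform contents
`c : Hang (Fin q) k h (k + 2)`, `pr (Injective (labH c) ∧ ∀ x, labH c x ≠ w) ≥ 1 - 1 / 400` for every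
`w`, and for uniform `x : Fin 3 → Hang (Fin q) k h k` the joint labels are injective with
probability `≥ 1 - 1 / 400`. `pr` on the subtypes is the conditional probability:
`pr (fun c : XT => p c.1) * pr (injective) = pr (fun c => injective ∧ p c)`. (1)
`pr_XT p ≤ pr p + 1/400` from `pr_XT p * (1 - 1/400) ≤ pr (inj ∧ p) ≤ pr p`. (2)
`pr p ≤ pr (inj ∧ p) + 1/400 ≤ pr_YT p + 1/400`. (3) `pr_XT (w used) * (1 - 1/400) ≤ 1/400`. -/
def S_CPR : Prop :=
  ∀ q k h : ℕ, 400 * (3 * (k + 3) ^ (h + 2)) ^ 2 ≤ q →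
    (∀ p : Hang (Fin q) k h (k + 2) → Prop, pr (fun c : XT q k h => p c.1) ≤ pr p + 1 / 400) ∧
    (∀ p : (Fin 3 → Hang (Fin q) k h k) → Prop, pr p ≤ pr (fun x : YT q k h => p x.1) + 1 / 400) ∧
    (∀ w : Fin q, pr (fun c : XT q k h => ∃ x, labH c.1 x = w) ≤ 1 / 100)

/-- PROOF. Uses `S_CPR` and `CT.S_CONTENT`, `CT.S_NODE` (proved: `CT.s_content` in `Final41.lean`,
`CT.nodeProps` in `NodeP.lean`).
Case 1: all vertices `f w` satisfy `Iso`. Then `EvX` is `SatT` and `EvY` is `SatTri`; with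
`a' = pr SatT`, `b' = pr SatTri` over all contents, `a ≤ a' + 1/400` and `b' ≤ b + 1/400`;
`CT.S_CONTENT` for `ncomap f (nodeOf P k)` (`Start`, `Equivar`, `RangeLE` are inherited from
`S_NODE`), `K = 2 ^ B`, `s = r + 1 ≤ h + 1` gives `b' ≥ 1 - 1/25 - 12 (1 - a')`
(`192 s ^ 3 log K / (k+1) ≤ 1/25` by `r ≤ h`), so `b ≥ 1 - 1/25 - 13/400 - 12 (1 - a)`.
Case 2: `¬ Iso P (f w)` for some `w`. Then `EvX` implies that `w` is a label, so `a ≤ 1 / 100` and
the left side is negative. -/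
def S_POOL : Prop :=
  ∀ (n B q k h r : ℕ) (P : Alg n B) (f : Fin q → Fin n), r ≤ h →
    192 * (h + 1 : ℝ) ^ 3 * Real.log (2 ^ B) / (k + 1) ≤ 1 / 25 →
    400 * (3 * (k + 3) ^ (h + 2)) ^ 2 ≤ q →
    1 - 2 / 25 - 12 * (1 - pr (fun c : XT q k h => EvX P f r c)) ≤
      pr (fun x : YT q k h => EvY P f r x)

/-- PROOF. First family: `CT.S_G0` for `M = N` and `c' m = mapH (ι m) (c m).1`; the labels
`lab0 c' (m, x) = ι m (labH (c m).1 x)` (`S_MAP`) are different because `ι` is injective in both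
variables and the labels of `c m` are; `CT.S_EDGE0` for the number of edges. Second family: `N` is
not `0`; for `N = N' + 1` apply `CT.S_G1` with `M = N'` and the trees
`mapH (ι (i.succAbove m)) (c (i.succAbove m)).1` and `x' j = mapH (ι i) (x.1 j)`; `m ≠ i` iff
`m = i.succAbove m'` for some `m'` (`Fin.exists_succAbove_eq`); `CT.S_EDGE1`. -/
def S_FAM : Prop :=
  ∀ (n q k h N : ℕ) (ι : Fin N → Fin q → Fin n),
    Function.Injective (fun z : Fin N × Fin q => ι z.1 z.2) →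
    (∀ c : Fin N → XT q k h, ∃ G, Fam0 ι c G) ∧
    (∀ (i : Fin N) (c : Fin N → XT q k h) (x : YT q k h), ∃ G, Fam1 ι i c x G)

/-- PROOF. By `CT.S_LINKT` (with its `h := h`, `t := r`), `CT.S_LINKTRI` and `S_MAP`: the tree
`mapH (ι m) (c m).1` satisfies `SatT (nodeOf P k) h (r + 1)`, equivalently `c m` satisfies `SatT` for
`ncomap (ι m) (nodeOf P k)`, iff no vertex of the tree rejects; the same for the triangle component.
A vertex `v` which is no label is isolated, so it rejects iff `¬ Iso P v` (`CT.det_iso`). Every vertex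
is a label, or `ι m w` with `w` not a label of the pool `m` (then it is no label at all because `ι`
is injective in both variables), or outside all pools. -/
def S_PRD : Prop :=
  ∀ (n B q k h r N : ℕ) (P : Alg n B) (ι : Fin N → Fin q → Fin n) (G : SimpleGraph (Fin n)),
    Function.Injective (fun z : Fin N × Fin q => ι z.1 z.2) →
    (∀ c : Fin N → XT q k h, Fam0 ι c G →
      ((∀ v, ¬ rejectsAt P G r v) ↔ Out P ι ∧ ∀ m, EvX P (ι m) r (c m))) ∧
    (∀ (i : Fin N) (c : Fin N → XT q k h) (x : YT q k h), Fam1 ι i c x G →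
      ((∀ v, ¬ rejectsAt P G r v) ↔
        Out P ι ∧ (∀ m, m ≠ i → EvX P (ι m) r (c m)) ∧ EvY P (ι i) r x))

/-! ### The deterministic core -/

/-- PROOF. Put `p = ∏ i, a θ i`. For every `i`:
`u θ * (∏ m ∈ erase i, a θ m) * b θ i ≥ u θ * p * (1 - e - 12 (1 - a θ i))` (if the bracket is
`≥ 0` use `∏ m ∈ erase i ≥ p` and `b ≥` bracket; otherwise the left side is `≥ 0`). Sum over `i`,
divide by `N`: `≥ u p (1 - e) - (12 / N) u p Σ_i (1 - a θ i)`. If `p > 0` then
`Σ_i (1 - a θ i) ≤ Σ_i - log (a θ i) = - log p` and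
`p (- log p) = p log |Θ| + p log (1 / (p |Θ|)) ≤ p log |Θ| + 1 / |Θ|` (`log x ≤ x - 1`); if `p = 0`
the term is `0`. Sum over `θ`, with `Σ u p ≤ 1` and `log |Θ| ≥ 0`. (`|Θ| = 0` is trivial.) -/
def S_PIN : Prop :=
  ∀ (Θ : Type) [Fintype Θ] (N : ℕ) (u : Θ → ℝ) (a b : Θ → Fin N → ℝ) (e : ℝ), 0 < N → 0 ≤ e →
    (∀ θ, u θ = 0 ∨ u θ = 1) → (∀ θ i, 0 ≤ a θ i) → (∀ θ i, a θ i ≤ 1) → (∀ θ i, 0 ≤ b θ i) →
    (∀ θ i, 1 - e - 12 * (1 - a θ i) ≤ b θ i) → ∑ θ, u θ * ∏ i, a θ i ≤ 1 →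
    ∑ θ, u θ * ∏ i, a θ i - e - 12 / N * (Real.log (Fintype.card Θ) + 1) ≤
      ∑ θ, (∑ i, u θ * (∏ m ∈ univ.erase i, a θ m) * b θ i) / N

/-- PROOF. For a graph `G` of one of the families, adjacent vertices are labels, so they are in `Λ`;
hence by `S_SIG` and `S_ALG` (`θ.pass ≤ t`), `Good M H G t J ↔ ∃ θ, ∀ v, ¬ rejectsAt (P θ) G θ.pass v`
with `P θ = toAlg M H θ.und θ.cel Λ t θ.pass`, and this `θ` is unique. By `S_PRD` the event for `θ`
is a product event. -/
def S_EVT : Prop :=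
  ∀ (n B b : ℕ) (Q : Type) (M : Machine n B b Q) (H : Net n) (t J k q h N : ℕ)
    (Λ : Finset (Fin n)) (ι : Fin N → Fin q → Fin n) (G : SimpleGraph (Fin n)),
    Sep H t Λ → (∀ i w, ι i w ∈ Λ) → Function.Injective (fun z : Fin N × Fin q => ι z.1 z.2) →
    (∀ c : Fin N → XT q k h, Fam0 ι c G →
      (Good M H G t J ↔ ∃ θ : Guess n b t J, Out (toAlg M H θ.und θ.cel Λ t θ.pass) ι ∧
        ∀ m, EvX (toAlg M H θ.und θ.cel Λ t θ.pass) (ι m) θ.pass (c m)) ∧
      (∀ θ θ' : Guess n b t J,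
        (Out (toAlg M H θ.und θ.cel Λ t θ.pass) ι ∧
          ∀ m, EvX (toAlg M H θ.und θ.cel Λ t θ.pass) (ι m) θ.pass (c m)) →
        (Out (toAlg M H θ'.und θ'.cel Λ t θ'.pass) ι ∧
          ∀ m, EvX (toAlg M H θ'.und θ'.cel Λ t θ'.pass) (ι m) θ'.pass (c m)) → θ = θ')) ∧
    (∀ (i : Fin N) (c : Fin N → XT q k h) (x : YT q k h), Fam1 ι i c x G →
      (Good M H G t J ↔ ∃ θ : Guess n b t J, Out (toAlg M H θ.und θ.cel Λ t θ.pass) ι ∧
        (∀ m, m ≠ i → EvX (toAlg M H θ.und θ.cel Λ t θ.pass) (ι m) θ.pass (c m)) ∧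
        EvY (toAlg M H θ.und θ.cel Λ t θ.pass) (ι i) θ.pass x) ∧
      (∀ θ θ' : Guess n b t J,
        (Out (toAlg M H θ.und θ.cel Λ t θ.pass) ι ∧
          (∀ m, m ≠ i → EvX (toAlg M H θ.und θ.cel Λ t θ.pass) (ι m) θ.pass (c m)) ∧
          EvY (toAlg M H θ.und θ.cel Λ t θ.pass) (ι i) θ.pass x) →
        (Out (toAlg M H θ'.und θ'.cel Λ t θ'.pass) ι ∧
          (∀ m, m ≠ i → EvX (toAlg M H θ'.und θ'.cel Λ t θ'.pass) (ι m) θ'.pass (c m)) ∧
          EvY (toAlg M H θ'.und θ'.cel Λ t θ'.pass) (ι i) θ'.pass x) → θ = θ'))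

open Classical in
/-- The abstract product formula. PROOF. First part: `CT.pr_exists_eq` (unique `θ`), then `pr` of
`u θ ∧ ∀ i, A θ i (c i)` is `[u θ] * ∏ i, pr (A θ i)` (`CT.pr_pi`; `CT.pr_false` if `¬ u θ`). Second
part: the space is `Fin N × ((Fin N → X) × Y)`; `CT.pr_exists_eq`, then `pr` over the first
coordinate is the average of the `pr` of the fibres (`CT.pr_eq_sum`, `Fintype.sum_prod_type`); for
fixed `i` use `CT.pr_prod` and `CT.pr_pi` with the predicates `m ≠ i → A θ m c` (factor `1` for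
`m = i`, `Finset.mul_prod_erase` or `Finset.prod_erase`). -/
def S_FORM : Prop :=
  ∀ (Θ X Y : Type) [Fintype Θ] [Fintype X] [Fintype Y] [Nonempty X] [Nonempty Y] (N : ℕ)
    (u : Θ → Prop) (A : Θ → Fin N → X → Prop) (E : Θ → Fin N → Y → Prop), 0 < N →
    ((∀ (c : Fin N → X) (θ θ' : Θ), (u θ ∧ ∀ i, A θ i (c i)) → (u θ' ∧ ∀ i, A θ' i (c i)) →
        θ = θ') →
      pr (fun c : Fin N → X => ∃ θ, u θ ∧ ∀ i, A θ i (c i)) =
        ∑ θ, (if u θ then (1 : ℝ) else 0) * ∏ i, pr (fun c : X => A θ i c)) ∧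
    ((∀ (z : Fin N × ((Fin N → X) × Y)) (θ θ' : Θ),
        (u θ ∧ (∀ m, m ≠ z.1 → A θ m (z.2.1 m)) ∧ E θ z.1 z.2.2) →
        (u θ' ∧ (∀ m, m ≠ z.1 → A θ' m (z.2.1 m)) ∧ E θ' z.1 z.2.2) → θ = θ') →
      pr (fun z : Fin N × ((Fin N → X) × Y) =>
          ∃ θ, u θ ∧ (∀ m, m ≠ z.1 → A θ m (z.2.1 m)) ∧ E θ z.1 z.2.2) =
        ∑ θ, (∑ i, (if u θ then (1 : ℝ) else 0) *
          (∏ m ∈ univ.erase i, pr (fun c : X => A θ m c)) * pr (fun x : Y => E θ i x)) / N)

/-- PROOF. `S_EVT` (with `h = t`) rewrites `Good` for `g0 c` and `g1 z`; then `S_FORM` with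
`u θ = Out (P θ) ι`, `A θ m c = EvX (P θ) (ι m) θ.pass c`, `E θ i x = EvY (P θ) (ι i) θ.pass x`,
`S_POOL` (with `h = t`, `r = θ.pass ≤ t`) and `S_PIN` with `e = 2 / 25` (its hypothesis `≤ 1` is
`CT.pr_le_one`). `XT`, `YT` are nonempty by `S_NEXY`. -/
def S_CORE : Prop :=
  ∀ (n B b : ℕ) (Q : Type) (M : Machine n B b Q) (H : Net n) (t J k q N : ℕ)
    (Λ : Finset (Fin n)) (ι : Fin N → Fin q → Fin n), Sep H t Λ → (∀ i w, ι i w ∈ Λ) →
    Function.Injective (fun z : Fin N × Fin q => ι z.1 z.2) → 0 < N →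
    192 * (t + 1 : ℝ) ^ 3 * Real.log (2 ^ B) / (k + 1) ≤ 1 / 25 →
    400 * (3 * (k + 3) ^ (t + 2)) ^ 2 ≤ q →
    ∀ (g0 : (Fin N → XT q k t) → SimpleGraph (Fin n))
      (g1 : Fin N × ((Fin N → XT q k t) × YT q k t) → SimpleGraph (Fin n)),
      (∀ c, Fam0 ι c (g0 c)) → (∀ z, Fam1 ι z.1 z.2.1 z.2.2 (g1 z)) →
      pr (fun c => Good M H (g0 c) t J) - 2 / 25 -
          12 / N * (Real.log (Fintype.card (Guess n b t J)) + 1) ≤
        pr (fun z => Good M H (g1 z) t J)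

/-- PROOF. There are enough names: `card (HP k h (k + 2)) ≤ (k + 3) ^ (h + 2) ≤ q` (see
`CT.count_cardBP_le`, `CT.cardP`), so there is an injective `HP k h (k + 2) → Fin q`; by
`CT.count_labH` it is `labH c` for some `c`. The same for `Fin 3 × HP k h k` (`CT.count_fam`). -/
def S_NEXY : Prop :=
  ∀ q k h : ℕ, 3 * (k + 3) ^ (h + 2) ≤ q → Nonempty (XT q k h) ∧ Nonempty (YT q k h)

/-! ### The random machine -/

/-- PROOF. By `S_LAM` there is `Λ` with `Sep H t Λ` and `n ≤ Λ.card * (d + 1) ^ (2 t)`, so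
`N * q ≤ Λ.card` and there is `ι : Fin N → Fin q → Fin n` with values in `Λ`, injective in both
variables. `S_FAM` gives `g0`, `g1` (choice). `S_CORE` holds for every `M ω`; integrate over `ω`
(as in `CT/Rand.lean`: `CT.rand_avg` for the events `Good` of `g1` with `a = 1 / 3`, and for the
events `¬ Good` of `g0` with `a = 2 / 5`, `pr (Good) = 1 - pr (¬ Good)`):
`3 / 5 - 2 / 25 - (12 / N) (log |Θ| + 1) ≤ 1 / 3`, so `N ≤ 12 (log |Θ| + 1) / (14 / 75)`. -/
def S_RND : Prop :=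
  ∀ (n B b d : ℕ) (Q Ω : Type) [MeasurableSpace Ω] (μ : Measure Ω) [IsProbabilityMeasure μ]
    (M : Ω → Machine n B b Q) (H : Net n) (t J k q N : ℕ), DegLE H d → ErrGood μ M H t J →
    0 < N → 192 * (t + 1 : ℝ) ^ 3 * Real.log (2 ^ B) / (k + 1) ≤ 1 / 25 →
    400 * (3 * (k + 3) ^ (t + 2)) ^ 2 ≤ q → N * q * (d + 1) ^ (2 * t) ≤ n →
    (N : ℝ) < 100 * (Real.log (Fintype.card (Guess n b t J)) + 1)

/-- PROOF. `Running`, `Correct`, `Good` are obtained from the events `decision = x`, `mem = x` by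
finite and countable operations. For the number of pairs `(s, a)` with `mem ≠ ⊥` in `Good`: for every
finite set `F` of pairs the event that the set of these pairs is `F` is a finite intersection of
measurable sets; the event `card ≤ J` is the finite union over `F` with `F.card ≤ J`. -/
def S_MSB : Prop :=
  ∀ (n B b : ℕ) (Q Ω : Type) [MeasurableSpace Ω] (M : Ω → Machine n B b Q) (H : Net n)
    (G : SimpleGraph (Fin n)), (∀ r u x, MeasurableSet {ω | decision (M ω) H G r u = x}) →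
    (∀ r a x, MeasurableSet {ω | mem (M ω) H G r a = x}) →
    (∀ r, MeasurableSet {ω | Running (M ω) H G r}) ∧ MeasurableSet {ω | Correct (M ω) H G} ∧
    (∀ r a, MeasurableSet {ω | Running (M ω) H G r ∧ mem (M ω) H G r a ≠ ⊥}) ∧
    (∀ t J, MeasurableSet {ω | Good (M ω) H G t J})

/-- PROOF. All sets are measurable (`S_MSB`). If `G` is
triangle-free and `¬ Good`, then `¬ Correct`, or `Running t`, or the number of pairs `(s, a)`,
`s < t`, with `Running s` and `mem s a ≠ ⊥` is at least `J' + 1`: indeed if `Correct` with halting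
pass `r` and `¬ Running t` then `r ≤ t`, all decisions at `r` are `some false`, and for `s < r` the
machine is running. `μ (¬ Correct) ≤ 1 / 3`; `(t + 1) μ (Running t) ≤ Σ_{r ≤ t} μ (Running r) ≤ R`
gives `μ (Running t) ≤ 1 / 30`; Markov: `(J' + 1) μ (number ≥ J' + 1) ≤ J`, so `≤ 1 / 30`. If `G`
has a triangle, `Good` implies `¬ Correct` (the first halting pass is unique). -/
def S_GDM : Prop :=
  ∀ (n B b : ℕ) (Q Ω : Type) [MeasurableSpace Ω] (μ : Measure Ω) [IsProbabilityMeasure μ]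
    (M : Ω → Machine n B b Q) (H : Net n) (t J' : ℕ) (R J : ℝ), DetectsTriangles μ M H →
    (∀ G : SimpleGraph (Fin n), G.edgeSet.ncard ≤ n →
      ∀ m, ∑ r ∈ range m, (μ {ω | Running (M ω) H G r}).toReal ≤ R) →
    ExpectedChangesLE μ M H J → 30 * R ≤ t + 1 → 30 * J < J' + 1 → ErrGood μ M H t J'

/-- PROOF. Suppose `R < 1 / 30`. Then `μ (Running 0) < 1 / 30` for every graph with at most `n` edges.
Define `P ω : CT.Alg n 0` by `rejects u N h := (decide 0 (start u N) = some true)`. If the machine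
has halted at pass `0` and is correct then `P ω` is correct (`CT.Rejects (P ω) 0 G` iff some decision
at pass `0` is `some true`; `CT.nbr` is `nbr`). So `CT.ErrLE μ P 0` (error `≤ 1/3 + 1/30 = 11/30`), and
`CT.S_RAND` (proved: `CT.s_rand` in `CT/Final41.lean`) with `B = 0`, `t = 0`, `k = 0` gives
`n < 100 (113 * 3 ^ 2) ^ 2`. See `CT.machine_pass` in `CT/Wrap.lean`. -/
def S_ZERO : Prop :=
  ∃ n₀ : ℕ, ∀ (n B b : ℕ) (Q Ω : Type) [MeasurableSpace Ω] (μ : Measure Ω)
    [IsProbabilityMeasure μ] (M : Ω → Machine n B b Q) (H : Net n) (R : ℝ), n₀ ≤ n →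
    DetectsTriangles μ M H →
    (∀ G : SimpleGraph (Fin n), G.edgeSet.ncard ≤ n →
      ∀ m, ∑ r ∈ range m, (μ {ω | Running (M ω) H G r}).toReal ≤ R) → 1 / 30 ≤ R

/-- PROOF. Let `L = log s` be large, `Z = 1 + J (b + L)`, `Y = log (B + d + L) ≥ log L ≥ 1`. If
`R ≥ L` then `log (s / Z) ≤ L ≤ R ≤ R Y`. Otherwise `t ≤ 30 R < 30 L`, so
`log (t + 1) + t log n ≤ 60 L ^ 2`, `log (t 4^b n + 1) ≤ 3 (b + L)`,
`J' log (t 4^b n + 1) ≤ 90 J (b + L) ≤ 90 Z`, and the first bracket is `≤ 200 L ^ 2 Z`. Take logs of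
the hypothesis with `n ≥ s / 2`: `L - log Z ≤ 20 + 2 log L + 2 (t + 2) log (K + 3) +
2 t log (d + 1)`, where `K = 4800 (t+1)^3 (B+1)`, `log (K + 3) ≤ 9 + 3 log (t+1) + log (B+1) ≤ 25 Y`
(`log (t+1) ≤ log (31 L) ≤ 4 + Y`, `log (B+1) ≤ Y`), `log (d+1) ≤ Y`. So the right side is
`≤ (122 + 52 t) Y ≤ (122 + 1560 R) Y ≤ 6000 R Y` since `30 R ≥ 1`. Take `c = 1 / 6000`. -/
def S_NUM : Prop :=
  ∃ c : ℝ, 0 < c ∧ ∃ s₀ : ℕ, ∀ (n s B b d t J' : ℕ) (R J : ℝ), s₀ ≤ s → n ≤ s → s ≤ 2 * n →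
    1 / 30 ≤ R → 0 ≤ J → (t : ℝ) ≤ 30 * R → (J' : ℝ) ≤ 30 * J →
    (n : ℝ) ≤ 200 * (Real.log (t + 1) + t * Real.log n + J' * Real.log (t * 4 ^ b * n + 1) + 1) *
      (400 * (3 * (4800 * (t + 1 : ℝ) ^ 3 * (B + 1) + 3) ^ (t + 2)) ^ 2) *
      (d + 1 : ℝ) ^ (2 * t) →
    c * Real.log (s / (1 + J * (b + Real.log s))) ≤ R * Real.log (B + d + Real.log s)

/-- The theorem. PROOF. `R = T / n`; `S_ZERO`: `R ≥ 1 / 30`; `t = ⌊30 R⌋₊`, `J' = ⌊30 J⌋₊`, `S_GDM`,
`k = 4800 (t + 1)^3 (B + 1)`, `q = 400 (3 (k + 3)^(t+2))^2`, `N = n / (q (d+1)^(2t))`, `S_RND`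
(if `N > 0`), `S_CNT`, `S_NUM`. -/
def S_MAIN : Prop :=
  ∃ c : ℝ, 0 < c ∧ ∃ s₀ : ℕ, ∀ (n s B b d : ℕ), s₀ ≤ s → n ≤ s → s ≤ 2 * n →
    ∀ (Q Ω : Type) [MeasurableSpace Ω] (μ : Measure Ω) [IsProbabilityMeasure μ]
      (M : Ω → Machine n B b Q) (H : Net n) (T J : ℝ), DegLE H d → DetectsTriangles μ M H →
      ExpectedTimeLE μ M H T → ExpectedChangesLE μ M H J →
        c * (s * Real.log (s / (1 + J * (b + Real.log s))) / Real.log (B + d + Real.log s)) ≤ T

end Pool.Agent.HYB
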