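import Mathlib
import Pool.Agent.HYB.St

/-!
# Existence of the graphs of the two families (module FAM)
-/

namespace Pool.Agent.HYB

open Finset MeasureTheory
open Pool.Agent.CT (Tr NodeFun Node Alg rejectsAt SatT SatTri SatY Sat Hang Br HP BP labH labB nodeOf
  RealT RealY pr Al)

/-- The labels of a renamed node with hanging branches. -/
theorem FAM_labH (hM : S_MAP) {L L' : Type} {k h m : ℕ} (f : L → L') (c : Hang L k h m)
    (y : HP k h m) : labH (mapH f c) y = f (labH c y) := by
  -- an arbitrary node behaviour with values in `Unit`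
  exact (hM L L' Unit k h 0 f ⟨fun _ => default, fun _ => default, fun _ => default,
    fun _ => default⟩).1 m c y

theorem FAM_fst (hM : S_MAP) {n q k h N : ℕ} (ι : Fin N → Fin q → Fin n)
    (hι : Function.Injective (fun z : Fin N × Fin q => ι z.1 z.2))
    (c : Fin N → XT q k h) :
    Function.Injective (Pool.Agent.CT.lab0 (fun m => mapH (ι m) (c m).1)) := by
  rintro ⟨m, x⟩ ⟨m', x'⟩ e
  have e' : ι m (labH (c m).1 x) = ι m' (labH (c m').1 x') := by
    have := e
    simp only [Pool.Agent.CT.lab0] at this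
    rwa [FAM_labH hM, FAM_labH hM] at this
  have e2 := @hι (m, labH (c m).1 x) (m', labH (c m').1 x') e'
  have hm : m = m' := congrArg Prod.fst e2
  subst hm
  have hl : labH (c m).1 x = labH (c m).1 x' := congrArg Prod.snd e2
  have hx := (c m).2 hl
  rw [hx]

theorem FAM_snd (hM : S_MAP) {n q k h N : ℕ} (ι : Fin (N + 1) → Fin q → Fin n)
    (hι : Function.Injective (fun z : Fin (N + 1) × Fin q => ι z.1 z.2))
    (i : Fin (N + 1)) (c : Fin (N + 1) → XT q k h) (x : YT q k h) :
    Function.Injective (Pool.Agent.CT.lab1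
      (fun m : Fin N => mapH (ι (i.succAbove m)) (c (i.succAbove m)).1)
      (fun j => mapH (ι i) (x.1 j))) := by
  have key : ∀ (a : Fin (N + 1)) (l : Fin q) (b : Fin (N + 1)) (l' : Fin q),
      ι a l = ι b l' → a = b ∧ l = l' := by
    intro a l b l' e
    have e2 := @hι (a, l) (b, l') e
    exact ⟨congrArg Prod.fst e2, congrArg Prod.snd e2⟩
  rintro (⟨m, y⟩ | ⟨j, y⟩) (⟨m', y'⟩ | ⟨j', y'⟩) e <;>
    simp only [Pool.Agent.CT.lab1, FAM_labH hM] at e
  · obtain ⟨h1, h2⟩ := key _ _ _ _ e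
    have hm : m = m' := Fin.succAbove_right_injective h1
    subst hm
    have hy := (c (i.succAbove m)).2 h2
    rw [hy]
  · obtain ⟨h1, _⟩ := key _ _ _ _ e
    exact absurd h1 (Fin.succAbove_ne i m)
  · obtain ⟨h1, _⟩ := key _ _ _ _ e
    exact absurd h1.symm (Fin.succAbove_ne i m')
  · obtain ⟨_, h2⟩ := key _ _ _ _ e
    have h3 := x.2 (show (fun z : Fin 3 × HP k h k => labH (x.1 z.1) z.2) (j, y) =
      (fun z : Fin 3 × HP k h k => labH (x.1 z.1) z.2) (j', y') from h2)
    have hj : j = j' := congrArg Prod.fst h3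
    have hy : y = y' := congrArg Prod.snd h3
    rw [hj, hy]

/-- Existence of the graphs. -/
theorem c_FAM (h1 : S_MAP) (h2 : Pool.Agent.CT.S_G0) (h3 : Pool.Agent.CT.S_G1)
    (h4 : Pool.Agent.CT.S_EDGE0) (h5 : Pool.Agent.CT.S_EDGE1) : S_FAM := by
  intro n q k h N ι hι
  refine ⟨fun c => ?_, fun i c x => ?_⟩
  · have hinj := FAM_fst h1 ι hι c
    obtain ⟨G, hG1, hG2, hG3⟩ := h2 n k h N _ hinj
    refine ⟨G, hG1, h4 n k h N _ G hinj hG2 hG3, hG2, ?_⟩
    intro v hv
    refine hG3 v ?_
    rintro ⟨m, y⟩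
    have := hv m y
    simp only [Pool.Agent.CT.lab0]
    rwa [FAM_labH h1]
  · cases N with
    | zero => exact i.elim0
    | succ N =>
      have hinj := FAM_snd h1 ι hι i c x
      obtain ⟨G, hG1, hG2, hG3, hG4⟩ := h3 n k h N _ _ hinj
      refine ⟨G, hG1, h5 n k h N _ _ G hinj hG2 hG3 hG4, ?_, hG3, ?_⟩
      · intro m hm
        obtain ⟨m', rfl⟩ := Fin.exists_succAbove_eq hm
        exact hG2 m'
      · intro v hv1 hv2
        refine hG4 v ?_
        rintro (⟨m, y⟩ | z)
        · simp only [Pool.Agent.CT.lab1, FAM_labH h1]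
          exact hv1 _ (Fin.succAbove_ne i m) y
        · simp only [Pool.Agent.CT.lab1, FAM_labH h1]
          exact hv2 z

end Pool.Agent.HYB
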