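import Pool.Agent.HYB.St
import Pool.Agent.CT.Basic

/-!
# The abstract product formula
-/

namespace Pool.Agent.HYB

open Finset
open Pool.Agent.CT (pr pr_exists_eq pr_pi pr_prod pr_fst pr_congr pr_false pr_true pr_nonneg)

open Classical in
lemma FRM_and {Ω : Type} [Fintype Ω] [Nonempty Ω] (u : Prop) (p : Ω → Prop) :
    pr (fun ω => u ∧ p ω) = (if u then (1 : ℝ) else 0) * pr p := by
  by_cases h : u
  · rw [if_pos h, one_mul]
    exact pr_congr fun ω => ⟨fun h' => h'.2, fun h' => ⟨h, h'⟩⟩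
  · rw [if_neg h, zero_mul, ← pr_false (Ω := Ω)]
    exact pr_congr fun ω => ⟨fun h' => h h'.1, fun h' => h'.elim⟩

lemma FRM_erase {X : Type} [Fintype X] [Nonempty X] {N : ℕ} (A : Fin N → X → Prop) (i : Fin N) :
    pr (fun c : Fin N → X => ∀ m, m ≠ i → A m (c m)) = ∏ m ∈ univ.erase i, pr (A m) := by
  have h := pr_pi (J := Fin N) (fun m (x : X) => m ≠ i → A m x)
  rw [h, ← Finset.mul_prod_erase univ _ (Finset.mem_univ i)]
  have h1 : pr (fun x : X => i ≠ i → A i x) = 1 := by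
    rw [← pr_true (Ω := X)]
    exact pr_congr fun x => ⟨fun _ => trivial, fun _ hh => absurd rfl hh⟩
  rw [h1, one_mul]
  refine Finset.prod_congr rfl fun m hm => ?_
  have hm' : m ≠ i := Finset.ne_of_mem_erase hm
  exact pr_congr fun x => ⟨fun hh => hh hm', fun hh _ => hh⟩

theorem c_FORM : S_FORM := by
  intro Θ X Y _ _ _ _ _ N u A E hN
  constructor
  · intro h
    rw [pr_exists_eq (fun (θ : Θ) (c : Fin N → X) => u θ ∧ ∀ i, A θ i (c i))
      (fun c θ θ' h1 h2 => h c θ θ' h1 h2)]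
    refine Finset.sum_congr rfl fun θ _ => ?_
    rw [FRM_and (u θ) (fun c : Fin N → X => ∀ i, A θ i (c i)), pr_pi (fun i => A θ i)]
  · intro h
    rw [pr_exists_eq (fun (θ : Θ) (z : Fin N × ((Fin N → X) × Y)) =>
      u θ ∧ (∀ m, m ≠ z.1 → A θ m (z.2.1 m)) ∧ E θ z.1 z.2.2)
      (fun z θ θ' h1 h2 => h z θ θ' h1 h2)]
    refine Finset.sum_congr rfl fun θ _ => ?_
    rw [pr_fst (fun (i : Fin N) (w : (Fin N → X) × Y) =>
      u θ ∧ (∀ m, m ≠ i → A θ m (w.1 m)) ∧ E θ i w.2), Fintype.card_fin]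
    congr 1
    refine Finset.sum_congr rfl fun i _ => ?_
    rw [FRM_and (u θ) (fun w : (Fin N → X) × Y => (∀ m, m ≠ i → A θ m (w.1 m)) ∧ E θ i w.2),
      pr_prod (fun c : Fin N → X => ∀ m, m ≠ i → A θ m (c m)) (fun x : Y => E θ i x),
      FRM_erase (fun m => A θ m) i, mul_assoc]

end Pool.Agent.HYB
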