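import Mathlib
import Pool.Agent.HYB.St

/-!
# Module HYB_FRN: the run with the prescribed memory contents (helper28)
-/

namespace Pool.Agent.HYB

open Finset MeasureTheory
open Pool.Agent.CT (Tr NodeFun Node Alg rejectsAt SatT SatTri SatY Sat Hang Br HP BP labH labB nodeOf
  RealT RealY pr Al)

/-- The prescribed run is the real run as long as the prescribed contents are the real ones. -/
theorem FRN_one {n B b : ℕ} {Q : Type} (M : Machine n B b Q) (H : Net n)
    (G : SimpleGraph (Fin n)) (r : ℕ) (m : ℕ → Word b → WithBot (Word b))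
    (hm : ∀ s < r, ∀ a, m s a = mem M H G s a) :
    ∀ s ≤ r, ∀ u, frun M H m G s u = state M H G s u := by
  intro s
  induction s with
  | zero =>
    intro _ u
    rfl
  | succ s ih =>
    intro hs u
    have ih' : ∀ u, frun M H m G s u = state M H G s u := ih (by omega)
    have hfun : frun M H m G s = state M H G s := funext ih'
    have hms : m s = fun a => univ.sup fun w => M.write s (state M H G s w) a := by
      funext a
      exact hm s (by omega) a
    simp only [frun, state]
    rw [hfun, hms]

/-- If all checks are passed then the prescribed run is the real run. -/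
theorem FRN_two {n B b : ℕ} {Q : Type} (h : S_MAX) (M : Machine n B b Q) (H : Net n)
    (G : SimpleGraph (Fin n)) (r : ℕ) (τ : ℕ → Option (Fin n))
    (σ : ℕ → Word b → Option (Word b × Fin n)) (hok : AllOk M H τ σ G r) :
    ∀ k ≤ r, (∀ s < k, ∀ a, val (σ s a) = mem M H G s a) ∧
      ∀ s ≤ k, ∀ u, frun M H (fun s a => val (σ s a)) G s u = state M H G s u := by
  intro k
  induction k with
  | zero =>
    intro _
    have h0 : ∀ s < 0, ∀ a, val (σ s a) = mem M H G s a := fun s hs => absurd hs (by omega)
    exact ⟨h0, FRN_one M H G 0 (fun s a => val (σ s a)) h0⟩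
  | succ k ih =>
    intro hk
    obtain ⟨ih1, ih2⟩ := ih (by omega)
    have h1 : ∀ s < k + 1, ∀ a, val (σ s a) = mem M H G s a := by
      intro s hs a
      rcases Nat.lt_succ_iff_lt_or_eq.mp hs with hlt | heq
      · exact ih1 s hlt a
      · subst heq
        have hchk : ∀ v, MaxOk (σ s a) v (M.write s (state M H G s v) a) := by
          intro v
          have hv : MaxOk (σ s a) v
              (M.write s (frun M H (fun s a => val (σ s a)) G s v) a) :=
            (hok v).2.1 s (by omega) a
          rw [ih2 s le_rfl v] at hv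
          exact hv
        exact ((h n b (fun v => M.write s (state M H G s v) a)).2.2.1 (σ s a) hchk).symm
    exact ⟨h1, FRN_one M H G (k + 1) (fun s a => val (σ s a)) h1⟩

theorem c_FRUN (h : S_MAX) : S_FRUN := by
  intro n B b Q M H G r
  refine ⟨fun m hm => FRN_one M H G r m hm, ?_⟩
  intro τ σ hok
  obtain ⟨_, h2⟩ := FRN_two h M H G r τ σ hok r le_rfl
  refine ⟨h2, ?_⟩
  intro s hs a v
  have hv : MaxOk (σ s a) v (M.write s (frun M H (fun s a => val (σ s a)) G s v) a) :=
    (hok v).2.1 s hs a
  rw [h2 s hs.le v] at hv
  exact hv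

end Pool.Agent.HYB
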