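import Pool.Agent.HYB.St

/-!
# First index with a property
-/

namespace Pool.Agent.HYB

theorem c_FIRST : S_FIRST := by
  intro n p
  classical
  refine ⟨?_, ?_, ?_⟩
  · by_cases h : ∃ v, p v
    · obtain ⟨y, hy, hmin⟩ := WellFounded.has_min (wellFounded_lt (α := Fin n)) {v | p v} h
      exact ⟨some y, fun v => ⟨fun hv hp => hmin v hp hv, fun hv => hv ▸ hy⟩⟩
    · exact ⟨none, fun v hp => h ⟨v, hp⟩⟩
  · intro y y' h h'
    cases y with
    | none =>
      cases y' with
      | none => rfl
      | some y' => exact absurd ((h' y').2 rfl) (h y')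
    | some y =>
      cases y' with
      | none => exact absurd ((h y).2 rfl) (h' y)
      | some y' =>
        rcases lt_trichotomy y y' with hl | hl | hl
        · exact absurd ((h y).2 rfl) ((h' y).1 hl)
        · rw [hl]
        · exact absurd ((h' y').2 rfl) ((h y').1 hl)
  · intro y h
    cases y with
    | none => exact ⟨fun _ v => h v, fun _ => rfl⟩
    | some y => exact ⟨fun e => by simp at e, fun e => absurd ((h y).2 rfl) (e y)⟩

end Pool.Agent.HYB
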