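import Pool.Agent.HYB.St

/-!
# `S_GDM`: union bound and Markov inequality for the random machine
-/

namespace Pool.Agent.HYB

open Finset MeasureTheory

variable {n B b : ℕ} {Q : Type}

theorem GDM_running_mono (M : Machine n B b Q) (H : Net n) (G : SimpleGraph (Fin n)) {r t : ℕ}
    (h : r ≤ t) (hR : Running M H G t) : Running M H G r :=
  fun r' hr' => hR r' (hr'.trans h)

/-- A good machine is not correct if there is a triangle. -/
theorem GDM_good_not_correct (M : Machine n B b Q) (H : Net n) (G : SimpleGraph (Fin n)) {t J : ℕ}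
    (hG : ¬ G.CliqueFree 3) (h : Good M H G t J) : ¬ Correct M H G := by
  rintro ⟨r', h1, h2, h3⟩
  obtain ⟨r, _, g1, g2, _⟩ := h
  have hrr : r = r' := by
    rcases lt_trichotomy r r' with hlt | heq | hgt
    · obtain ⟨u, hu⟩ := h2 r hlt
      rw [g1 u] at hu
      exact absurd hu (by simp)
    · exact heq
    · obtain ⟨u, hu⟩ := g2 r' hgt
      exact absurd hu (h1 u)
  subst hrr
  obtain ⟨u, hu⟩ := h3.2 hG
  rw [g1 u] at hu
  exact absurd hu (by simp)

open Classical in
/-- The pairs of a pass `s < t` in which the machine is running and a cell that is written in this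
pass. -/
noncomputable def GDM_pairs (M : Machine n B b Q) (H : Net n) (G : SimpleGraph (Fin n)) (t : ℕ) :
    Finset (ℕ × Word b) :=
  (range t ×ˢ univ).filter (fun z => Running M H G z.1 ∧ mem M H G z.1 z.2 ≠ ⊥)

/-- The three ways of not being good on a triangle-free graph. -/
theorem GDM_cases (M : Machine n B b Q) (H : Net n) (G : SimpleGraph (Fin n)) {t J : ℕ}
    (hG : G.CliqueFree 3) (h : ¬ Good M H G t J) :
    ¬ Correct M H G ∨ Running M H G t ∨ J + 1 ≤ (GDM_pairs M H G t).card := by
  classical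
  by_contra hcon
  push Not at hcon
  obtain ⟨hC, hR, hJ⟩ := hcon
  obtain ⟨r, h1, h2, h3⟩ := hC
  unfold Running at hR
  push Not at hR
  obtain ⟨r', hr't, hr'⟩ := hR
  have hrr : r ≤ r' := by
    by_contra hlt
    push Not at hlt
    obtain ⟨u, hu⟩ := h2 r' hlt
    exact hr' u hu
  apply h
  refine ⟨r, hrr.trans hr't, ?_, h2, ?_⟩
  · intro u
    have hne := h1 u
    rcases hd : decision M H G r u with _ | x
    · exact absurd hd hne
    · cases x
      · rfl
      · exact absurd hG (h3.1 ⟨u, hd⟩)
  · have hle : (univ.filter (fun z : Fin r × Word b => mem M H G z.1 z.2 ≠ ⊥)).card ≤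
        (GDM_pairs M H G t).card := by
      refine Finset.card_le_card_of_injOn (fun z => ((z.1 : ℕ), z.2)) ?_ ?_
      · intro z hz
        simp only [Finset.coe_filter, Finset.mem_univ, true_and, Set.mem_ofPred_eq] at hz
        simp only [GDM_pairs, Finset.coe_filter, Set.mem_ofPred_eq, Finset.mem_product,
          Finset.mem_range, Finset.mem_univ, and_true]
        refine ⟨by have := z.1.2; omega, ?_, hz⟩
        intro s hs
        exact h2 s (by have := z.1.2; omega)
      · intro z _ z' _ hzz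
        simp only [Prod.mk.injEq] at hzz
        exact Prod.ext (Fin.ext hzz.1) hzz.2
    convert hle.trans (Nat.lt_succ_iff.mp hJ) using 2

/-- Markov's inequality for the number of pairs. -/
theorem GDM_markov {Ω : Type} [MeasurableSpace Ω] (μ : Measure Ω) [IsProbabilityMeasure μ]
    (M : Ω → Machine n B b Q) (H : Net n) (G : SimpleGraph (Fin n)) (t J' : ℕ) (J : ℝ)
    (hm : ∀ r a, MeasurableSet {ω | Running (M ω) H G r ∧ mem (M ω) H G r a ≠ ⊥})
    (hJ : ∑ r ∈ range t, ∑ a, (μ {ω | Running (M ω) H G r ∧ mem (M ω) H G r a ≠ ⊥}).toReal ≤ J) :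
    ((J' : ℝ) + 1) * (μ {ω | J' + 1 ≤ (GDM_pairs (M ω) H G t).card}).toReal ≤ J := by
  classical
  have hfin : ∀ s : Set Ω, μ s ≠ ⊤ := fun s => measure_ne_top μ s
  set f : Ω → ENNReal := fun ω => ∑ r ∈ range t, ∑ a : Word b,
    Set.indicator {ω | Running (M ω) H G r ∧ mem (M ω) H G r a ≠ ⊥} (fun _ => (1 : ENNReal)) ω
    with hf
  have hfm : Measurable f := by
    refine Finset.measurable_sum _ (fun r _ => Finset.measurable_sum _ (fun a _ => ?_))
    exact measurable_const.indicator (hm r a)
  have hint : ∫⁻ ω, f ω ∂μ = ∑ r ∈ range t, ∑ a : Word b,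
      μ {ω | Running (M ω) H G r ∧ mem (M ω) H G r a ≠ ⊥} := by
    rw [hf, lintegral_finsetSum _ (fun r _ => Finset.measurable_sum _ (fun a _ =>
      measurable_const.indicator (hm r a)))]
    refine Finset.sum_congr rfl (fun r _ => ?_)
    rw [lintegral_finsetSum _ (fun a _ => measurable_const.indicator (hm r a))]
    refine Finset.sum_congr rfl (fun a _ => ?_)
    rw [lintegral_indicator_const (hm r a), one_mul]
  have hcard : ∀ ω, f ω = ((GDM_pairs (M ω) H G t).card : ENNReal) := by
    intro ω
    rw [hf, GDM_pairs, Finset.card_filter, Finset.sum_product]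
    push_cast
    refine Finset.sum_congr rfl (fun r _ => Finset.sum_congr rfl (fun a _ => ?_))
    by_cases h : Running (M ω) H G r ∧ mem (M ω) H G r a ≠ ⊥
    · rw [Set.indicator_of_mem (by exact h), if_pos h]
    · rw [Set.indicator_of_notMem (by exact h), if_neg h]
  have hmk := mul_meas_ge_le_lintegral₀ (μ := μ) hfm.aemeasurable ((J' : ENNReal) + 1)
  have hset : {ω | (J' : ENNReal) + 1 ≤ f ω} =
      {ω | J' + 1 ≤ (GDM_pairs (M ω) H G t).card} := by
    ext ω
    simp only [Set.mem_ofPred_eq, hcard ω]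
    exact_mod_cast Iff.rfl
  rw [hset, hint] at hmk
  have hRR := ENNReal.toReal_mono (by
    refine ENNReal.sum_ne_top.2 (fun r _ => ENNReal.sum_ne_top.2 (fun a _ => hfin _))) hmk
  rw [ENNReal.toReal_mul, ENNReal.toReal_sum (fun r _ => ENNReal.sum_ne_top.2
    (fun a _ => hfin _))] at hRR
  have e1 : ((J' : ENNReal) + 1).toReal = (J' : ℝ) + 1 := by
    rw [ENNReal.toReal_add (by simp) (by simp)]
    simp
  rw [e1] at hRR
  refine hRR.trans (le_trans (le_of_eq ?_) hJ)
  refine Finset.sum_congr rfl (fun r _ => ?_)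
  rw [ENNReal.toReal_sum (fun a _ => hfin _)]

theorem c_GDM (h : S_MSB) : S_GDM := by
  classical
  intro n B b Q Ω _ μ _ M H t J' R J hD hT hC hR hJ G hG
  obtain ⟨hd, hmem, hp⟩ := hD G hG
  obtain ⟨m1, m2, m3, m4⟩ := h n B b Q Ω M H G hd hmem
  have hnc : (μ {ω | ¬ Correct (M ω) H G}).toReal ≤ 1 / 3 := by
    have e : {ω | ¬ Correct (M ω) H G} = {ω | Correct (M ω) H G}ᶜ := rfl
    rw [e, prob_compl_eq_one_sub m2, ENNReal.toReal_sub_of_le prob_le_one ENNReal.one_ne_top]
    have := ENNReal.toReal_mono (measure_ne_top μ _) hp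
    rw [ENNReal.toReal_div] at this
    norm_num at this ⊢
    linarith
  refine ⟨m4 t J', ?_, ?_⟩
  · intro hcf
    have hrun : (μ {ω | Running (M ω) H G t}).toReal ≤ 1 / 30 := by
      have h1 := hT G hG (t + 1)
      have h2 : ∑ r ∈ range (t + 1), (μ {ω | Running (M ω) H G t}).toReal ≤
          ∑ r ∈ range (t + 1), (μ {ω | Running (M ω) H G r}).toReal := by
        refine Finset.sum_le_sum (fun r hr => ?_)
        refine ENNReal.toReal_mono (measure_ne_top μ _) (measure_mono ?_)
        intro ω hω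
        exact GDM_running_mono _ _ _ (Nat.lt_succ_iff.mp (Finset.mem_range.mp hr)) hω
      rw [Finset.sum_const, Finset.card_range, nsmul_eq_mul] at h2
      push_cast at h2
      have h3 := h2.trans h1
      have ht : (0 : ℝ) < (t : ℝ) + 1 := by positivity
      by_contra hcon
      push Not at hcon
      nlinarith
    have hmk := GDM_markov μ M H G t J' J m3 (hC G hG t)
    have hmark : (μ {ω | J' + 1 ≤ (GDM_pairs (M ω) H G t).card}).toReal ≤ 1 / 30 := by
      have ht : (0 : ℝ) < (J' : ℝ) + 1 := by positivity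
      by_contra hcon
      push Not at hcon
      nlinarith
    have hsub : {ω | ¬ Good (M ω) H G t J'} ⊆ ({ω | ¬ Correct (M ω) H G} ∪
        {ω | Running (M ω) H G t}) ∪ {ω | J' + 1 ≤ (GDM_pairs (M ω) H G t).card} := by
      intro ω hω
      rcases GDM_cases (M ω) H G hcf hω with h1 | h1 | h1
      · exact Or.inl (Or.inl h1)
      · exact Or.inl (Or.inr h1)
      · exact Or.inr h1
    have hle : (μ {ω | ¬ Good (M ω) H G t J'}).toReal ≤ 2 / 5 := by
      have h1 : μ {ω | ¬ Good (M ω) H G t J'} ≤ (μ {ω | ¬ Correct (M ω) H G} +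
          μ {ω | Running (M ω) H G t}) + μ {ω | J' + 1 ≤ (GDM_pairs (M ω) H G t).card} :=
        (measure_mono hsub).trans ((measure_union_le _ _).trans
          (add_le_add (measure_union_le _ _) le_rfl))
      have h2 := ENNReal.toReal_mono (by
        simp [measure_ne_top]) h1
      rw [ENNReal.toReal_add (by simp [measure_ne_top]) (measure_ne_top μ _),
        ENNReal.toReal_add (measure_ne_top μ _) (measure_ne_top μ _)] at h2
      linarith
    rw [← ENNReal.ofReal_toReal (measure_ne_top μ {ω | ¬ Good (M ω) H G t J'})]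
    refine (ENNReal.ofReal_le_ofReal hle).trans (le_of_eq ?_)
    rw [ENNReal.ofReal_div_of_pos (by norm_num)]
    norm_num
  · intro hcf
    have hsub : {ω | Good (M ω) H G t J'} ⊆ {ω | ¬ Correct (M ω) H G} :=
      fun ω hω => GDM_good_not_correct _ _ _ hcf hω
    have hle : (μ {ω | Good (M ω) H G t J'}).toReal ≤ 1 / 3 :=
      (ENNReal.toReal_mono (measure_ne_top μ _) (measure_mono hsub)).trans hnc
    rw [← ENNReal.ofReal_toReal (measure_ne_top μ {ω | Good (M ω) H G t J'})]
    refine (ENNReal.ofReal_le_ofReal hle).trans (le_of_eq ?_)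
    rw [ENNReal.ofReal_div_of_pos (by norm_num)]
    norm_num

end Pool.Agent.HYB
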