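import Mathlib
import Pool.Agent.HYB.St

/-!
# Module LAM of project HYB: a large set of vertices with disjoint cones
-/

set_option autoImplicit false

namespace Pool.Agent.HYB

open Finset

lemma LAM_self {n : ℕ} (H : Net n) (r : ℕ) (u : Fin n) : u ∈ cone H r u := by
  induction r with
  | zero => simp [cone]
  | succ r ih => exact mem_union_left _ ih

lemma LAM_cone {n d : ℕ} (H : Net n) (hd : DegLE H d) (r : ℕ) (u : Fin n) :
    (cone H r u).card ≤ (d + 1) ^ r := by
  induction r with
  | zero => simp [cone]
  | succ r ih =>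
    have h1 : cone H (r + 1) u ⊆ cone H r u ∪
        (cone H r u).biUnion fun y => univ.filter (fun x => y ∈ H r x) := by
      intro x hx
      rw [cone, mem_union, mem_filter] at hx
      rw [mem_union]
      rcases hx with hx | ⟨-, y, hy, hyx⟩
      · exact Or.inl hx
      · exact Or.inr (mem_biUnion.2 ⟨y, hy, mem_filter.2 ⟨mem_univ _, hyx⟩⟩)
    have h2 : ((cone H r u).biUnion fun y => univ.filter (fun x => y ∈ H r x)).card ≤
        (cone H r u).card * d := by
      apply card_biUnion_le_card_mul
      intro y _
      exact (hd r y).2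
    calc (cone H (r + 1) u).card ≤ _ := card_le_card h1
      _ ≤ (cone H r u).card + (cone H r u).card * d :=
        (card_union_le _ _).trans (Nat.add_le_add_left h2 _)
      _ = (cone H r u).card * (d + 1) := by ring
      _ ≤ (d + 1) ^ r * (d + 1) := Nat.mul_le_mul_right _ ih
      _ = (d + 1) ^ (r + 1) := by rw [pow_succ]

lemma LAM_rev {n d : ℕ} (H : Net n) (hd : DegLE H d) (r : ℕ) (x : Fin n) :
    (univ.filter (fun u => x ∈ cone H r u)).card ≤ (d + 1) ^ r := by
  induction r generalizing x with
  | zero =>
    have h1 : univ.filter (fun u => x ∈ cone H 0 u) ⊆ {x} := by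
      intro u hu
      rw [mem_filter, cone, mem_singleton] at hu
      rw [mem_singleton]
      exact hu.2.symm
    simpa using card_le_card h1
  | succ r ih =>
    have h1 : univ.filter (fun u => x ∈ cone H (r + 1) u) ⊆
        univ.filter (fun u => x ∈ cone H r u) ∪
        (H r x).biUnion fun y => univ.filter (fun u => y ∈ cone H r u) := by
      intro u hu
      rw [mem_filter, cone, mem_union, mem_filter] at hu
      rw [mem_union]
      rcases hu.2 with hx | ⟨-, y, hy, hyx⟩
      · exact Or.inl (mem_filter.2 ⟨mem_univ _, hx⟩)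
      · exact Or.inr (mem_biUnion.2 ⟨y, hyx, mem_filter.2 ⟨mem_univ _, hy⟩⟩)
    have h2 : ((H r x).biUnion fun y => univ.filter (fun u => y ∈ cone H r u)).card ≤
        (H r x).card * (d + 1) ^ r := by
      apply card_biUnion_le_card_mul
      intro y _
      exact ih y
    calc (univ.filter (fun u => x ∈ cone H (r + 1) u)).card ≤ _ := card_le_card h1
      _ ≤ (d + 1) ^ r + (H r x).card * (d + 1) ^ r :=
        (card_union_le _ _).trans (Nat.add_le_add (ih x) h2)
      _ ≤ (d + 1) ^ r + d * (d + 1) ^ r :=
        Nat.add_le_add_left (Nat.mul_le_mul_right _ (hd r x).1) _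
      _ = (d + 1) ^ (r + 1) := by rw [pow_succ]; ring

lemma LAM_meet {n d : ℕ} (H : Net n) (hd : DegLE H d) (t : ℕ) (u : Fin n) :
    (univ.filter (fun u' => ¬ Disjoint (cone H t u) (cone H t u'))).card ≤
      (d + 1) ^ (2 * t) := by
  have h1 : univ.filter (fun u' => ¬ Disjoint (cone H t u) (cone H t u')) ⊆
      (cone H t u).biUnion fun x => univ.filter (fun u' => x ∈ cone H t u') := by
    intro u' hu'
    rw [mem_filter, not_disjoint_iff] at hu'
    obtain ⟨-, x, hx, hx'⟩ := hu'
    exact mem_biUnion.2 ⟨x, hx, mem_filter.2 ⟨mem_univ _, hx'⟩⟩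
  have h2 : ((cone H t u).biUnion fun x => univ.filter (fun u' => x ∈ cone H t u')).card ≤
      (cone H t u).card * (d + 1) ^ t := by
    apply card_biUnion_le_card_mul
    intro x _
    exact LAM_rev H hd t x
  calc (univ.filter (fun u' => ¬ Disjoint (cone H t u) (cone H t u'))).card ≤ _ :=
        card_le_card h1
    _ ≤ (cone H t u).card * (d + 1) ^ t := h2
    _ ≤ (d + 1) ^ t * (d + 1) ^ t := Nat.mul_le_mul_right _ (LAM_cone H hd t u)
    _ = (d + 1) ^ (2 * t) := by rw [← pow_add, two_mul]

theorem c_LAM : S_LAM := by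
  classical
  intro n d t H hd
  obtain ⟨Λ, hΛ, hmax⟩ := exists_max_image
    ((univ : Finset (Finset (Fin n))).filter (fun Λ => Sep H t Λ)) card
    ⟨∅, mem_filter.2 ⟨mem_univ _, by intro u hu; simp at hu⟩⟩
  rw [mem_filter] at hΛ
  have hsep : Sep H t Λ := hΛ.2
  refine ⟨Λ, hsep, ?_⟩
  have hcov : (univ : Finset (Fin n)) ⊆
      Λ.biUnion fun u => univ.filter (fun u' => ¬ Disjoint (cone H t u) (cone H t u')) := by
    intro u' _
    by_contra hno
    have hdis : ∀ u ∈ Λ, Disjoint (cone H t u) (cone H t u') := by
      intro u hu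
      by_contra h
      exact hno (mem_biUnion.2 ⟨u, hu, mem_filter.2 ⟨mem_univ _, h⟩⟩)
    have hu' : u' ∉ Λ := by
      intro h
      have := hdis u' h
      rw [disjoint_self, bot_eq_empty] at this
      have h2 := LAM_self H t u'
      rw [this] at h2
      simp at h2
    have hins : Sep H t (insert u' Λ) := by
      intro a ha b hb hab
      rw [mem_insert] at ha hb
      rcases ha with rfl | ha
      · rcases hb with rfl | hb
        · exact absurd rfl hab
        · exact (hdis b hb).symm
      · rcases hb with rfl | hb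
        · exact hdis a ha
        · exact hsep a ha b hb hab
    have := hmax (insert u' Λ) (mem_filter.2 ⟨mem_univ _, hins⟩)
    rw [card_insert_of_notMem hu'] at this
    omega
  calc n = (univ : Finset (Fin n)).card := by simp
    _ ≤ _ := card_le_card hcov
    _ ≤ Λ.card * (d + 1) ^ (2 * t) := by
      apply card_biUnion_le_card_mul
      intro u _
      exact LAM_meet H hd t u

end Pool.Agent.HYB
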