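import Pool.Agent.HYB.St

/-!
# Project HYB: locality of the network
-/

namespace Pool.Agent.HYB

open Finset

theorem LOC_self {n : ℕ} (H : Net n) (u : Fin n) : ∀ r, u ∈ cone H r u
  | 0 => by simp [cone]
  | r + 1 => by
    simp only [cone, mem_union]
    exact Or.inl (LOC_self H u r)

open Classical in
/-- Locality: the run simulated by `u` agrees with the run with prescribed memory contents at all
vertices that are not influenced by other vertices of `Λ`. -/
theorem c_LOC : S_LOC := by
  intro n B b Q M H m G Λ h hadj h1 h0 r
  induction r with
  | zero =>
    intro u x hx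
    simp only [frun, solo]
    by_cases hxu : x = u
    · rw [if_pos hxu, hxu]
    · rw [if_neg hxu]
      have hxL : x ∉ Λ := fun hxL => hx x hxL hxu (by simp [cone])
      have hN : nbr G x = ∅ := by
        apply Finset.eq_empty_of_forall_notMem
        intro w hw
        simp only [nbr, mem_filter, mem_univ, true_and] at hw
        exact hxL (hadj x w hw)
      rw [hN]
  | succ r ih =>
    intro u x hx
    have hx' : ∀ u' ∈ Λ, u' ≠ u → x ∉ cone H r u' := fun u' hu' hne hc =>
      hx u' hu' hne (by simp only [cone, mem_union]; exact Or.inl hc)
    have hw : ∀ w ∈ H r x, frun M H m G r w = solo M H m u (nbr G u) (fun s w => h s w u) r w := by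
      intro w hwx
      refine ih u w fun u' hu' hne hc => hx u' hu' hne ?_
      simp only [cone, mem_union, mem_filter, mem_univ, true_and]
      exact Or.inr ⟨w, hc, hwx⟩
    simp only [frun, solo]
    rw [ih u x hx']
    have e1 : (fun w => if G.Adj w x then M.send r (frun M H m G r w) x else fun _ => false) =
        (fun w => if x = u then h r w u else fun _ => false) := by
      funext w
      by_cases hxu : x = u
      · subst hxu
        rw [if_pos rfl]
        by_cases hA : G.Adj w x
        · rw [if_pos hA, h1 r w x hA]
        · rw [if_neg hA, h0 r w x hA]
      · rw [if_neg hxu]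
        have hA : ¬ G.Adj w x := fun hA =>
          hx x (hadj x w hA.symm) hxu (LOC_self H x (r + 1))
        rw [if_neg hA]
    have e2 : (fun w => if w ∈ H r x then some (frun M H m G r w) else none) =
        (fun w => if w ∈ H r x then some (solo M H m u (nbr G u) (fun s w => h s w u) r w)
          else none) := by
      funext w
      by_cases hwx : w ∈ H r x
      · rw [if_pos hwx, if_pos hwx, hw w hwx]
      · rw [if_neg hwx, if_neg hwx]
    congr 1

end Pool.Agent.HYB
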