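import Pool.Agent.HYB.St

/-!
# Assembly of the main theorem
-/

namespace Pool.Agent.HYB

open Finset MeasureTheory

theorem c_MAIN (h1 : S_ZERO) (h2 : S_GDM) (h3 : S_RND) (h4 : S_CNT) (h5 : S_NUM) : S_MAIN := by
  obtain ⟨n₀, h1⟩ := h1
  obtain ⟨c, hc, s₀, h5⟩ := h5
  obtain ⟨s1, hs1⟩ := exists_nat_gt (Real.exp 3)
  refine ⟨c / 2, by positivity, max (max s₀ (2 * n₀)) (max s1 1), ?_⟩
  intro n s B b d hs hns hsn Q Ω _ μ _ M H T J hH hD hT hJ
  have hs0 : s₀ ≤ s := le_trans (le_trans (le_max_left _ _) (le_max_left _ _)) hs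
  have hsn0 : 2 * n₀ ≤ s := le_trans (le_trans (le_max_right _ _) (le_max_left _ _)) hs
  have hs1' : s1 ≤ s := le_trans (le_trans (le_max_left _ _) (le_max_right _ _)) hs
  have hs2 : 1 ≤ s := le_trans (le_trans (le_max_right _ _) (le_max_right _ _)) hs
  have hn0 : n₀ ≤ n := by omega
  have hn : 0 < n := by omega
  have hnR : (0 : ℝ) < n := by exact_mod_cast hn
  have hsR : (0 : ℝ) < s := by exact_mod_cast hs2
  have hse : Real.exp 3 < s := lt_of_lt_of_le hs1 (by exact_mod_cast hs1')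
  have hL : 3 < Real.log s := by
    rw [Real.lt_log_iff_exp_lt hsR]
    exact hse
  -- the expected number of passes
  set R : ℝ := T / n with hR
  have hP : ∀ G : SimpleGraph (Fin n), G.edgeSet.ncard ≤ n →
      ∀ m, ∑ r ∈ range m, (μ {ω | Running (M ω) H G r}).toReal ≤ R := by
    intro G hG m
    have e1 := hT G hG m
    rw [hR, le_div_iff₀ hnR]
    have e2 : 0 ≤ ∑ r ∈ range m, (μ {ω | Running (M ω) H G r}).toReal :=
      Finset.sum_nonneg fun r _ => ENNReal.toReal_nonneg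
    have e3 : (0 : ℝ) ≤ G.edgeSet.ncard := Nat.cast_nonneg _
    nlinarith
  have hR1 := h1 n B b Q Ω μ M H R hn0 hD hP
  have hJ0 : 0 ≤ J := by
    have := hJ ⊥ (by simp) 0
    simpa using this
  have hR0 : 0 ≤ R := by linarith
  have hTR : T = R * n := by rw [hR, div_mul_cancel₀ _ hnR.ne']
  have ht1 : ((⌊30 * R⌋₊ : ℕ) : ℝ) ≤ 30 * R := Nat.floor_le (by positivity)
  have ht2 : 30 * R < (⌊30 * R⌋₊ : ℕ) + 1 := Nat.lt_floor_add_one _
  have hj1 : ((⌊30 * J⌋₊ : ℕ) : ℝ) ≤ 30 * J := Nat.floor_le (by positivity)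
  have hj2 : 30 * J < (⌊30 * J⌋₊ : ℕ) + 1 := Nat.lt_floor_add_one _
  generalize ⌊30 * R⌋₊ = t at ht1 ht2
  generalize ⌊30 * J⌋₊ = J' at hj1 hj2
  have hE := h2 n B b Q Ω μ M H t J' R J hD hP hJ ht2.le hj2
  -- parameters
  obtain ⟨k, hk⟩ : ∃ k : ℕ, k = 4800 * (t + 1) ^ 3 * (B + 1) := ⟨_, rfl⟩
  obtain ⟨q, hq⟩ : ∃ q : ℕ, q = 400 * (3 * (k + 3) ^ (t + 2)) ^ 2 := ⟨_, rfl⟩
  have hkR : (k : ℝ) = 4800 * (t + 1 : ℝ) ^ 3 * (B + 1) := by rw [hk]; push_cast; ring
  have hqR : (q : ℝ) = 400 * (3 * (4800 * (t + 1 : ℝ) ^ 3 * (B + 1) + 3) ^ (t + 2)) ^ 2 := by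
    rw [hq]; push_cast; rw [hkR]
  have hq0 : 0 < q := by rw [hq]; positivity
  have hcon : 192 * (t + 1 : ℝ) ^ 3 * Real.log (2 ^ B) / (k + 1) ≤ 1 / 25 := by
    have hl : Real.log ((2 : ℝ) ^ B) ≤ B := by
      rw [Real.log_pow]
      have := Real.log_two_lt_d9
      nlinarith [Nat.cast_nonneg (α := ℝ) B]
    have ht0 : (0 : ℝ) ≤ t := Nat.cast_nonneg _
    have hB0 : (0 : ℝ) ≤ B := Nat.cast_nonneg _
    rw [div_le_iff₀ (by positivity), hkR]
    have e1 : 192 * (t + 1 : ℝ) ^ 3 * Real.log (2 ^ B) ≤ 192 * (t + 1 : ℝ) ^ 3 * B :=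
      mul_le_mul_of_nonneg_left hl (by positivity)
    have e2 : 0 ≤ (t + 1 : ℝ) ^ 3 := by positivity
    nlinarith
  obtain ⟨D, hDd⟩ : ∃ D : ℕ, D = q * (d + 1) ^ (2 * t) := ⟨_, rfl⟩
  have hD0 : 0 < D := by rw [hDd]; positivity
  have hDR : (D : ℝ) = 400 * (3 * (4800 * (t + 1 : ℝ) ^ 3 * (B + 1) + 3) ^ (t + 2)) ^ 2 *
      (d + 1 : ℝ) ^ (2 * t) := by
    rw [hDd]; push_cast; rw [hqR]
  set X : ℝ := Real.log (t + 1) + t * Real.log n + J' * Real.log (t * 4 ^ b * n + 1) + 1 with hX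
  have hlt : 0 ≤ Real.log ((t : ℝ) + 1) :=
    Real.log_nonneg (by have := Nat.cast_nonneg (α := ℝ) t; linarith)
  have hln : 0 ≤ Real.log (n : ℝ) := Real.log_nonneg (by exact_mod_cast hn)
  have hlb : 0 ≤ Real.log ((t : ℝ) * 4 ^ b * n + 1) := Real.log_nonneg (by
    have : 0 ≤ (t : ℝ) * 4 ^ b * n := by positivity
    linarith)
  have hX1 : 1 ≤ X := by
    rw [hX]
    have a1 : 0 ≤ (t : ℝ) * Real.log n := by positivity
    have a2 : 0 ≤ (J' : ℝ) * Real.log (t * 4 ^ b * n + 1) := by positivity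
    linarith
  -- the number of guesses
  have hG : Real.log (Fintype.card (Guess n b t J')) + 1 ≤ X := by
    rcases Nat.eq_zero_or_pos (Fintype.card (Guess n b t J')) with hz | hz
    · rw [hz, Nat.cast_zero, Real.log_zero]
      linarith
    · have e1 : (Fintype.card (Guess n b t J') : ℝ) ≤
          (t + 1) * (n : ℝ) ^ t * (t * 4 ^ b * n + 1) ^ J' := by
        have := h4 n b t J' hn
        have e2 := (Nat.cast_le (α := ℝ)).mpr this
        push_cast at e2
        exact e2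
      have e2 := Real.log_le_log (by exact_mod_cast hz) e1
      have hp : (0 : ℝ) < t * 4 ^ b * n + 1 := by positivity
      rw [Real.log_mul (by positivity) (by positivity), Real.log_mul (by positivity)
        (by positivity), Real.log_pow, Real.log_pow] at e2
      rw [hX]
      linarith
  have hfin : (n : ℝ) ≤ 200 * X * D := by
    have hdiv : n < (n / D + 1) * D := by
      have := Nat.lt_div_mul_add (a := n) hD0
      nlinarith
    have hdivR : (n : ℝ) < ((n / D : ℕ) + 1) * D := by exact_mod_cast hdiv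
    have hDR0 : (0 : ℝ) < D := by exact_mod_cast hD0
    rcases Nat.eq_zero_or_pos (n / D) with hz | hz
    · rw [hz] at hdivR
      push_cast at hdivR
      nlinarith
    · have e1 := h3 n B b d Q Ω μ M H t J' k q (n / D) hH hE hz hcon (le_of_eq hq.symm) (by
        rw [mul_assoc, ← hDd]
        exact Nat.div_mul_le_self n D)
      have e2 : (1 : ℝ) ≤ (n / D : ℕ) := by exact_mod_cast hz
      have e3 : ((n / D : ℕ) : ℝ) < 100 * X := by linarith
      nlinarith
  have hmain := h5 n s B b d t J' R J hs0 hns hsn hR1 hJ0 ht1 hj1 (by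
    rw [mul_assoc (200 * X), ← hDR]
    exact hfin)
  -- conclusion
  have hB0 : (0 : ℝ) ≤ B := Nat.cast_nonneg _
  have hd0 : (0 : ℝ) ≤ d := Nat.cast_nonneg _
  have hY : 0 < Real.log (B + d + Real.log s) := Real.log_pos (by linarith)
  set Y : ℝ := Real.log (B + d + Real.log s) with hYd
  set Z : ℝ := Real.log (s / (1 + J * (b + Real.log s))) with hZ
  have hsn' : (s : ℝ) ≤ 2 * n := by exact_mod_cast hsn
  have e1 : c / 2 * (s * Z / Y) = (c * Z) * (s / 2) / Y := by ring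
  rw [e1, div_le_iff₀ hY, hTR]
  calc c * Z * (s / 2) ≤ R * Y * (s / 2) := mul_le_mul_of_nonneg_right hmain (by positivity)
    _ ≤ R * Y * n := mul_le_mul_of_nonneg_left (by linarith) (by positivity)
    _ = R * n * Y := by ring

end Pool.Agent.HYB
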