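import Pool.Agent.HYB.St

/-!
# Renaming of contents
-/

set_option autoImplicit false

namespace Pool.Agent.HYB

open Pool.Agent.CT (Tr NodeFun Node Alg rejectsAt SatT SatTri SatY Sat Hang Br HP BP labH labB nodeOf
  RealT RealY pr Al NodeCon swap)
open Matrix (vecCons)

theorem MAP_labB {L L' : Type} {k : ℕ} (f : L → L') :
    ∀ (h : ℕ) (c : Br L k h) (x : BP k h), labB (mapBr f c) x = f (labB c x) := by
  intro h
  induction h with
  | zero => intro c x; rfl
  | succ h ih =>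
    intro c x
    cases x with
    | inl u => rfl
    | inr x => exact ih (c.2 x.1) x.2

theorem MAP_Sat {L L' A : Type} {k : ℕ} (f : L → L') (N : Node L' A k) :
    ∀ (h : ℕ) (c : Br L k h) (s : ℕ) (y : Tr A s),
      Sat (ncomap f N) h c s y ↔ Sat N h (mapBr f c) s y := by
  intro h
  induction h with
  | zero => intro c s y; exact Iff.rfl
  | succ h ih =>
    intro c s y
    change (∃ z : Fin (k + 1) → Tr A s,
      NodeCon (N.F (f c.1)) s (vecCons y z) ∧ N.O (f c.1) s (vecCons y z) ∧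
        ∀ j, Sat (ncomap f N) h (c.2 j) s (swap (z j))) ↔
      (∃ z : Fin (k + 1) → Tr A s,
      NodeCon (N.F (f c.1)) s (vecCons y z) ∧ N.O (f c.1) s (vecCons y z) ∧
        ∀ j, Sat N h (mapBr f (c.2 j)) s (swap (z j)))
    simp only [ih]

theorem MAP_SatY {L L' A : Type} {k : ℕ} (f : L → L') (N : Node L' A k) (h s : ℕ)
    (c : Hang L k h k) (p q : Tr A s) :
    SatY (ncomap f N) h s c p q ↔ SatY N h s (mapH f c) p q := by
  change (∃ z : Fin k → Tr A s, NodeCon (N.F (f c.1)) s (vecCons p (vecCons q z)) ∧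
    N.O (f c.1) s (vecCons p (vecCons q z)) ∧
      ∀ j, Sat (ncomap f N) h (c.2 j) s (swap (z j))) ↔
    (∃ z : Fin k → Tr A s, NodeCon (N.F (f c.1)) s (vecCons p (vecCons q z)) ∧
    N.O (f c.1) s (vecCons p (vecCons q z)) ∧ ∀ j, Sat N h (mapBr f (c.2 j)) s (swap (z j)))
  simp only [MAP_Sat]

theorem c_MAP : S_MAP := by
  intro L L' A k h s f N
  refine ⟨?_, ?_, ?_⟩
  · intro m c y
    cases y with
    | inl u => rfl
    | inr x => exact MAP_labB f h (c.2 x.1) x.2
  · intro c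
    change (∃ z : Fin (k + 2) → Tr A s, NodeCon (N.F (f c.1)) s z ∧ N.O (f c.1) s z ∧
      ∀ j, Sat (ncomap f N) h (c.2 j) s (swap (z j))) ↔
      (∃ z : Fin (k + 2) → Tr A s, NodeCon (N.F (f c.1)) s z ∧ N.O (f c.1) s z ∧
      ∀ j, Sat N h (mapBr f (c.2 j)) s (swap (z j)))
    simp only [MAP_Sat]
  · intro x
    unfold SatTri
    simp only [MAP_SatY]

end Pool.Agent.HYB
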