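import Pool.Agent.HYB.St

/-!
# HYB, module MAX: the first maximiser
-/

set_option autoImplicit false

namespace Pool.Agent.HYB

open Finset

private lemma MAX_sup {n b : ℕ} (f : Fin n → WithBot (Word b)) (e : Option (Word b × Fin n))
    (h : ∀ v, MaxOk e v (f v)) : univ.sup f = val e := by
  rcases e with _ | ⟨w, y⟩
  · have h1 : ∀ v, f v = ⊥ := h
    simp only [val]
    exact Finset.sup_eq_bot_iff f univ |>.2 fun v _ => h1 v
  · have h1 : ∀ v, (v < y → f v < (w : WithBot (Word b))) ∧
        (v = y → f v = (w : WithBot (Word b))) ∧ f v ≤ (w : WithBot (Word b)) := h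
    simp only [val]
    refine le_antisymm (Finset.sup_le fun v _ => (h1 v).2.2) ?_
    rw [← (h1 y).2.1 rfl]
    exact Finset.le_sup (f := f) (mem_univ y)

/-- MAX. The first maximiser -/
theorem c_MAX : S_MAX := by
  classical
  intro n b f
  refine ⟨?_, ?_, fun e h => MAX_sup f e h, ?_⟩
  · by_cases hb : ∀ v, f v = ⊥
    · exact ⟨none, hb⟩
    · push Not at hb
      obtain ⟨v₀, hv₀⟩ := hb
      have hne : univ.sup f ≠ ⊥ := by
        intro h
        exact hv₀ (Finset.sup_eq_bot_iff f univ |>.1 h v₀ (mem_univ _))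
      obtain ⟨w, hw⟩ := WithBot.ne_bot_iff_exists.1 hne
      obtain ⟨v₁, -, hv₁⟩ := Finset.exists_mem_eq_sup univ ⟨v₀, mem_univ _⟩ f
      have hS : (univ.filter fun v => f v = (w : WithBot (Word b))).Nonempty :=
        ⟨v₁, mem_filter.2 ⟨mem_univ _, by rw [hw, hv₁]⟩⟩
      refine ⟨some (w, (univ.filter fun v => f v = (w : WithBot (Word b))).min' hS), fun v => ?_⟩
      have hle : f v ≤ (w : WithBot (Word b)) := by
        rw [hw]
        exact Finset.le_sup (f := f) (mem_univ v)
      refine ⟨fun hv => lt_of_le_of_ne hle fun he => ?_, fun hv => ?_, hle⟩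
      · exact absurd (min'_le _ v (mem_filter.2 ⟨mem_univ _, he⟩)) (not_le.2 hv)
      · rw [hv]
        exact (mem_filter.1 (min'_mem _ hS)).2
  · intro e e' h h'
    have h1 := (MAX_sup f e h).symm.trans (MAX_sup f e' h')
    rcases e with _ | ⟨w, y⟩ <;> rcases e' with _ | ⟨w', y'⟩
    · rfl
    · exact absurd h1.symm WithBot.coe_ne_bot
    · exact absurd h1 WithBot.coe_ne_bot
    · obtain rfl : w = w' := WithBot.coe_injective h1
      have g : ∀ v, (v < y → f v < (w : WithBot (Word b))) ∧
        (v = y → f v = (w : WithBot (Word b))) ∧ f v ≤ (w : WithBot (Word b)) := h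
      have g' : ∀ v, (v < y' → f v < (w : WithBot (Word b))) ∧
        (v = y' → f v = (w : WithBot (Word b))) ∧ f v ≤ (w : WithBot (Word b)) := h'
      rcases lt_trichotomy y y' with h2 | h2 | h2
      · exact absurd ((g y).2.1 rfl) ((g' y).1 h2).ne
      · rw [h2]
      · exact absurd ((g' y').2.1 rfl) ((g y').1 h2).ne
  · intro e h
    rw [MAX_sup f e h]
    rcases e with _ | ⟨w, y⟩
    · simp [val]
    · simp [val]

end Pool.Agent.HYB
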