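import Pool.Agent.HYB.St

/-!
# Measurability
-/

set_option autoImplicit false

namespace Pool.Agent.HYB

open Finset MeasureTheory

theorem MSB_iff {Ω : Type} [MeasurableSpace Ω] {p : Ω → Prop} (c : Prop)
    (h : MeasurableSet {ω | p ω}) : MeasurableSet {ω | p ω ↔ c} := by
  by_cases hc : c
  · have : {ω | p ω ↔ c} = {ω | p ω} := by ext ω; simp [hc]
    rw [this]; exact h
  · have : {ω | p ω ↔ c} = {ω | p ω}ᶜ := by ext ω; simp [hc]
    rw [this]; exact h.compl

theorem c_MSB : S_MSB := by
  classical
  intro n B b Q Ω _ M H G hd hm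
  have hex : ∀ r, MeasurableSet {ω | ∃ u, decision (M ω) H G r u = none} := by
    intro r
    simp only [Set.setOf_exists]
    exact MeasurableSet.iUnion fun u => hd r u none
  have hrun : ∀ r, MeasurableSet {ω | Running (M ω) H G r} := by
    intro r
    have : {ω | Running (M ω) H G r} =
        ⋂ r' : ℕ, ⋂ _ : r' ≤ r, {ω | ∃ u, decision (M ω) H G r' u = none} := by
      ext ω
      simp [Running]
    rw [this]
    exact MeasurableSet.iInter fun r' => MeasurableSet.iInter fun _ => hex r'
  have hlt : ∀ r, MeasurableSet {ω | ∀ r' < r, ∃ u, decision (M ω) H G r' u = none} := by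
    intro r
    have : {ω | ∀ r' < r, ∃ u, decision (M ω) H G r' u = none} =
        ⋂ r' : ℕ, ⋂ _ : r' < r, {ω | ∃ u, decision (M ω) H G r' u = none} := by
      ext ω
      simp
    rw [this]
    exact MeasurableSet.iInter fun r' => MeasurableSet.iInter fun _ => hex r'
  have hall : ∀ r x, MeasurableSet {ω | ∀ u, decision (M ω) H G r u = x} := by
    intro r x
    simp only [Set.setOf_forall]
    exact MeasurableSet.iInter fun u => hd r u x
  have hnn : ∀ r, MeasurableSet {ω | ∀ u, decision (M ω) H G r u ≠ none} := by
    intro r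
    simp only [Set.setOf_forall]
    exact MeasurableSet.iInter fun u => (hd r u none).compl
  have htr : ∀ r, MeasurableSet {ω | ∃ u, decision (M ω) H G r u = some true} := by
    intro r
    simp only [Set.setOf_exists]
    exact MeasurableSet.iUnion fun u => hd r u (some true)
  refine ⟨hrun, ?_, ?_, ?_⟩
  · have : {ω | Correct (M ω) H G} = ⋃ r : ℕ,
        ({ω | ∀ u, decision (M ω) H G r u ≠ none} ∩
          ({ω | ∀ r' < r, ∃ u, decision (M ω) H G r' u = none} ∩
            {ω | (∃ u, decision (M ω) H G r u = some true) ↔ ¬ G.CliqueFree 3})) := by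
      ext ω
      simp only [Correct, Set.mem_setOf_eq, Set.mem_iUnion, Set.mem_inter_iff]
    rw [this]
    exact MeasurableSet.iUnion fun r => (hnn r).inter ((hlt r).inter (MSB_iff _ (htr r)))
  · intro r a
    exact (hrun r).inter (hm r a ⊥).compl
  · intro t J
    have hcard : ∀ r : ℕ, MeasurableSet {ω |
        (univ.filter (fun z : Fin r × Word b => mem (M ω) H G z.1 z.2 ≠ ⊥)).card ≤ J} := by
      intro r
      simp only [Finset.card_filter]
      refine measurableSet_le (Finset.measurable_sum _ fun z _ => ?_) measurable_const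
      exact Measurable.ite (hm z.1 z.2 ⊥).compl measurable_const measurable_const
    have : {ω | Good (M ω) H G t J} = ⋃ r : ℕ, ⋃ _ : r ≤ t,
        ({ω | ∀ u, decision (M ω) H G r u = some false} ∩
          ({ω | ∀ r' < r, ∃ u, decision (M ω) H G r' u = none} ∩
            {ω | (univ.filter
              (fun z : Fin r × Word b => mem (M ω) H G z.1 z.2 ≠ ⊥)).card ≤ J})) := by
      ext ω
      simp only [Good, Set.mem_setOf_eq, Set.mem_iUnion, Set.mem_inter_iff, exists_prop]
    rw [this]
    exact MeasurableSet.iUnion fun r => MeasurableSet.iUnion fun _ =>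
      (hall r _).inter ((hlt r).inter (hcard r))

end Pool.Agent.HYB
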