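import Pool.Agent.HYB.St

/-!
# HYB, NUM: the final real inequality (helper48)
-/

set_option autoImplicit false

namespace Pool.Agent.HYB

private theorem NUM_logs : Real.log 2 ≤ 0.7 ∧ Real.log 200 ≤ 5.6 ∧ Real.log 991 ≤ 7 ∧
    Real.log 400 ≤ 6.3 ∧ Real.log 3 ≤ 1.4 ∧ Real.log 4803 ≤ 9.1 ∧ Real.log 4 ≤ 2 := by
  have h2 : Real.log 2 ≤ 0.7 := by
    have := Real.log_two_lt_d9
    linarith
  have hp : ∀ (x : ℝ) (k : ℕ), 0 < x → x ≤ 2 ^ k → Real.log x ≤ k * 0.7 := by
    intro x k hx hk
    have h1 : Real.log x ≤ Real.log ((2 : ℝ) ^ k) := Real.log_le_log hx hk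
    rw [Real.log_pow] at h1
    have h3 : (k : ℝ) * Real.log 2 ≤ k * 0.7 := mul_le_mul_of_nonneg_left h2 (Nat.cast_nonneg k)
    linarith
  refine ⟨h2, ?_, ?_, ?_, ?_, ?_, ?_⟩
  · have := hp 200 8 (by norm_num) (by norm_num)
    norm_num at this ⊢
    linarith
  · have := hp 991 10 (by norm_num) (by norm_num)
    norm_num at this ⊢
    linarith
  · have := hp 400 9 (by norm_num) (by norm_num)
    norm_num at this ⊢
    linarith
  · have := hp 3 2 (by norm_num) (by norm_num)
    norm_num at this ⊢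
    linarith
  · have := hp 4803 13 (by norm_num) (by norm_num)
    norm_num at this ⊢
    linarith
  · have := hp 4 2 (by norm_num) (by norm_num)
    norm_num at this ⊢
    linarith

theorem c_NUM : S_NUM := by
  obtain ⟨l2, l200, l991, l400, l3, l4803, l4⟩ := NUM_logs
  refine ⟨1 / 6000, by norm_num, 21, ?_⟩
  intro n s B b d t J' R J hs hns hsn hR hJ ht hJ' hyp
  have hs21 : (21 : ℝ) ≤ (s : ℝ) := by exact_mod_cast hs
  have hs0 : (0 : ℝ) < (s : ℝ) := by linarith
  set L : ℝ := Real.log s with hL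
  have he : Real.exp 1 < 2.72 := lt_trans Real.exp_one_lt_d9 (by norm_num)
  have hL3 : 3 ≤ L := by
    rw [hL, Real.le_log_iff_exp_le hs0]
    have h1 : Real.exp 3 = (Real.exp 1) ^ 3 := by
      rw [← Real.exp_nat_mul]
      norm_num
    rw [h1]
    have h2 : (Real.exp 1) ^ 3 ≤ (2.72 : ℝ) ^ 3 := pow_le_pow_left₀ (Real.exp_pos 1).le he.le 3
    have h3 : (2.72 : ℝ) ^ 3 ≤ 21 := by norm_num
    linarith
  have hlogL : 1 ≤ Real.log L := by
    rw [Real.le_log_iff_exp_le (by linarith)]
    linarith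
  have hB0 : (0 : ℝ) ≤ (B : ℝ) := Nat.cast_nonneg B
  have hd0 : (0 : ℝ) ≤ (d : ℝ) := Nat.cast_nonneg d
  have hb0 : (0 : ℝ) ≤ (b : ℝ) := Nat.cast_nonneg b
  have ht0 : (0 : ℝ) ≤ (t : ℝ) := Nat.cast_nonneg t
  have hJ'0 : (0 : ℝ) ≤ (J' : ℝ) := Nat.cast_nonneg J'
  have hR0 : 0 < R := by linarith
  set Y : ℝ := Real.log (B + d + L) with hY
  have hYL : Real.log L ≤ Y := Real.log_le_log (by linarith) (by linarith)
  have hY1 : 1 ≤ Y := hlogL.trans hYL
  set Z : ℝ := 1 + J * (b + L) with hZ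
  have hZ1 : 1 ≤ Z := by
    have : 0 ≤ J * (b + L) := mul_nonneg hJ (by linarith)
    linarith
  have hZ0 : 0 < Z := by linarith
  have hlogZ : 0 ≤ Real.log Z := Real.log_nonneg hZ1
  have hsZ : Real.log (s / Z) = L - Real.log Z := Real.log_div hs0.ne' hZ0.ne'
  rw [hsZ]
  rcases le_or_gt L R with hLR | hRL
  · have h1 : R ≤ R * Y := by nlinarith
    nlinarith
  · -- now R < L
    have htL : (t : ℝ) ≤ 30 * L := by linarith
    have hn0 : (0 : ℝ) < (n : ℝ) := by
      have : (s : ℝ) ≤ 2 * (n : ℝ) := by exact_mod_cast hsn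
      linarith
    have hns' : (n : ℝ) ≤ (s : ℝ) := by exact_mod_cast hns
    have hlogn : Real.log n ≤ L := Real.log_le_log hn0 hns'
    have hlogn2 : L - Real.log 2 ≤ Real.log n := by
      have h1 : (s : ℝ) ≤ 2 * (n : ℝ) := by exact_mod_cast hsn
      have h2 : L ≤ Real.log (2 * n) := Real.log_le_log hs0 h1
      rw [Real.log_mul (by norm_num) hn0.ne'] at h2
      linarith
    have hlogn0 : 0 ≤ Real.log n := by linarith
    have hlt1 : Real.log (t + 1) ≤ t := by
      have := Real.log_le_sub_one_of_pos (show (0 : ℝ) < t + 1 by linarith)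
      linarith
    have hlt0 : 0 ≤ Real.log (t + 1 : ℝ) := Real.log_nonneg (by linarith)
    have h4b : (1 : ℝ) ≤ 4 ^ b := one_le_pow₀ (by norm_num)
    have hbig : Real.log (t * 4 ^ b * n + 1) ≤ 31 * (b + L) := by
      have h1 : (t * 4 ^ b * n + 1 : ℝ) ≤ (t + 1) * 4 ^ b * s := by
        have h2 : (t * 4 ^ b * n : ℝ) ≤ t * 4 ^ b * s :=
          mul_le_mul_of_nonneg_left hns' (by positivity)
        have h3 : (1 : ℝ) ≤ 4 ^ b * s := by nlinarith
        nlinarith
      have h0 : (0 : ℝ) < t * 4 ^ b * n + 1 := by positivity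
      have h5 := Real.log_le_log h0 h1
      have h6 : Real.log ((t + 1) * 4 ^ b * s) = Real.log (t + 1) + b * Real.log 4 + L := by
        rw [Real.log_mul (by positivity) hs0.ne', Real.log_mul (by positivity) (by positivity),
          Real.log_pow]
      rw [h6] at h5
      have h7 : (b : ℝ) * Real.log 4 ≤ b * 2 := mul_le_mul_of_nonneg_left l4 hb0
      nlinarith
    have hbr : Real.log (t + 1) + t * Real.log n + J' * Real.log (t * 4 ^ b * n + 1) + 1 ≤
        991 * (L ^ 2 * Z) := by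
      have h1 : (t : ℝ) * Real.log n ≤ 30 * L * L :=
        mul_le_mul htL hlogn hlogn0 (by linarith)
      have hbig0 : 0 ≤ Real.log (t * 4 ^ b * n + 1 : ℝ) := Real.log_nonneg (by
        have : (0 : ℝ) ≤ t * 4 ^ b * n := by positivity
        linarith)
      have h2 : (J' : ℝ) * Real.log (t * 4 ^ b * n + 1) ≤ (30 * J) * (31 * (b + L)) :=
        mul_le_mul hJ' hbig hbig0 (by positivity)
      have h3 : (30 * J) * (31 * (b + L)) ≤ 930 * Z := by
        rw [hZ]
        nlinarith
      have h4 : 1 ≤ L ^ 2 := by nlinarith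
      have h5 : Z ≤ L ^ 2 * Z := by nlinarith
      have h6 : L ^ 2 ≤ L ^ 2 * Z := by nlinarith
      have h7 : L ≤ L ^ 2 := by nlinarith
      nlinarith
    have hbr0 : 0 < Real.log (t + 1) + t * Real.log n + J' * Real.log (t * 4 ^ b * n + 1) + 1 := by
      have hbig0 : 0 ≤ Real.log (t * 4 ^ b * n + 1 : ℝ) := Real.log_nonneg (by
        have : (0 : ℝ) ≤ t * 4 ^ b * n := by positivity
        linarith)
      have h1 : 0 ≤ (t : ℝ) * Real.log n := mul_nonneg ht0 hlogn0
      have h2 : 0 ≤ (J' : ℝ) * Real.log (t * 4 ^ b * n + 1) := mul_nonneg hJ'0 hbig0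
      linarith
    have hK : (4800 * (t + 1 : ℝ) ^ 3 * (B + 1) + 3) ≤ 4803 * ((t + 1) ^ 3 * (B + 1)) := by
      have h1 : (1 : ℝ) ≤ (t + 1) ^ 3 := one_le_pow₀ (by linarith)
      have h2 : (1 : ℝ) ≤ (t + 1) ^ 3 * (B + 1) := by nlinarith
      linarith
    have hK0 : (0 : ℝ) < (4800 * (t + 1 : ℝ) ^ 3 * (B + 1) + 3) := by positivity
    have hlt : Real.log (t + 1) ≤ 4 + Y := by
      have h1 : (t + 1 : ℝ) ≤ 31 * L := by linarith
      have h2 := Real.log_le_log (show (0 : ℝ) < t + 1 by linarith) h1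
      rw [Real.log_mul (by norm_num) (by linarith)] at h2
      have h3 : Real.log 31 ≤ 4 := by
        have h4 : Real.log 31 ≤ Real.log ((2 : ℝ) ^ 5) := Real.log_le_log (by norm_num) (by norm_num)
        rw [Real.log_pow] at h4
        norm_num at h4 ⊢
        linarith
      linarith
    have hlB : Real.log (B + 1) ≤ Y := Real.log_le_log (by linarith) (by linarith)
    have hld : Real.log (d + 1) ≤ Y := Real.log_le_log (by linarith) (by linarith)
    have hld0 : 0 ≤ Real.log (d + 1 : ℝ) := Real.log_nonneg (by linarith)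
    have hlK : Real.log (4800 * (t + 1 : ℝ) ^ 3 * (B + 1) + 3) ≤ 26 * Y := by
      have h1 := Real.log_le_log hK0 hK
      rw [Real.log_mul (by norm_num) (by positivity), Real.log_mul (by positivity) (by positivity),
        Real.log_pow] at h1
      push_cast at h1
      linarith
    -- take logarithms
    have hlog := Real.log_le_log hn0 hyp
    have e1 : Real.log (200 * (Real.log (t + 1) + t * Real.log n +
        J' * Real.log (t * 4 ^ b * n + 1) + 1) *
        (400 * (3 * (4800 * (t + 1 : ℝ) ^ 3 * (B + 1) + 3) ^ (t + 2)) ^ 2) *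
        (d + 1 : ℝ) ^ (2 * t)) =
        Real.log 200 + Real.log (Real.log (t + 1) + t * Real.log n +
        J' * Real.log (t * 4 ^ b * n + 1) + 1) +
        (Real.log 400 + 2 * (Real.log 3 + (t + 2) * Real.log (4800 * (t + 1 : ℝ) ^ 3 * (B + 1) + 3))) +
        2 * t * Real.log (d + 1) := by
      rw [Real.log_mul (by positivity) (by positivity), Real.log_mul (by positivity) (by positivity),
        Real.log_mul (by norm_num) hbr0.ne', Real.log_mul (by norm_num) (by positivity),
        Real.log_pow, Real.log_pow, Real.log_mul (by norm_num) (by positivity), Real.log_pow]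
      push_cast
      ring
    rw [e1] at hlog
    have hlbr : Real.log (Real.log (t + 1) + t * Real.log n +
        J' * Real.log (t * 4 ^ b * n + 1) + 1) ≤ Real.log 991 + 2 * Real.log L + Real.log Z := by
      have h1 := Real.log_le_log hbr0 hbr
      rw [Real.log_mul (by norm_num) (by positivity), Real.log_mul (by positivity) hZ0.ne',
        Real.log_pow] at h1
      push_cast at h1
      linarith
    have hmul1 : ((t : ℝ) + 2) * Real.log (4800 * (t + 1 : ℝ) ^ 3 * (B + 1) + 3) ≤
        (t + 2) * (26 * Y) := mul_le_mul_of_nonneg_left hlK (by linarith)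
    have hmul2 : (t : ℝ) * Real.log (d + 1) ≤ t * Y := mul_le_mul_of_nonneg_left hld ht0
    have hfin : L - Real.log Z ≤ 23 * Y + 2 * Y + 104 * Y + 54 * (t * Y) := by
      nlinarith
    have htY : (t : ℝ) * Y ≤ 30 * R * Y := mul_le_mul_of_nonneg_right ht (by linarith)
    have hRY : Y ≤ 30 * R * Y := by nlinarith
    nlinarith

end Pool.Agent.HYB
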