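import Mathlib
import Pool.Agent.HYB.St
import Pool.Agent.CT.Count

/-!
# Nonempty families of contents
-/

namespace Pool.Agent.HYB

open Finset MeasureTheory
open Pool.Agent.CT (Tr NodeFun Node Alg rejectsAt SatT SatTri SatY Sat Hang Br HP BP labH labB nodeOf
  RealT RealY pr Al)

lemma NXY_cardHP (k h m : ℕ) : Fintype.card (HP k h m) = 1 + m * Fintype.card (BP k h) := by
  have h1 : Fintype.card (HP k h m) = Fintype.card (Unit ⊕ (Fin m × BP k h)) := rfl
  rw [h1, Fintype.card_sum, Fintype.card_prod, Fintype.card_fin, Fintype.card_unit]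

lemma NXY_card0 (k h : ℕ) : Fintype.card (HP k h (k + 2)) ≤ (k + 3) ^ (h + 2) := by
  have h1 := CT.count_cardBP_le k h
  have h0 := CT.count_cardBP_pos k h
  have h2 : (k + 3) ^ (h + 1) ≤ (k + 3) ^ (h + 2) :=
    Nat.pow_le_pow_right (by omega) (by omega)
  have h3 : 1 + (k + 2) * Fintype.card (BP k h) ≤ (k + 3) ^ (h + 1) := by
    rw [pow_succ]
    nlinarith
  rw [NXY_cardHP]
  omega

lemma NXY_card1 (k h : ℕ) : Fintype.card (Fin 3 × HP k h k) ≤ 3 * (k + 3) ^ (h + 2) := by
  have h1 := CT.count_cardBP_le k h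
  have h0 := CT.count_cardBP_pos k h
  have h2 : (k + 3) ^ (h + 1) ≤ (k + 3) ^ (h + 2) :=
    Nat.pow_le_pow_right (by omega) (by omega)
  have h3 : 1 + k * Fintype.card (BP k h) ≤ (k + 3) ^ (h + 1) := by
    rw [pow_succ]
    nlinarith
  rw [Fintype.card_prod, Fintype.card_fin, NXY_cardHP]
  omega

/-- An injective labelling with names in `Fin q`. -/
lemma NXY_inj {P : Type} [Fintype P] {q : ℕ} (h : Fintype.card P ≤ q) :
    ∃ g : P → Fin q, Function.Injective g := by
  have h1 : Fintype.card P ≤ Fintype.card (Fin q) := by rwa [Fintype.card_fin]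
  obtain ⟨e⟩ := Function.Embedding.nonempty_of_card_le h1
  exact ⟨e, e.injective⟩

theorem c_NEXY : S_NEXY := by
  intro q k h hq
  constructor
  · obtain ⟨g, hg⟩ := NXY_inj (P := HP k h (k + 2)) (q := q)
      ((NXY_card0 k h).trans (by omega))
    obtain ⟨c, hc⟩ := (CT.count_labH (L := Fin q) (k := k) (h := h) (m := k + 2)).2 g
    refine ⟨⟨c, ?_⟩⟩
    have hc' : labH c = g := hc
    rw [hc']
    exact hg
  · obtain ⟨g, hg⟩ := NXY_inj (P := Fin 3 × HP k h k) (q := q) ((NXY_card1 k h).trans hq)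
    obtain ⟨x, hx⟩ := (CT.count_fam (m := 3)
      (CT.count_labH (L := Fin q) (k := k) (h := h) (m := k))).2 g
    refine ⟨⟨x, ?_⟩⟩
    have hx' : (fun z : Fin 3 × HP k h k => labH (x z.1) z.2) = g := hx
    rw [hx']
    exact hg

end Pool.Agent.HYB
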