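import Mathlib
import Pool.Agent.HYB.St

namespace Pool.Agent.HYB

open Finset

lemma PIN_h1 {N : ℕ} (a b : Fin N → ℝ) (e : ℝ) (ha0 : ∀ i, 0 ≤ a i) (ha1 : ∀ i, a i ≤ 1)
    (hb0 : ∀ i, 0 ≤ b i) (hb : ∀ i, 1 - e - 12 * (1 - a i) ≤ b i) (i : Fin N) :
    (∏ i, a i) * (1 - e - 12 * (1 - a i)) ≤ (∏ m ∈ univ.erase i, a m) * b i := by
  have hp0 : 0 ≤ ∏ i, a i := Finset.prod_nonneg (fun i _ => ha0 i)
  have hq0 : 0 ≤ ∏ m ∈ univ.erase i, a m := Finset.prod_nonneg (fun i _ => ha0 i)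
  have hpq : (∏ i, a i) ≤ ∏ m ∈ univ.erase i, a m := by
    rw [← Finset.mul_prod_erase univ a (Finset.mem_univ i)]
    calc a i * ∏ m ∈ univ.erase i, a m ≤ 1 * ∏ m ∈ univ.erase i, a m :=
          mul_le_mul_of_nonneg_right (ha1 i) hq0
      _ = _ := one_mul _
  rcases le_total 0 (1 - e - 12 * (1 - a i)) with h | h
  · calc (∏ i, a i) * (1 - e - 12 * (1 - a i))
        ≤ (∏ m ∈ univ.erase i, a m) * (1 - e - 12 * (1 - a i)) :=
          mul_le_mul_of_nonneg_right hpq h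
      _ ≤ (∏ m ∈ univ.erase i, a m) * b i := mul_le_mul_of_nonneg_left (hb i) hq0
  · calc (∏ i, a i) * (1 - e - 12 * (1 - a i)) ≤ 0 := mul_nonpos_of_nonneg_of_nonpos hp0 h
      _ ≤ (∏ m ∈ univ.erase i, a m) * b i := mul_nonneg hq0 (hb0 i)

lemma PIN_h2 {N : ℕ} (a : Fin N → ℝ) (c : ℝ) (hc : 0 < c) (ha0 : ∀ i, 0 ≤ a i) :
    (∏ i, a i) * ∑ i, (1 - a i) ≤ (∏ i, a i) * Real.log c + 1 / c := by
  have hp0 : 0 ≤ ∏ i, a i := Finset.prod_nonneg (fun i _ => ha0 i)
  by_cases hp : (∏ i, a i) = 0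
  · rw [hp, zero_mul, zero_mul, zero_add]
    positivity
  · have hpp : 0 < ∏ i, a i := lt_of_le_of_ne hp0 (Ne.symm hp)
    have hai : ∀ i ∈ (univ : Finset (Fin N)), a i ≠ 0 := by
      intro i hi
      exact (Finset.prod_ne_zero_iff.mp hp) i hi
    have hlog : Real.log (∏ i, a i) = ∑ i, Real.log (a i) := Real.log_prod hai
    have hs : ∑ i, (1 - a i) ≤ - Real.log (∏ i, a i) := by
      rw [hlog, ← Finset.sum_neg_distrib]
      apply Finset.sum_le_sum
      intro i hi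
      have h := Real.log_le_sub_one_of_pos (lt_of_le_of_ne (ha0 i) (Ne.symm (hai i hi)))
      linarith
    have h3 : Real.log (1 / ((∏ i, a i) * c)) = - (Real.log (∏ i, a i) + Real.log c) := by
      rw [one_div, Real.log_inv, Real.log_mul hp hc.ne']
    have h4 : Real.log (1 / ((∏ i, a i) * c)) ≤ 1 / ((∏ i, a i) * c) - 1 :=
      Real.log_le_sub_one_of_pos (by positivity)
    have h5 : (∏ i, a i) * (1 / ((∏ i, a i) * c)) = 1 / c := by
      field_simp
    have h6 : (∏ i, a i) * Real.log (1 / ((∏ i, a i) * c)) ≤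
        (∏ i, a i) * (1 / ((∏ i, a i) * c) - 1) := mul_le_mul_of_nonneg_left h4 hp0
    have h7 : (∏ i, a i) * ∑ i, (1 - a i) ≤ (∏ i, a i) * (- Real.log (∏ i, a i)) :=
      mul_le_mul_of_nonneg_left hs hp0
    rw [h3, mul_sub, h5] at h6
    nlinarith

lemma PIN_point {N : ℕ} (hN : 0 < N) (a b : Fin N → ℝ) (e c : ℝ) (hc : 0 < c)
    (ha0 : ∀ i, 0 ≤ a i) (ha1 : ∀ i, a i ≤ 1)
    (hb0 : ∀ i, 0 ≤ b i) (hb : ∀ i, 1 - e - 12 * (1 - a i) ≤ b i) :
    (∏ i, a i) * (1 - e) - 12 / N * ((∏ i, a i) * Real.log c + 1 / c) ≤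
      (∑ i, (∏ m ∈ univ.erase i, a m) * b i) / N := by
  have hNR : (0 : ℝ) < N := by exact_mod_cast hN
  have h1 : ∑ i, (∏ i, a i) * (1 - e - 12 * (1 - a i)) ≤
      ∑ i, (∏ m ∈ univ.erase i, a m) * b i :=
    Finset.sum_le_sum (fun i _ => PIN_h1 a b e ha0 ha1 hb0 hb i)
  have h2 : ∑ i, (∏ i, a i) * (1 - e - 12 * (1 - a i)) =
      N * ((∏ i, a i) * (1 - e)) - 12 * ((∏ i, a i) * ∑ i, (1 - a i)) := by
    rw [Finset.mul_sum, Finset.mul_sum]
    have : (N : ℝ) * ((∏ i, a i) * (1 - e)) = ∑ i : Fin N, (∏ i, a i) * (1 - e) := by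
      rw [Finset.sum_const, Finset.card_univ, Fintype.card_fin, nsmul_eq_mul]
    rw [this, ← Finset.sum_sub_distrib]
    apply Finset.sum_congr rfl
    intro i _
    ring
  have h3 := PIN_h2 a c hc ha0
  rw [le_div_iff₀ hNR]
  have h4 : ((∏ i, a i) * (1 - e) - 12 / N * ((∏ i, a i) * Real.log c + 1 / c)) * N =
      N * ((∏ i, a i) * (1 - e)) - 12 * ((∏ i, a i) * Real.log c + 1 / c) := by
    field_simp
  rw [h4]
  linarith

theorem c_PIN : S_PIN := by
  intro Θ _ N u a b e hN he hu ha0 ha1 hb0 hb hsum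
  have hNR : (0 : ℝ) < N := by exact_mod_cast hN
  rcases isEmpty_or_nonempty Θ with hE | hE
  · simp only [Finset.univ_eq_empty, Finset.sum_empty, Fintype.card_eq_zero, Nat.cast_zero,
      Real.log_zero, zero_add, zero_sub, mul_one]
    have : (0 : ℝ) ≤ 12 / N := by positivity
    linarith
  · have hc : (0 : ℝ) < Fintype.card Θ := by exact_mod_cast Fintype.card_pos
    have hc1 : (1 : ℝ) ≤ Fintype.card Θ := by exact_mod_cast Fintype.card_pos
    set c : ℝ := ((Fintype.card Θ : ℕ) : ℝ) with hcdef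
    have hlog : 0 ≤ Real.log c := Real.log_nonneg hc1
    have hu0 : ∀ θ, 0 ≤ u θ := by
      intro θ
      rcases hu θ with h | h <;> rw [h]
      exact zero_le_one
    have hu1 : ∀ θ, u θ ≤ 1 := by
      intro θ
      rcases hu θ with h | h <;> rw [h]
      exact zero_le_one
    have hp0 : ∀ θ, 0 ≤ ∏ i, a θ i := fun θ => Finset.prod_nonneg (fun i _ => ha0 θ i)
    have hpt : ∀ θ, u θ * ((∏ i, a θ i) * (1 - e) -
        12 / N * ((∏ i, a θ i) * Real.log c + 1 / c)) ≤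
        (∑ i, u θ * (∏ m ∈ univ.erase i, a θ m) * b θ i) / N := by
      intro θ
      have h := PIN_point hN (a θ) (b θ) e c hc (ha0 θ) (ha1 θ) (hb0 θ) (hb θ)
      have h2 := mul_le_mul_of_nonneg_left h (hu0 θ)
      refine h2.trans (le_of_eq ?_)
      rw [← mul_div_assoc, Finset.mul_sum]
      congr 1
      apply Finset.sum_congr rfl
      intro i _
      ring
    refine le_trans ?_ (Finset.sum_le_sum (fun θ _ => hpt θ))
    have hT : 0 ≤ ∑ θ, u θ * ∏ i, a θ i :=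
      Finset.sum_nonneg (fun θ _ => mul_nonneg (hu0 θ) (hp0 θ))
    have hU : ∑ θ, u θ * (1 / c) ≤ 1 := by
      rw [← Finset.sum_mul]
      have : ∑ θ, u θ ≤ c := by
        calc ∑ θ, u θ ≤ ∑ θ : Θ, (1 : ℝ) := Finset.sum_le_sum (fun θ _ => hu1 θ)
          _ = c := by simp [hcdef]
      calc (∑ θ, u θ) * (1 / c) ≤ c * (1 / c) :=
            mul_le_mul_of_nonneg_right this (by positivity)
        _ = 1 := by field_simp
    have hS : ∑ θ, u θ * ((∏ i, a θ i) * (1 - e) -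
        12 / N * ((∏ i, a θ i) * Real.log c + 1 / c)) =
        (1 - e) * (∑ θ, u θ * ∏ i, a θ i) -
          12 / N * (Real.log c * (∑ θ, u θ * ∏ i, a θ i) + ∑ θ, u θ * (1 / c)) := by
      rw [Finset.mul_sum, Finset.mul_sum, ← Finset.sum_add_distrib, Finset.mul_sum,
        ← Finset.sum_sub_distrib]
      apply Finset.sum_congr rfl
      intro θ _
      ring
    rw [hS]
    have h12 : (0 : ℝ) ≤ 12 / N := by positivity
    set T := ∑ θ, u θ * ∏ i, a θ i with hTdef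
    set Uc := ∑ θ, u θ * (1 / c) with hUdef
    have hA : Real.log c * T + Uc ≤ Real.log c + 1 := by
      have : Real.log c * T ≤ Real.log c * 1 := mul_le_mul_of_nonneg_left hsum hlog
      linarith
    have hB : 12 / N * (Real.log c * T + Uc) ≤ 12 / N * (Real.log c + 1) :=
      mul_le_mul_of_nonneg_left hA h12
    have hC : e * T ≤ e := by nlinarith
    linarith

end Pool.Agent.HYB
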