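import Mathlib
import Pool.Agent.HYB.St

/-! The inequality for one pool. -/

namespace Pool.Agent.HYB

open Pool.Agent.CT (Tr NodeFun Node Alg rejectsAt SatT SatTri SatY Sat Hang Br HP BP labH labB nodeOf
  RealT RealY pr Al)

theorem POL_pr_nonneg {Ω : Type} [Fintype Ω] (p : Ω → Prop) : 0 ≤ pr p := by
  unfold Pool.Agent.CT.pr
  positivity

theorem POL_pr_mono {Ω : Type} [Fintype Ω] {p p' : Ω → Prop} (h : ∀ ω, p ω → p' ω) :
    pr p ≤ pr p' := by
  classical
  unfold Pool.Agent.CT.pr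
  refine div_le_div_of_nonneg_right ?_ (Nat.cast_nonneg _)
  refine Nat.cast_le.mpr (Finset.card_le_card ?_)
  intro ω hω
  simp only [Finset.mem_filter, Finset.mem_univ, true_and] at hω ⊢
  exact h ω hω

theorem c_POOL (h1 : S_CPR) (h2 : CT.S_CONTENT) (h3 : CT.S_NODE) : S_POOL := by
  intro n B q k h r P f hr hlog hq
  have hq0 : 0 < q := lt_of_lt_of_le (by positivity) hq
  haveI : Nonempty (Fin q) := ⟨⟨0, hq0⟩⟩
  obtain ⟨c1, c2, c3⟩ := h1 q k h hq
  by_cases hiso : ∀ w, Iso P (f w)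
  · have hX : pr (fun c : XT q k h => EvX P f r c) ≤
        pr (fun c : Hang (Fin q) k h (k + 2) => SatT (ncomap f (nodeOf P k)) h (r + 1) c) +
          1 / 400 := by
      refine le_trans ?_ (c1 _)
      exact POL_pr_mono (fun c hc => hc.1)
    have hY : pr (fun x : Fin 3 → Hang (Fin q) k h k =>
          SatTri (ncomap f (nodeOf P k)) h (r + 1) x) ≤
        pr (fun x : YT q k h => EvY P f r x) + 1 / 400 := by
      refine le_trans (c2 _) ?_
      have h4 : pr (fun x : YT q k h => SatTri (ncomap f (nodeOf P k)) h (r + 1) x.1) ≤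
          pr (fun x : YT q k h => EvY P f r x) :=
        POL_pr_mono (fun x hx => ⟨hx, fun w _ => hiso w⟩)
      linarith
    obtain ⟨s1, s2, s3⟩ := h3 n B k P
    have hC := h2 (Fin q) (Al n B) k (2 ^ B) (ncomap f (nodeOf P k)) (fun b => s1 (f b))
      (fun b => s2 (f b)) (fun b => s3 (f b)) Nat.one_le_two_pow h (r + 1) (by omega)
    have hb : 192 * ((r + 1 : ℕ) : ℝ) ^ 3 * Real.log ((2 ^ B : ℕ) : ℝ) / (k + 1) ≤ 1 / 25 := by
      refine le_trans ?_ hlog
      have hl : (0 : ℝ) ≤ Real.log ((2 ^ B : ℕ) : ℝ) := Real.log_natCast_nonneg _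
      have hl2 : Real.log ((2 ^ B : ℕ) : ℝ) = Real.log (2 ^ B) := by push_cast; rfl
      rw [hl2] at hl ⊢
      have hrr : ((r + 1 : ℕ) : ℝ) ≤ (h + 1 : ℝ) := by
        push_cast
        have : (r : ℝ) ≤ h := by exact_mod_cast hr
        linarith
      gcongr
    linarith
  · push Not at hiso
    obtain ⟨w, hw⟩ := hiso
    have hX : pr (fun c : XT q k h => EvX P f r c) ≤ 1 / 100 := by
      refine le_trans (POL_pr_mono ?_) (c3 w)
      intro c hc
      by_contra hne
      push Not at hne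
      exact hw (hc.2 w hne)
    have hY := POL_pr_nonneg (fun x : YT q k h => EvY P f r x)
    linarith

end Pool.Agent.HYB
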