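import Pool.Agent.HYB.St
import Pool.Agent.CT.Det

/-!
# HYB, module PRD: the event of a guess is a product event (helper84)
-/

namespace Pool.Agent.HYB

open Finset
open Pool.Agent.CT (Tr NodeFun Node Alg rejectsAt SatT SatTri SatY Sat Hang Br HP BP labH labB nodeOf
  RealT RealY pr Al)

/-- an isolated vertex accepts iff `Iso` -/
lemma PRD_iso {n B : ℕ} (P : Alg n B) (G : SimpleGraph (Fin n)) {v : Fin n}
    (h : ∀ w, ¬ G.Adj v w) (r : ℕ) : ¬ rejectsAt P G r v ↔ Iso P v := by
  rw [Pool.Agent.CT.det_iso P G h r]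
  unfold Iso
  cases P.rejects v ∅ (fun _ _ _ => false) <;> simp

/-- a tree component -/
lemma PRD_tree (h1 : S_MAP) (h2 : Pool.Agent.CT.S_LINKT) {n B q k h r : ℕ} (P : Alg n B)
    (f : Fin q → Fin n) (G : SimpleGraph (Fin n)) (c : XT q k h) (hR : RealT G (mapH f c.1)) :
    SatT (ncomap f (nodeOf P k)) h (r + 1) c.1 ↔
      ∀ x, ¬ rejectsAt P G r (f (labH c.1 x)) := by
  obtain ⟨m1, m2, -⟩ := h1 (Fin q) (Fin n) _ k h (r + 1) f (nodeOf P k)
  rw [m2, h2 n B k h r P G _ hR]
  constructor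
  · intro H x
    rw [← m1]
    exact H x
  · intro H x
    rw [m1]
    exact H x

/-- the triangle component -/
lemma PRD_tri (h1 : S_MAP) (h3 : Pool.Agent.CT.S_LINKTRI) {n B q k h r : ℕ} (P : Alg n B)
    (f : Fin q → Fin n) (G : SimpleGraph (Fin n)) (x : YT q k h)
    (hR : ∀ j : Fin 3, RealY G (mapH f (x.1 j)) (mapH f (x.1 (j + 1))).1
      (mapH f (x.1 (j + 2))).1) :
    SatTri (ncomap f (nodeOf P k)) h (r + 1) x.1 ↔
      ∀ z : Fin 3 × HP k h k, ¬ rejectsAt P G r (f (labH (x.1 z.1) z.2)) := by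
  obtain ⟨m1, -, m3⟩ := h1 (Fin q) (Fin n) _ k h (r + 1) f (nodeOf P k)
  rw [m3, h3 n B k h r P G _ hR]
  constructor
  · intro H z
    rw [← m1]
    exact H z.1 z.2
  · intro H j y
    rw [m1]
    exact H (j, y)

theorem c_PRD (h1 : S_MAP) (h2 : Pool.Agent.CT.S_LINKT) (h3 : Pool.Agent.CT.S_LINKTRI) :
    S_PRD := by
  intro n B q k h r N P ι G hι
  have hinj : ∀ m m' w w', ι m w = ι m' w' → m = m' ∧ w = w' := by
    intro m m' w w' e
    have e1 : ((m, w) : Fin N × Fin q) = (m', w') := hι e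
    exact ⟨congrArg Prod.fst e1, congrArg Prod.snd e1⟩
  refine ⟨?_, ?_⟩
  · intro c hF
    obtain ⟨-, -, hR, hiso⟩ := hF
    constructor
    · intro H
      refine ⟨?_, ?_⟩
      · intro v hv
        exact (PRD_iso P G (hiso v fun m x => hv _ _) r).1 (H v)
      · intro m
        refine ⟨(PRD_tree h1 h2 P (ι m) G (c m) (hR m)).2 fun x => H _, ?_⟩
        intro w hw
        refine (PRD_iso P G (hiso _ fun m' x e => ?_) r).1 (H _)
        obtain ⟨rfl, e2⟩ := hinj _ _ _ _ e
        exact hw x e2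
    · rintro ⟨hO, hE⟩ v
      by_cases hl : ∀ m x, ι m (labH (c m).1 x) ≠ v
      · refine (PRD_iso P G (hiso v hl) r).2 ?_
        by_cases hp : ∀ i w, ι i w ≠ v
        · exact hO v hp
        · push Not at hp
          obtain ⟨m, w, rfl⟩ := hp
          refine (hE m).2 w fun x e => ?_
          exact hl m x (by rw [e])
      · push Not at hl
        obtain ⟨m, x, rfl⟩ := hl
        exact (PRD_tree h1 h2 P (ι m) G (c m) (hR m)).1 (hE m).1 x
  · intro i c x hF
    obtain ⟨-, -, hR, hY, hiso⟩ := hF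
    constructor
    · intro H
      refine ⟨?_, ?_, ?_⟩
      · intro v hv
        exact (PRD_iso P G (hiso v (fun m _ y => hv _ _) fun z => hv _ _) r).1 (H v)
      · intro m hm
        refine ⟨(PRD_tree h1 h2 P (ι m) G (c m) (hR m hm)).2 fun x => H _, ?_⟩
        intro w hw
        refine (PRD_iso P G (hiso _ (fun m' _ y e => ?_) fun z e => ?_) r).1 (H _)
        · obtain ⟨rfl, e2⟩ := hinj _ _ _ _ e
          exact hw y e2
        · exact hm (hinj _ _ _ _ e).1.symm
      · refine ⟨(PRD_tri h1 h3 P (ι i) G x hY).2 fun z => H _, ?_⟩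
        intro w hw
        refine (PRD_iso P G (hiso _ (fun m' hm' y e => ?_) fun z e => ?_) r).1 (H _)
        · exact hm' (hinj _ _ _ _ e).1
        · exact hw z (hinj _ _ _ _ e).2
    · rintro ⟨hO, hE, hEY⟩ v
      by_cases hl : (∀ m, m ≠ i → ∀ y, ι m (labH (c m).1 y) ≠ v) ∧
          ∀ z : Fin 3 × HP k h k, ι i (labH (x.1 z.1) z.2) ≠ v
      · refine (PRD_iso P G (hiso v hl.1 hl.2) r).2 ?_
        by_cases hp : ∀ i w, ι i w ≠ v
        · exact hO v hp
        · push Not at hp
          obtain ⟨m, w, rfl⟩ := hp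
          by_cases hm : m = i
          · subst hm
            refine hEY.2 w fun z e => ?_
            exact hl.2 z (by rw [e])
          · refine (hE m hm).2 w fun y e => ?_
            exact hl.1 m hm y (by rw [e])
      · rw [not_and_or] at hl
        rcases hl with hl | hl
        · push Not at hl
          obtain ⟨m, hm, y, rfl⟩ := hl
          exact (PRD_tree h1 h2 P (ι m) G (c m) (hR m hm)).1 (hE m hm).1 y
        · push Not at hl
          obtain ⟨z, rfl⟩ := hl
          exact (PRD_tri h1 h3 P (ι i) G x hY).1 hEY.1 z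

end Pool.Agent.HYB
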