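import Pool.Agent.HYB.St
import Pool.Agent.CT.Rand

/-!
# Averaging over the seed
-/

namespace Pool.Agent.HYB

open Finset MeasureTheory
open Pool.Agent.CT (pr pr_not rand_avg)

/-- From measures to real measures. -/
lemma RND_real {Ω : Type} [MeasurableSpace Ω] (μ : Measure Ω) [IsProbabilityMeasure μ]
    {s : Set Ω} {a : ENNReal} {a' : ℝ} (ha : a ≠ ⊤) (e : a.toReal = a') (h : μ s ≤ a) :
    μ.real s ≤ a' := by
  rw [← e]
  exact ENNReal.toReal_mono ha h

theorem c_RND (h1 : S_LAM) (h2 : S_FAM) (h3 : S_CORE) (h4 : S_NEXY) : S_RND := by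
  classical
  intro n B b d Q Ω _ μ _ M H t J k q N hdeg herr hN hK hq hn
  obtain ⟨Λ, hsep, hΛ⟩ := h1 n d t H hdeg
  have hpos : 0 < (d + 1) ^ (2 * t) := pow_pos (Nat.succ_pos d) _
  have hcard : N * q ≤ Λ.card := Nat.le_of_mul_le_mul_right (hn.trans hΛ) hpos
  have hce : Fintype.card (Fin N × Fin q) ≤ Fintype.card Λ := by
    rw [Fintype.card_prod, Fintype.card_fin, Fintype.card_fin, Fintype.card_coe]
    exact hcard
  obtain ⟨e⟩ := Function.Embedding.nonempty_of_card_le hce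
  set ι : Fin N → Fin q → Fin n := fun i w => (e (i, w) : Fin n) with hι
  have hmem : ∀ i w, ι i w ∈ Λ := fun i w => (e (i, w)).2
  have hinj : Function.Injective (fun z : Fin N × Fin q => ι z.1 z.2) := by
    intro a b hab
    exact e.injective (Subtype.ext hab)
  obtain ⟨hF0, hF1⟩ := h2 n q k t N ι hinj
  choose g0 hg0 using hF0
  choose g1 hg1 using hF1
  set g1' : Fin N × ((Fin N → XT q k t) × YT q k t) → SimpleGraph (Fin n) :=
    fun z => g1 z.1 z.2.1 z.2.2 with hg1'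
  have hne : Nonempty (XT q k t) := by
    refine (h4 q k t ?_).1
    refine le_trans ?_ hq
    nlinarith [Nat.zero_le (3 * (k + 3) ^ (t + 2))]
  have key : ∀ ω, 1 - 2 / 25 - 12 / (N : ℝ) * (Real.log (Fintype.card (Guess n b t J)) + 1) ≤
      pr (fun c => ¬ Good (M ω) H (g0 c) t J) + pr (fun z => Good (M ω) H (g1' z) t J) := by
    intro ω
    have h := h3 n B b Q (M ω) H t J k q N Λ ι hsep hmem hinj hN hK hq g0 g1' hg0
      (fun z => hg1 z.1 z.2.1 z.2.2)
    have hp : pr (fun c : Fin N → XT q k t => ¬ Good (M ω) H (g0 c) t J) =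
        1 - pr (fun c => Good (M ω) H (g0 c) t J) := pr_not _
    rw [hp]
    linarith
  have a0 := rand_avg μ (fun ω c => ¬ Good (M ω) H (g0 c) t J) (a := 2 / 5) (by norm_num)
    (fun c => (herr (g0 c) (hg0 c).2.1).1.compl)
    (fun c => RND_real μ (a := 2 / 5) (ENNReal.div_lt_top (by norm_num) (by norm_num)).ne
      (by rw [ENNReal.toReal_div]; norm_num) ((herr (g0 c) (hg0 c).2.1).2.1 (hg0 c).1))
  have a1 := rand_avg μ (fun ω z => Good (M ω) H (g1' z) t J) (a := 1 / 3) (by norm_num)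
    (fun z => (herr (g1' z) (hg1 z.1 z.2.1 z.2.2).2.1).1)
    (fun z => RND_real μ (a := 1 / 3) (ENNReal.div_lt_top (by norm_num) (by norm_num)).ne
      (by rw [ENNReal.toReal_div]; norm_num)
      ((herr (g1' z) (hg1 z.1 z.2.1 z.2.2).2.1).2.2 (hg1 z.1 z.2.1 z.2.2).1))
  have hi := integral_mono (μ := μ) (integrable_const
    (1 - 2 / 25 - 12 / (N : ℝ) * (Real.log (Fintype.card (Guess n b t J)) + 1)))
    (a0.1.add a1.1) key
  have hs : ∫ ω, ((fun ω => pr (fun c => ¬ Good (M ω) H (g0 c) t J)) +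
      fun ω => pr (fun z => Good (M ω) H (g1' z) t J)) ω ∂μ = _ := integral_add' a0.1 a1.1
  have h5 : ∫ _ω, (1 - 2 / 25 - 12 / (N : ℝ) *
      (Real.log (Fintype.card (Guess n b t J)) + 1)) ∂μ =
      1 - 2 / 25 - 12 / (N : ℝ) * (Real.log (Fintype.card (Guess n b t J)) + 1) := by simp
  rw [h5] at hi
  have h6 : 1 - 2 / 25 - 12 / (N : ℝ) * (Real.log (Fintype.card (Guess n b t J)) + 1) ≤
      2 / 5 + 1 / 3 := by
    refine hi.trans ((le_of_eq hs).trans (add_le_add a0.2 a1.2))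
  have hL : 0 ≤ Real.log (Fintype.card (Guess n b t J)) := Real.log_natCast_nonneg _
  have hN' : (0 : ℝ) < N := by exact_mod_cast hN
  have h7 : 14 / 75 ≤ 12 / (N : ℝ) * (Real.log (Fintype.card (Guess n b t J)) + 1) := by
    linarith
  have h8 : 12 / (N : ℝ) * (Real.log (Fintype.card (Guess n b t J)) + 1) * N =
      12 * (Real.log (Fintype.card (Guess n b t J)) + 1) := by
    field_simp
  have h9 : 14 / 75 * (N : ℝ) ≤ 12 * (Real.log (Fintype.card (Guess n b t J)) + 1) := by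
    rw [← h8]
    exact mul_le_mul_of_nonneg_right h7 hN'.le
  linarith

end Pool.Agent.HYB
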