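import Mathlib
import Pool.Agent.HYB.St

/-!
# Module HYB_SIG: encoding of a run by a guess (helper11)
-/

namespace Pool.Agent.HYB

open Finset MeasureTheory
open Pool.Agent.CT (Tr NodeFun Node Alg rejectsAt SatT SatTri SatY Sat Hang Br HP BP labH labB nodeOf
  RealT RealY pr Al)

variable {n B b : ℕ} {Q : Type}

/-- The first undecided vertex of a guess. -/
theorem SIG_und {t J : ℕ} (θ : Guess n b t J) (s : ℕ) (h : s < θ.pass) :
    θ.und s = some (θ.1.2.1 ⟨s, h⟩) := by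
  unfold Guess.und
  rw [dif_pos h]

/-- The cells of a guess. -/
theorem SIG_cel {t J : ℕ} (θ : Guess n b t J) (s : ℕ) (h : s < θ.pass) (a : Word b) :
    θ.cel s a = θ.1.2.2 ⟨s, h⟩ a := by
  unfold Guess.cel
  rw [dif_pos h]

/-- The checks in terms of the real run. -/
theorem SIG_ok (h3 : S_FRUN) (M : Machine n B b Q) (H : Net n) (G : SimpleGraph (Fin n)) (r : ℕ)
    (τ : ℕ → Option (Fin n)) (σ : ℕ → Word b → Option (Word b × Fin n))
    (hok : AllOk M H τ σ G r) :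
    (∀ s < r, ∀ v, FirstOk (τ s) v (decision M H G s v = none)) ∧
    (∀ s < r, ∀ a v, MaxOk (σ s a) v (M.write s (state M H G s v) a)) ∧
    ∀ v, decision M H G r v = some false := by
  obtain ⟨hst, hmx⟩ := (h3 n B b Q M H G r).2 τ σ hok
  refine ⟨fun s hs v => ?_, hmx, fun v => ?_⟩
  · have h := (hok v).1 s hs
    beta_reduce at h
    rw [hst s hs.le v] at h
    exact h
  · have h := (hok v).2.2
    beta_reduce at h
    rw [hst r le_rfl v] at h
    exact h

/-- A guess that passes all checks: the machine is good. -/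
theorem SIG_good (h1 : S_MAX) (h3 : S_FRUN) {t J : ℕ} (M : Machine n B b Q) (H : Net n)
    (G : SimpleGraph (Fin n)) (θ : Guess n b t J) (hok : AllOk M H θ.und θ.cel G θ.pass) :
    Good M H G t J := by
  classical
  obtain ⟨hf, hm, hd⟩ := SIG_ok h3 M H G θ.pass θ.und θ.cel hok
  refine ⟨θ.pass, Nat.lt_succ_iff.mp θ.1.1.2, hd, fun s hs => ?_, ?_⟩
  · have h := hf s hs (θ.1.2.1 ⟨s, hs⟩)
    rw [SIG_und θ s hs] at h
    exact ⟨_, h.2 rfl⟩
  · refine le_trans (le_of_eq ?_) θ.2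
    congr 1
    refine Finset.filter_congr fun z _ => ?_
    have h := (h1 n b fun v => M.write z.1 (state M H G z.1 v) z.2).2.2.2
      (θ.cel z.1 z.2) (hm z.1 z.1.2 z.2)
    rw [SIG_cel θ z.1 z.1.2 z.2] at h
    exact not_congr h.symm

/-- If the machine is good then there is a guess that passes all checks. -/
theorem SIG_guess (h1 : S_MAX) (h2 : S_FIRST) (h3 : S_FRUN) {t J : ℕ} (M : Machine n B b Q)
    (H : Net n) (G : SimpleGraph (Fin n)) (hg : Good M H G t J) :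
    ∃ θ : Guess n b t J, AllOk M H θ.und θ.cel G θ.pass := by
  classical
  obtain ⟨r, hr, hd, hu, hc⟩ := hg
  have hy : ∀ s : Fin r, ∃ y : Fin n, ∀ v, FirstOk (some y) v (decision M H G s v = none) := by
    intro s
    obtain ⟨y, hy⟩ := (h2 n fun v => decision M H G s v = none).1
    have hne : y ≠ none := by
      intro h0
      obtain ⟨u, hu'⟩ := hu s s.2
      exact ((h2 n fun v => decision M H G s v = none).2.2 y hy).mp h0 u hu'
    obtain ⟨y', rfl⟩ := Option.ne_none_iff_exists'.mp hne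
    exact ⟨y', hy⟩
  choose y hy using hy
  have he : ∀ (s : Fin r) (a : Word b), ∃ e : Option (Word b × Fin n),
      ∀ v, MaxOk e v (M.write s (state M H G s v) a) := fun s a =>
    (h1 n b fun v => M.write s (state M H G s v) a).1
  choose e he using he
  have hcard : (univ.filter (fun z : Fin r × Word b => e z.1 z.2 ≠ none)).card ≤ J := by
    refine le_trans (le_of_eq ?_) hc
    congr 1
    refine Finset.filter_congr fun z _ => ?_
    exact not_congr ((h1 n b fun v => M.write z.1 (state M H G z.1 v) z.2).2.2.2 (e z.1 z.2)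
      (he z.1 z.2))
  refine ⟨⟨⟨⟨r, Nat.lt_succ_of_le hr⟩, (y, e)⟩, hcard⟩, ?_⟩
  set θ : Guess n b t J := ⟨⟨⟨r, Nat.lt_succ_of_le hr⟩, (y, e)⟩, hcard⟩ with hθ
  have hp : θ.pass = r := rfl
  have hval : ∀ s < r, ∀ a, val (θ.cel s a) = mem M H G s a := by
    intro s hs a
    rw [SIG_cel θ s hs a]
    exact ((h1 n b fun v => M.write s (state M H G s v) a).2.2.1 (e ⟨s, hs⟩ a)
      (he ⟨s, hs⟩ a)).symm
  have hrun := (h3 n B b Q M H G r).1 (fun s a => val (θ.cel s a)) hval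
  intro x
  refine ⟨fun s hs => ?_, fun s hs a => ?_, ?_⟩
  · beta_reduce
    rw [hrun s (le_of_lt hs) x, SIG_und θ s hs]
    exact hy ⟨s, hs⟩ x
  · beta_reduce
    rw [hrun s (le_of_lt hs) x, SIG_cel θ s hs a]
    exact he ⟨s, hs⟩ a x
  · beta_reduce
    rw [hp, hrun r le_rfl x]
    exact hd x

/-- The halting pass is determined. -/
theorem SIG_pass (h3 : S_FRUN) {t J : ℕ} (M : Machine n B b Q) (H : Net n)
    (G : SimpleGraph (Fin n)) (θ θ' : Guess n b t J) (hok : AllOk M H θ.und θ.cel G θ.pass)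
    (hok' : AllOk M H θ'.und θ'.cel G θ'.pass) : θ'.pass ≤ θ.pass := by
  by_contra hlt
  have hlt' : θ.pass < θ'.pass := not_le.mp hlt
  have h := (SIG_ok h3 M H G θ'.pass θ'.und θ'.cel hok').1 θ.pass hlt'
    (θ'.1.2.1 ⟨θ.pass, hlt'⟩)
  rw [SIG_und θ' θ.pass hlt'] at h
  have h0 := h.2 rfl
  rw [(SIG_ok h3 M H G θ.pass θ.und θ.cel hok).2.2] at h0
  exact absurd h0 (by simp)

theorem c_SIG (h1 : S_MAX) (h2 : S_FIRST) (h3 : S_FRUN) : S_SIG := by
  intro n B b t J Q M H G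
  refine ⟨⟨SIG_guess h1 h2 h3 M H G, fun ⟨θ, hθ⟩ => SIG_good h1 h3 M H G θ hθ⟩, ?_⟩
  intro θ θ' hok hok'
  have hpp : θ.pass = θ'.pass := le_antisymm (SIG_pass h3 M H G θ' θ hok' hok)
    (SIG_pass h3 M H G θ θ' hok hok')
  obtain ⟨hf, hm, -⟩ := SIG_ok h3 M H G θ.pass θ.und θ.cel hok
  obtain ⟨hf', hm', -⟩ := SIG_ok h3 M H G θ'.pass θ'.und θ'.cel hok'
  obtain ⟨⟨r, f, g⟩, hc⟩ := θ
  obtain ⟨⟨r', f', g'⟩, hc'⟩ := θ'
  have hr : r = r' := Fin.ext hpp
  subst hr
  have hff : f = f' := by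
    funext s
    have e1 := hf s s.2
    have e2 := hf' s s.2
    rw [SIG_und ⟨⟨r, f, g⟩, hc⟩ s.1 s.2] at e1
    rw [SIG_und ⟨⟨r, f', g'⟩, hc'⟩ s.1 s.2] at e2
    exact Option.some.inj ((h2 n fun v => decision M H G s v = none).2.1 _ _ e1 e2)
  have hgg : g = g' := by
    funext s a
    have e1 := hm s s.2 a
    have e2 := hm' s s.2 a
    rw [SIG_cel ⟨⟨r, f, g⟩, hc⟩ s.1 s.2] at e1
    rw [SIG_cel ⟨⟨r, f', g'⟩, hc'⟩ s.1 s.2] at e2
    exact (h1 n b fun v => M.write s (state M H G s v) a).2.1 _ _ e1 e2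
  subst hff hgg
  rfl

end Pool.Agent.HYB
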