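import Pool.Agent.HYB.St

/-!
# A machine that halts at once
-/

namespace Pool.Agent.HYB

open Finset MeasureTheory

section
variable {n B b : ℕ} {Q : Type}

/-- The algorithm without communication. -/
def ZER_alg (M : Machine n B b Q) : CT.Alg n 0 where
  send := fun _ _ _ _ _ => fun _ => false
  rejects := fun u N _ => decide (M.decide 0 (M.start u N) = some true)

lemma ZER_nbr (G : SimpleGraph (Fin n)) (u : Fin n) : CT.nbr G u = nbr G u := by
  ext v
  simp [CT.nbr, nbr]

lemma ZER_rej (M : Machine n B b Q) (H : Net n) (G : SimpleGraph (Fin n)) :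
    CT.Rejects (ZER_alg M) 0 G ↔ ∃ u, decision M H G 0 u = some true := by
  unfold CT.Rejects CT.rejectsAt
  refine exists_congr fun u => ?_
  change decide (M.decide 0 (M.start u (CT.nbr G u)) = some true) = true ↔ _
  rw [decide_eq_true_iff, ZER_nbr]
  rfl

lemma ZER_correct (M : Machine n B b Q) (H : Net n) (G : SimpleGraph (Fin n))
    (hc : Correct M H G) (hr : ¬ Running M H G 0) :
    (∃ u, decision M H G 0 u = some true) ↔ ¬ G.CliqueFree 3 := by
  obtain ⟨r, h1, h2, h3⟩ := hc
  rcases Nat.eq_zero_or_pos r with h0 | h0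
  · rw [h0] at h3
    exact h3
  · exact absurd (fun r' hr' => by
      rw [Nat.le_zero.1 hr']
      exact h2 0 h0) hr

end

/-- The first pass is needed. -/
theorem c_ZERO (h1 : S_MSB) (h2 : CT.S_RAND) : S_ZERO := by
  refine ⟨100 * (113 * 3 ^ 2) ^ 2 + 1, ?_⟩
  intro n B b Q Ω _ μ _ M H R hn hM hR
  by_contra hcon
  push Not at hcon
  have hE : CT.ErrLE μ (fun ω => ZER_alg (M ω)) 0 := by
    intro G hG
    obtain ⟨hd, hm, hc⟩ := hM G hG
    obtain ⟨-, hmc, -, -⟩ := h1 n B b Q Ω M H G hd hm
    have hrun : (μ {ω | Running (M ω) H G 0}).toReal ≤ 1 / 30 := by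
      have h := hR G hG 1
      rw [Finset.sum_range_one] at h
      linarith
    have hcor : (μ {ω | ¬ Correct (M ω) H G}).toReal ≤ 1 / 3 := by
      have hcomp : {ω | ¬ Correct (M ω) H G} = {ω | Correct (M ω) H G}ᶜ := rfl
      rw [hcomp, prob_compl_eq_one_sub hmc,
        ENNReal.toReal_sub_of_le prob_le_one ENNReal.one_ne_top]
      have h3 : (2 / 3 : ENNReal).toReal ≤ (μ {ω | Correct (M ω) H G}).toReal :=
        ENNReal.toReal_mono (measure_ne_top _ _) hc
      have h4 : (2 / 3 : ENNReal).toReal = 2 / 3 := by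
        rw [ENNReal.toReal_div]; norm_num
      rw [h4] at h3
      rw [ENNReal.toReal_one]
      linarith
    have key : ∀ S : Set Ω, (∀ ω ∈ S, Running (M ω) H G 0 ∨ ¬ Correct (M ω) H G) →
        μ S ≤ 11 / 30 := by
      intro S hS
      have hsub : S ⊆ {ω | Running (M ω) H G 0} ∪ {ω | ¬ Correct (M ω) H G} :=
        fun ω hω => hS ω hω
      have h5 : (μ S).toReal ≤ 11 / 30 := by
        calc (μ S).toReal
            ≤ (μ ({ω | Running (M ω) H G 0} ∪ {ω | ¬ Correct (M ω) H G})).toReal :=
              ENNReal.toReal_mono (measure_ne_top _ _) (measure_mono hsub)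
          _ ≤ (μ {ω | Running (M ω) H G 0} + μ {ω | ¬ Correct (M ω) H G}).toReal :=
              ENNReal.toReal_mono (by finiteness) (measure_union_le _ _)
          _ = (μ {ω | Running (M ω) H G 0}).toReal + (μ {ω | ¬ Correct (M ω) H G}).toReal :=
              ENNReal.toReal_add (measure_ne_top _ _) (measure_ne_top _ _)
          _ ≤ 1 / 30 + 1 / 3 := add_le_add hrun hcor
          _ = 11 / 30 := by norm_num
      have h6 : (11 / 30 : ENNReal).toReal = 11 / 30 := by
        rw [ENNReal.toReal_div]; norm_num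
      rw [← h6] at h5
      exact (ENNReal.toReal_le_toReal (measure_ne_top _ _)
        (ENNReal.div_ne_top (by norm_num) (by norm_num))).mp h5
    refine ⟨?_, fun hG3 => key _ ?_, fun hG3 => key _ ?_⟩
    · have : {ω | CT.Rejects (ZER_alg (M ω)) 0 G} =
          ⋃ u, {ω | decision (M ω) H G 0 u = some true} := by
        ext ω
        rw [Set.mem_setOf_eq, ZER_rej (M ω) H G]
        simp
      rw [this]
      exact MeasurableSet.iUnion fun u => hd 0 u _
    · intro ω hω
      by_contra hc2
      push Not at hc2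
      refine hω ((ZER_rej (M ω) H G).2 ?_)
      exact (ZER_correct (M ω) H G hc2.2 hc2.1).2 hG3
    · intro ω hω
      by_contra hc2
      push Not at hc2
      exact (ZER_correct (M ω) H G hc2.2 hc2.1).1 ((ZER_rej (M ω) H G).1 hω) hG3
  have hn0 : 0 < n := by omega
  have h3 := h2 n 0 0 0 Ω μ _ hE hn0 (by norm_num)
  have h4 : ((100 * (113 * 3 ^ 2) ^ 2 + 1 : ℕ) : ℝ) ≤ n := by exact_mod_cast hn
  norm_num at h3 h4
  linarith

end Pool.Agent.HYB
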