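import Pool.Agent.HYB.Model
import Pool.Agent.CT.Stmts

/-!
# Definitions of the proof

`FirstOk`, `MaxOk`: local checks for the first undecided vertex and for the value stored in a cell.
`frun`: the run in which the contents of the shared memory are prescribed.
`cone`, `Sep`: influence in the network. `solo`: the run simulated by one vertex. `toAlg`: the
message passing algorithm (library `CT`) that simulates the machine for a guess.
`XT`, `YT`: contents (labelled trees and triangle components) with different names in `Fin q`.
-/

namespace Pool.Agent.HYB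

open Finset MeasureTheory
open Pool.Agent.CT (Tr NodeFun Node Alg rejectsAt SatT SatTri SatY Sat Hang Br HP BP labH labB nodeOf
  RealT RealY pr Al)

variable {n B b : ℕ} {Q : Type}

/-! ### Guesses -/

/-- The check of the vertex `v` that `y` is the first vertex with the property `p` (`none`: no
vertex has the property). -/
def FirstOk (y : Option (Fin n)) (v : Fin n) (p : Prop) : Prop :=
  match y with
  | none => ¬ p
  | some y => (v < y → ¬ p) ∧ (v = y → p)

/-- The check of the vertex `v` writing `x` that `e = some (w, y)`: the largest value written is `w`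
and `y` is the first vertex that writes it (`none`: nothing is written). -/
def MaxOk (e : Option (Word b × Fin n)) (v : Fin n) (x : WithBot (Word b)) : Prop :=
  match e with
  | none => x = ⊥
  | some e => (v < e.2 → x < e.1) ∧ (v = e.2 → x = e.1) ∧ x ≤ e.1

/-- The value stored according to the guess `e`. -/
def val (e : Option (Word b × Fin n)) : WithBot (Word b) :=
  match e with
  | none => ⊥
  | some e => e.1

/-- A guess: the halting pass `r ≤ t`, for each pass `s < r` the first undecided vertex, and for each
pass `s < r` and each cell the value stored and the first vertex writing it (at most `J` cells are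
written in total). -/
def Guess (n b t J : ℕ) : Type :=
  {θ : Σ r : Fin (t + 1), (Fin r → Fin n) × (Fin r → Word b → Option (Word b × Fin n)) //
    (univ.filter (fun z : Fin θ.1 × Word b => θ.2.2 z.1 z.2 ≠ none)).card ≤ J}

noncomputable instance instFintypeGuess {n b t J : ℕ} : Fintype (Guess n b t J) := by
  classical
  unfold Guess
  infer_instance

/-- The halting pass. -/
def Guess.pass {n b t J : ℕ} (θ : Guess n b t J) : ℕ := θ.1.1

/-- The first undecided vertices. -/
def Guess.und {n b t J : ℕ} (θ : Guess n b t J) (s : ℕ) : Option (Fin n) :=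
  if h : s < θ.pass then some (θ.1.2.1 ⟨s, h⟩) else none

/-- The cells. -/
def Guess.cel {n b t J : ℕ} (θ : Guess n b t J) (s : ℕ) (a : Word b) :
    Option (Word b × Fin n) :=
  if h : s < θ.pass then θ.1.2.2 ⟨s, h⟩ a else none

open Classical in
/-- The states after `r` passes if the values stored in pass `s` are prescribed to be `m s`. -/
noncomputable def frun (M : Machine n B b Q) (H : Net n) (m : ℕ → Word b → WithBot (Word b))
    (G : SimpleGraph (Fin n)) : ℕ → Fin n → Q
  | 0, u => M.start u (nbr G u)
  | r + 1, u => M.step r (frun M H m G r u)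
      (fun w => if G.Adj w u then M.send r (frun M H m G r w) u else fun _ => false)
      (fun w => if w ∈ H r u then some (frun M H m G r w) else none)
      (m r)

/-- All checks of the vertex `x` whose state after `s` passes is `st s`: the first undecided vertex
in pass `s < r` is `τ s`, the cells in pass `s < r` are as in `σ s`, and the decision after `r`
passes is `false`. -/
def VOk (M : Machine n B b Q) (τ : ℕ → Option (Fin n)) (σ : ℕ → Word b → Option (Word b × Fin n))
    (r : ℕ) (x : Fin n) (st : ℕ → Q) : Prop :=
  (∀ s < r, FirstOk (τ s) x (M.decide s (st s) = none)) ∧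
  (∀ s < r, ∀ a, MaxOk (σ s a) x (M.write s (st s) a)) ∧
  M.decide r (st r) = some false

/-- All vertices pass all checks in the run with the prescribed memory contents. -/
def AllOk (M : Machine n B b Q) (H : Net n) (τ : ℕ → Option (Fin n))
    (σ : ℕ → Word b → Option (Word b × Fin n)) (G : SimpleGraph (Fin n)) (r : ℕ) : Prop :=
  ∀ x, VOk M τ σ r x (fun s => frun M H (fun s a => val (σ s a)) G s x)

open Classical in
/-- The machine halts within `t` passes, with the answer `no triangle`, and until then changes at
most `J` cells (counted for each pass). -/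
def Good (M : Machine n B b Q) (H : Net n) (G : SimpleGraph (Fin n)) (t J : ℕ) : Prop :=
  ∃ r ≤ t, (∀ u, decision M H G r u = some false) ∧ (∀ s < r, ∃ u, decision M H G s u = none) ∧
    (univ.filter (fun z : Fin r × Word b => mem M H G z.1 z.2 ≠ ⊥)).card ≤ J

/-! ### Influence in the network -/

/-- The vertices influenced by `u` through the network in `r` passes. -/
def cone (H : Net n) : ℕ → Fin n → Finset (Fin n)
  | 0, u => {u}
  | r + 1, u => cone H r u ∪ univ.filter (fun x => ∃ y ∈ cone H r u, y ∈ H r x)

/-- The vertices in `Λ` influence disjoint sets of vertices in `t` passes. -/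
def Sep (H : Net n) (t : ℕ) (Λ : Finset (Fin n)) : Prop :=
  ∀ u ∈ Λ, ∀ u' ∈ Λ, u ≠ u' → Disjoint (cone H t u) (cone H t u')

/-- The run simulated by the vertex `u` with neighbour set `N` which receives the message `h s w`
from `w` in pass `s`: all other vertices are isolated in the input graph. -/
noncomputable def solo (M : Machine n B b Q) (H : Net n) (m : ℕ → Word b → WithBot (Word b))
    (u : Fin n) (N : Finset (Fin n)) (h : ℕ → Fin n → Msg B) : ℕ → Fin n → Q
  | 0, x => M.start x (if x = u then N else ∅)
  | r + 1, x => M.step r (solo M H m u N h r x)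
      (fun w => if x = u then h r w else fun _ => false)
      (fun w => if w ∈ H r x then some (solo M H m u N h r w) else none)
      (m r)

open Classical in
/-- The message passing algorithm simulating the machine for the guess `(τ, σ)`: the vertex `u ∈ Λ`
simulates the vertices it influences and rejects if one of them fails a check. -/
noncomputable def toAlg (M : Machine n B b Q) (H : Net n) (τ : ℕ → Option (Fin n))
    (σ : ℕ → Word b → Option (Word b × Fin n)) (Λ : Finset (Fin n)) (t r : ℕ) : Alg n B where
  send := fun s u N h v => M.send s (solo M H (fun s a => val (σ s a)) u N h s u) v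
  rejects := fun u N h =>
    if u ∈ Λ then
      if ∀ x ∈ cone H t u, VOk M τ σ r x (fun s => solo M H (fun s a => val (σ s a)) u N h s x)
      then false else true
    else
      if (∃ u' ∈ Λ, u ∈ cone H t u') ∨
        VOk M τ σ r u (fun s => solo M H (fun s a => val (σ s a)) u ∅ (fun _ _ _ => false) s u)
      then false else true

/-! ### Contents -/

/-- Renaming a branch. -/
def mapBr {L L' : Type} {k : ℕ} (f : L → L') : ∀ {h : ℕ}, Br L k h → Br L' k h
  | 0, b => f b
  | _ + 1, c => (f c.1, fun j => mapBr f (c.2 j))

/-- Renaming a node with hanging branches. -/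
def mapH {L L' : Type} {k h m : ℕ} (f : L → L') (c : Hang L k h m) : Hang L' k h m :=
  (f c.1, fun j => mapBr f (c.2 j))

/-- The behaviour of nodes with names `f w`. -/
def ncomap {L L' A : Type} {k : ℕ} (f : L → L') (N : Node L' A k) : Node L A k where
  F := fun w => N.F (f w)
  F0 := fun w => N.F0 (f w)
  O := fun w => N.O (f w)
  O0 := fun w => N.O0 (f w)

/-- Trees with different names in `Fin q`. -/
def XT (q k h : ℕ) : Type := {c : Hang (Fin q) k h (k + 2) // Function.Injective (labH c)}

/-- Triangle components with different names in `Fin q`. -/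
def YT (q k h : ℕ) : Type :=
  {x : Fin 3 → Hang (Fin q) k h k //
    Function.Injective (fun z : Fin 3 × HP k h k => labH (x z.1) z.2)}

noncomputable instance instFintypeXT {q k h : ℕ} : Fintype (XT q k h) := by
  classical
  unfold XT
  infer_instance

noncomputable instance instFintypeYT {q k h : ℕ} : Fintype (YT q k h) := by
  classical
  unfold YT
  infer_instance

/-- The isolated vertex `v` accepts. -/
def Iso (P : Alg n B) (v : Fin n) : Prop := P.rejects v ∅ (fun _ _ _ => false) = false

/-- All vertices of the pool `f` accept if it contains the tree `c`. -/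
def EvX {q k h : ℕ} (P : Alg n B) (f : Fin q → Fin n) (r : ℕ) (c : XT q k h) : Prop :=
  SatT (ncomap f (nodeOf P k)) h (r + 1) c.1 ∧ ∀ w, (∀ x, labH c.1 x ≠ w) → Iso P (f w)

/-- All vertices of the pool `f` accept if it contains the triangle component `x`. -/
def EvY {q k h : ℕ} (P : Alg n B) (f : Fin q → Fin n) (r : ℕ) (x : YT q k h) : Prop :=
  SatTri (ncomap f (nodeOf P k)) h (r + 1) x.1 ∧
    ∀ w, (∀ z : Fin 3 × HP k h k, labH (x.1 z.1) z.2 ≠ w) → Iso P (f w)

/-- All vertices outside the pools accept. -/
def Out {q N : ℕ} (P : Alg n B) (ι : Fin N → Fin q → Fin n) : Prop :=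
  ∀ v, (∀ i w, ι i w ≠ v) → Iso P v

/-- `G` is the graph with the tree `c i` in the pool `ι i` for all `i`. -/
def Fam0 {q k h N : ℕ} (ι : Fin N → Fin q → Fin n) (c : Fin N → XT q k h)
    (G : SimpleGraph (Fin n)) : Prop :=
  G.CliqueFree 3 ∧ G.edgeSet.ncard ≤ n ∧ (∀ m, RealT G (mapH (ι m) (c m).1)) ∧
    ∀ v, (∀ m x, ι m (labH (c m).1 x) ≠ v) → ∀ w, ¬ G.Adj v w

/-- `G` is the graph with the tree `c m` in the pool `ι m` for all `m ≠ i` and the triangle component
`x` in the pool `ι i`. -/
def Fam1 {q k h N : ℕ} (ι : Fin N → Fin q → Fin n) (i : Fin N) (c : Fin N → XT q k h)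
    (x : YT q k h) (G : SimpleGraph (Fin n)) : Prop :=
  ¬ G.CliqueFree 3 ∧ G.edgeSet.ncard ≤ n ∧ (∀ m, m ≠ i → RealT G (mapH (ι m) (c m).1)) ∧
    (∀ j : Fin 3, RealY G (mapH (ι i) (x.1 j)) (mapH (ι i) (x.1 (j + 1))).1
      (mapH (ι i) (x.1 (j + 2))).1) ∧
    ∀ v, (∀ m, m ≠ i → ∀ y, ι m (labH (c m).1 y) ≠ v) →
      (∀ z : Fin 3 × HP k h k, ι i (labH (x.1 z.1) z.2) ≠ v) → ∀ w, ¬ G.Adj v w

/-- The random machine is good with probability at least `3/5` on triangle-free graphs and at most
`1/3` on the others. -/
def ErrGood {Ω : Type} [MeasurableSpace Ω] (μ : Measure Ω) (M : Ω → Machine n B b Q) (H : Net n)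
    (t J : ℕ) : Prop :=
  ∀ G : SimpleGraph (Fin n), G.edgeSet.ncard ≤ n →
    MeasurableSet {ω | Good (M ω) H G t J} ∧
    (G.CliqueFree 3 → μ {ω | ¬ Good (M ω) H G t J} ≤ 2 / 5) ∧
    (¬ G.CliqueFree 3 → μ {ω | Good (M ω) H G t J} ≤ 1 / 3)

end Pool.Agent.HYB
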