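import Pool.Agent.CT.Final41
import Pool.Agent.HYB.C_MAX
import Pool.Agent.HYB.C_FST
import Pool.Agent.HYB.C_FRN
import Pool.Agent.HYB.C_SIG
import Pool.Agent.HYB.C_CNT
import Pool.Agent.HYB.C_LOC
import Pool.Agent.HYB.C_ALG
import Pool.Agent.HYB.C_LAM
import Pool.Agent.HYB.C_MAP
import Pool.Agent.HYB.C_CPR
import Pool.Agent.HYB.C_POL
import Pool.Agent.HYB.C_FAM
import Pool.Agent.HYB.C_PRD
import Pool.Agent.HYB.C_PIN
import Pool.Agent.HYB.C_EVT
import Pool.Agent.HYB.C_FRM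
import Pool.Agent.HYB.C_COR
import Pool.Agent.HYB.C_NXY
import Pool.Agent.HYB.C_RND
import Pool.Agent.HYB.C_MSB
import Pool.Agent.HYB.C_GDM
import Pool.Agent.HYB.C_ZER
import Pool.Agent.HYB.C_NUM
import Pool.Agent.HYB.C_MAIN

/-!
# The main theorem
-/

namespace Pool.Agent.HYB

theorem main : S_MAIN := by
  have hfrun := c_FRUN c_MAX
  have hsig := c_SIG c_MAX c_FIRST hfrun
  have halg := c_ALG c_LOC
  have hprd := c_PRD c_MAP (CT.linkT CT.wt (CT.br CT.wt) CT.nodeProps)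
    (CT.linkTri CT.wt (CT.br CT.wt) CT.nodeProps)
  have hpool := c_POOL c_CPR CT.s_content CT.nodeProps
  have hfam := c_FAM c_MAP CT.g0 CT.g1 CT.edge0 CT.edge1
  have hcore := c_CORE (c_EVT hsig halg hprd) c_FORM hpool c_PIN c_NEXY
  exact c_MAIN (c_ZERO c_MSB CT.s_rand) (c_GDM c_MSB) (c_RND c_LAM hfam hcore c_NEXY) c_CNT c_NUM

end Pool.Agent.HYB
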