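import Mathlib

/-!
# Vertex machines with a network and a shared memory (the model of the final theorem)

The input is a graph `G` on the vertex set `Fin n`. There is a processor with a state (an element of
an arbitrary type `Q`) at each vertex. In each pass

* every vertex sends `B` bits along each of its edges,
* every vertex `u` sees the whole states of the vertices in `H r u`; here `H` is a network which
  may depend on the pass `r`, but not on the input,
* every vertex may write to the cells of a shared memory; if several vertices write to the same
  cell, the largest value is stored; every vertex sees all values stored in the pass.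

The machine halts as soon as all vertices have a decision at the same time; the answer is `triangle`
if one of these decisions is `true`.
-/

namespace Pool.Agent.HYB

open MeasureTheory

/-- A message of `B` bits. -/
abbrev Msg (B : ℕ) : Type := Fin B → Bool

/-- Addresses of cells, and contents of cells: numbers of `b` bits. -/
abbrev Word (b : ℕ) : Type := Fin (2 ^ b)

/-- A network: `H r u` is the set of the vertices whose states `u` sees in pass `r`. -/
abbrev Net (n : ℕ) : Type := ℕ → Fin n → Finset (Fin n)

/-- In each pass every vertex sees at most `d` vertices and is seen by at most `d` vertices. -/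
def DegLE {n : ℕ} (H : Net n) (d : ℕ) : Prop :=
  ∀ r u, (H r u).card ≤ d ∧ (Finset.univ.filter (fun v => u ∈ H r v)).card ≤ d

open Classical in
/-- The set of neighbours of `u`. -/
noncomputable def nbr {n : ℕ} (G : SimpleGraph (Fin n)) (u : Fin n) : Finset (Fin n) :=
  Finset.univ.filter (fun v => G.Adj u v)

/-- A deterministic machine. -/
structure Machine (n B b : ℕ) (Q : Type) where
  /-- the initial state of a vertex, a function of its name and of the names of its neighbours -/
  start : Fin n → Finset (Fin n) → Q
  /-- `send r q v`: the message sent to the neighbour `v` in pass `r` in state `q` -/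
  send : ℕ → Q → Fin n → Msg B
  /-- `write r q a`: the number written to the cell `a` in pass `r` in state `q` (`⊥`: none) -/
  write : ℕ → Q → Word b → WithBot (Word b)
  /-- the new state, a function of the pass, the old state, the messages received, the states seen
  in the network and the values stored in the cells in this pass -/
  step : ℕ → Q → (Fin n → Msg B) → (Fin n → Option Q) → (Word b → WithBot (Word b)) → Q
  /-- the decision (if any) after `r` passes (`true`: there is a triangle) -/
  decide : ℕ → Q → Option Bool

variable {n B b : ℕ} {Q : Type}

open Classical in
/-- The states of the vertices after `r` passes. -/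
noncomputable def state (M : Machine n B b Q) (H : Net n) (G : SimpleGraph (Fin n)) :
    ℕ → Fin n → Q
  | 0, u => M.start u (nbr G u)
  | r + 1, u => M.step r (state M H G r u)
      (fun w => if G.Adj w u then M.send r (state M H G r w) u else fun _ => false)
      (fun w => if w ∈ H r u then some (state M H G r w) else none)
      (fun a => Finset.univ.sup fun w => M.write r (state M H G r w) a)

/-- The number stored in the cell `a` in pass `r` (`⊥`: nothing is written to `a` in this pass). -/
noncomputable def mem (M : Machine n B b Q) (H : Net n) (G : SimpleGraph (Fin n)) (r : ℕ)
    (a : Word b) : WithBot (Word b) :=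
  Finset.univ.sup fun w => M.write r (state M H G r w) a

/-- The decision of `u` after `r` passes. -/
noncomputable def decision (M : Machine n B b Q) (H : Net n) (G : SimpleGraph (Fin n)) (r : ℕ)
    (u : Fin n) : Option Bool :=
  M.decide r (state M H G r u)

/-- The machine has not halted within `r` passes. -/
def Running (M : Machine n B b Q) (H : Net n) (G : SimpleGraph (Fin n)) (r : ℕ) : Prop :=
  ∀ r' ≤ r, ∃ u, decision M H G r' u = none

/-- The machine halts with the right answer. -/
def Correct (M : Machine n B b Q) (H : Net n) (G : SimpleGraph (Fin n)) : Prop :=
  ∃ r, (∀ u, decision M H G r u ≠ none) ∧ (∀ r' < r, ∃ u, decision M H G r' u = none) ∧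
    ((∃ u, decision M H G r u = some true) ↔ ¬ G.CliqueFree 3)

variable {Ω : Type} [MeasurableSpace Ω]

/-- The random machine `M ω` answers correctly with probability at least `2/3` on every graph with
`n` vertices and at most `n` edges (decisions and memory contents are random variables). -/
def DetectsTriangles (μ : Measure Ω) (M : Ω → Machine n B b Q) (H : Net n) : Prop :=
  ∀ G : SimpleGraph (Fin n), G.edgeSet.ncard ≤ n →
    (∀ r u x, MeasurableSet {ω | decision (M ω) H G r u = x}) ∧
    (∀ r a x, MeasurableSet {ω | mem (M ω) H G r a = x}) ∧
    2 / 3 ≤ μ {ω | Correct (M ω) H G}

/-- A pass over a graph with `n` vertices and `m` edges takes time `n + m`; the expected number of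
passes is the sum over `r` of the probabilities that the machine has not halted within `r` passes.
The expected time is at most `T` on every graph with `n` vertices and at most `n` edges. -/
def ExpectedTimeLE (μ : Measure Ω) (M : Ω → Machine n B b Q) (H : Net n) (T : ℝ) : Prop :=
  ∀ G : SimpleGraph (Fin n), G.edgeSet.ncard ≤ n →
    ∀ m, (n + G.edgeSet.ncard) * ∑ r ∈ Finset.range m, (μ {ω | Running (M ω) H G r}).toReal ≤ T

/-- The expected number of changes of the shared memory (pairs of a pass before the machine halts
and a cell that is written in this pass) is at most `J` on every graph with `n` vertices and at most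
`n` edges. -/
def ExpectedChangesLE (μ : Measure Ω) (M : Ω → Machine n B b Q) (H : Net n) (J : ℝ) : Prop :=
  ∀ G : SimpleGraph (Fin n), G.edgeSet.ncard ≤ n →
    ∀ m, ∑ r ∈ Finset.range m, ∑ a,
      (μ {ω | Running (M ω) H G r ∧ mem (M ω) H G r a ≠ ⊥}).toReal ≤ J

end Pool.Agent.HYB
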